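import Pool.Agent.H72.Sol.Pos

/-!
Induced representations from an arbitrary finite dimensional representation of a subgroup,
their characters, and Frobenius reciprocity for class functions.
-/

open Module

namespace Pool.Agent.H98.Ind

open Pool.Agent.H7.Artin Pool.Agent.H72.Sol

set_option linter.unusedSectionVars false

variable {G : Type} [Group G]

/-- trace of an endomorphism of a power of V : the sum of the traces of the diagonal blocks -/
theorem trace_pi {ι : Type} [Fintype ι] [DecidableEq ι] {V : Type} [AddCommGroup V] [Module ℂ V]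
    [FiniteDimensional ℂ V] (T : (ι → V) →ₗ[ℂ] (ι → V)) :
    LinearMap.trace ℂ (ι → V) T = ∑ i, LinearMap.trace ℂ V
      (LinearMap.proj i ∘ₗ T ∘ₗ LinearMap.single ℂ (fun _ => V) i) := by
  have h1 : T = ∑ i, (T ∘ₗ LinearMap.single ℂ (fun _ => V) i) ∘ₗ LinearMap.proj i := by
    ext i v j
    simp only [LinearMap.coe_comp, Function.comp_apply, LinearMap.coe_sum, Finset.sum_apply,
      LinearMap.coe_single, LinearMap.proj_apply]
    rw [Finset.sum_eq_single i]
    · simp
    · intro k _ hk
      rw [Pi.single_eq_of_ne hk]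
      simp
    · intro h
      exact absurd (Finset.mem_univ _) h
  conv_lhs => rw [h1]
  rw [map_sum]
  refine Finset.sum_congr rfl fun i _ => ?_
  rw [← LinearMap.trace_comp_comm']

open Classical in
/-- the induced function -/
noncomputable def indFn [Finite G] (H : Subgroup G) (χ : H → ℂ) (g : G) : ℂ :=
  (Nat.card H : ℂ)⁻¹ * ∑ x ∈ @Finset.univ G (Fintype.ofFinite G),
    if h : x⁻¹ * g * x ∈ H then χ ⟨x⁻¹ * g * x, h⟩ else 0

open Classical in
theorem indFn_eq [Fintype G] (H : Subgroup G) (χ : H → ℂ) (g : G) :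
    indFn H χ g = (Nat.card H : ℂ)⁻¹ * ∑ x : G,
      if h : x⁻¹ * g * x ∈ H then χ ⟨x⁻¹ * g * x, h⟩ else 0 := by
  unfold indFn
  rw [Subsingleton.elim (Fintype.ofFinite G) ‹Fintype G›]

section rep

variable {V : Type} [AddCommGroup V] [Module ℂ V]

/-- left translation of vector valued functions -/
def lt (g : G) : (G → V) →ₗ[ℂ] (G → V) where
  toFun f x := f (g⁻¹ * x)
  map_add' _ _ := rfl
  map_smul' _ _ := rfl

theorem lt_apply (g : G) (f : G → V) (x : G) : lt g f x = f (g⁻¹ * x) := rfl

/-- the space of the induced representation -/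
def sp (H : Subgroup G) (σ : Representation ℂ H V) : Submodule ℂ (G → V) where
  carrier := {f | ∀ (h : H) (x : G), f (x * h) = σ h⁻¹ (f x)}
  add_mem' := by
    intro a b ha hb h x
    rw [Pi.add_apply, Pi.add_apply, ha, hb, map_add]
  zero_mem' := by
    intro h x
    simp
  smul_mem' := by
    intro c f hf h x
    rw [Pi.smul_apply, Pi.smul_apply, hf, map_smul]

theorem lt_mem (H : Subgroup G) (σ : Representation ℂ H V) (g : G) :
    ∀ f ∈ sp H σ, lt g f ∈ sp H σ := by
  intro f hf h x
  rw [lt_apply, lt_apply, ← mul_assoc, hf]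

/-- the induced representation -/
def rep (H : Subgroup G) (σ : Representation ℂ H V) : Representation ℂ G (sp H σ) where
  toFun g := (lt g).restrict (lt_mem H σ g)
  map_one' := by
    ext f x
    simp [LinearMap.restrict_apply, lt_apply]
  map_mul' := by
    intro a b
    ext f x
    simp [LinearMap.restrict_apply, lt_apply, mul_assoc]

variable [Fintype G]

open Classical in
/-- the projector onto the induced space -/
noncomputable def prj (H : Subgroup G) (σ : Representation ℂ H V) : (G → V) →ₗ[ℂ] (G → V) where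
  toFun f x := (Nat.card H : ℂ)⁻¹ • ∑ h : H, σ h (f (x * h))
  map_add' := by
    intro f f'
    ext x
    simp only [Pi.add_apply, map_add, Finset.sum_add_distrib, smul_add]
  map_smul' := by
    intro c f
    ext x
    simp only [Pi.smul_apply, RingHom.id_apply, map_smul, ← Finset.smul_sum]
    rw [smul_comm]

open Classical in
theorem prj_apply (H : Subgroup G) (σ : Representation ℂ H V) (f : G → V) (x : G) :
    prj H σ f x = (Nat.card H : ℂ)⁻¹ • ∑ h : H, σ h (f (x * h)) := rfl

theorem prj_mem (H : Subgroup G) (σ : Representation ℂ H V) (f : G → V) :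
    prj H σ f ∈ sp H σ := by
  classical
  intro h x
  rw [prj_apply, prj_apply, map_smul, map_sum]
  congr 1
  rw [← Equiv.sum_comp (Equiv.mulLeft h) (fun h' : H => σ h⁻¹ (σ h' (f (x * h'))))]
  refine Finset.sum_congr rfl fun h' _ => ?_
  rw [Equiv.coe_mulLeft, Subgroup.coe_mul, ← mul_assoc x, ← Module.End.mul_apply, ← map_mul,
    inv_mul_cancel_left]

theorem prj_of_mem (H : Subgroup G) (σ : Representation ℂ H V) {f : G → V} (hf : f ∈ sp H σ) :
    prj H σ f = f := by
  classical
  ext x
  rw [prj_apply]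
  have h1 : ∀ h : H, σ h (f (x * h)) = f x := by
    intro h
    rw [hf h x, ← Module.End.mul_apply, ← map_mul, mul_inv_cancel, map_one, Module.End.one_apply]
  simp_rw [h1]
  rw [Finset.sum_const, Finset.card_univ, ← Nat.card_eq_fintype_card, ← Nat.cast_smul_eq_nsmul ℂ,
    smul_smul, inv_mul_cancel₀, one_smul]
  exact_mod_cast Nat.card_pos.ne'

/-- The character of the induced representation. -/
theorem rep_character [FiniteDimensional ℂ V] (H : Subgroup G) (σ : Representation ℂ H V) (g : G) :
    (rep H σ).character g = indFn H σ.character g := by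
  classical
  have hmem : ∀ f, (lt g ∘ₗ prj H σ) f ∈ sp H σ := fun f =>
    lt_mem H σ g _ (prj_mem H σ f)
  have h1 : rep H σ g = (lt g ∘ₗ prj H σ).restrict (fun f _ => hmem f) := by
    ext f x
    change lt g f x = lt g (prj H σ f) x
    rw [prj_of_mem H σ f.2]
  unfold Representation.character
  rw [h1, LinearMap.trace_restrict_eq_of_forall_mem (sp H σ) _ hmem, trace_pi, indFn_eq,
    Finset.mul_sum]
  refine Finset.sum_congr rfl fun x _ => ?_
  by_cases hx : x⁻¹ * g * x ∈ H
  · rw [dif_pos hx]
    have h2 : LinearMap.proj x ∘ₗ (lt g ∘ₗ prj H σ) ∘ₗ LinearMap.single ℂ (fun _ => V) x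
        = (Nat.card H : ℂ)⁻¹ • σ ⟨x⁻¹ * g * x, hx⟩ := by
      ext v
      simp only [LinearMap.coe_comp, Function.comp_apply, LinearMap.proj_apply, lt_apply,
        prj_apply, LinearMap.coe_single, LinearMap.smul_apply]
      congr 1
      rw [Finset.sum_eq_single ⟨x⁻¹ * g * x, hx⟩]
      · have : g⁻¹ * x * (x⁻¹ * g * x) = x := by group
        simp only [this, Pi.single_eq_same]
      · intro h _ hne
        have : g⁻¹ * x * (h : G) ≠ x := by
          intro h'
          apply hne
          apply Subtype.ext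
          change (h : G) = x⁻¹ * g * x
          rw [mul_assoc, inv_mul_eq_iff_eq_mul] at h'
          rw [mul_assoc, ← h']
          group
        rw [Pi.single_eq_of_ne this, map_zero]
      · intro h
        exact absurd (Finset.mem_univ _) h
    rw [h2, map_smul, smul_eq_mul]
  · rw [dif_neg hx, mul_zero]
    have h2 : LinearMap.proj x ∘ₗ (lt g ∘ₗ prj H σ) ∘ₗ LinearMap.single ℂ (fun _ => V) x
        = 0 := by
      ext v
      simp only [LinearMap.coe_comp, Function.comp_apply, LinearMap.proj_apply, lt_apply,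
        prj_apply, LinearMap.coe_single, LinearMap.zero_apply]
      rw [Finset.sum_eq_zero, smul_zero]
      intro h _
      have : g⁻¹ * x * (h : G) ≠ x := by
        intro h'
        apply hx
        have h3 : x⁻¹ * g * x = h := by
          rw [mul_assoc, inv_mul_eq_iff_eq_mul] at h'
          rw [mul_assoc, ← h']
          group
        rw [h3]
        exact h.2
      rw [Pi.single_eq_of_ne this, map_zero]
    rw [h2, map_zero]

end rep

/-- Existence of the induced representation. -/
theorem exists_ind [Finite G] (H : Subgroup G) {V : Type} [AddCommGroup V] [Module ℂ V]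
    [FiniteDimensional ℂ V] (σ : Representation ℂ H V) :
    ∃ (W : Type) (_ : AddCommGroup W) (_ : Module ℂ W) (_ : FiniteDimensional ℂ W)
      (τ : Representation ℂ G W), τ.character = indFn H σ.character := by
  let _ : Fintype G := Fintype.ofFinite G
  exact ⟨sp H σ, inferInstance, inferInstance, inferInstance, rep H σ,
    funext fun g => rep_character H σ g⟩

open Classical in
/-- Frobenius reciprocity for class functions. -/
theorem ip_indFn [Fintype G] {θ : G → ℂ} (hθ : ∀ g x, θ (g * x * g⁻¹) = θ x) (H : Subgroup G)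
    [Fintype H] (χ : H → ℂ) :
    ip θ (indFn H χ) = ip (fun h : H => θ h) χ := by
  classical
  have hG : (Nat.card G : ℂ) ≠ 0 := by exact_mod_cast Nat.card_pos.ne'
  unfold ip
  have h1 : ∑ g : G, θ g * indFn H χ g⁻¹ = (Nat.card H : ℂ)⁻¹ * ∑ x : G, ∑ g : G,
      θ g * (if h : x⁻¹ * g⁻¹ * x ∈ H then χ ⟨x⁻¹ * g⁻¹ * x, h⟩ else 0) := by
    rw [Finset.sum_comm, Finset.mul_sum]
    refine Finset.sum_congr rfl fun g _ => ?_
    rw [indFn_eq, ← Finset.mul_sum]
    ring
  have h2 : ∀ x : G, ∑ g : G,
      θ g * (if h : x⁻¹ * g⁻¹ * x ∈ H then χ ⟨x⁻¹ * g⁻¹ * x, h⟩ else 0)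
      = ∑ h : H, θ h * χ h⁻¹ := by
    intro x
    rw [← Equiv.sum_comp (MulAut.conj x).toEquiv]
    have h3 : ∀ k : G, x⁻¹ * (x * k * x⁻¹)⁻¹ * x = k⁻¹ := fun k => by group
    have h4 : ∀ k : G, θ ((MulAut.conj x).toEquiv k) * (if h : x⁻¹ * ((MulAut.conj x).toEquiv k)⁻¹
        * x ∈ H then χ ⟨x⁻¹ * ((MulAut.conj x).toEquiv k)⁻¹ * x, h⟩ else 0)
        = if h : k ∈ H then θ k * χ (⟨k, h⟩ : H)⁻¹ else 0 := by
      intro k
      change θ (x * k * x⁻¹) * (if h : x⁻¹ * (x * k * x⁻¹)⁻¹ * x ∈ H then
        χ ⟨x⁻¹ * (x * k * x⁻¹)⁻¹ * x, h⟩ else 0) = _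
      rw [hθ]
      by_cases hk : k ∈ H
      · have hk' : x⁻¹ * (x * k * x⁻¹)⁻¹ * x ∈ H := by rw [h3]; exact H.inv_mem hk
        rw [dif_pos hk', dif_pos hk]
        have h5 : (⟨x⁻¹ * (x * k * x⁻¹)⁻¹ * x, hk'⟩ : H) = (⟨k, hk⟩ : H)⁻¹ :=
          Subtype.ext (h3 k)
        rw [h5]
      · have hk' : x⁻¹ * (x * k * x⁻¹)⁻¹ * x ∉ H := by
          rw [h3]
          intro h'
          exact hk (by simpa using H.inv_mem h')
        rw [dif_neg hk', dif_neg hk, mul_zero]
    simp_rw [h4]
    refine (Fintype.sum_of_injective (fun h : H => (h : G)) Subtype.val_injective _ _ ?_ ?_).symm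
    · intro k hk
      refine dif_neg fun h => hk ⟨⟨k, h⟩, rfl⟩
    · intro h
      rw [dif_pos h.2]
  rw [h1]
  simp_rw [h2]
  rw [Finset.sum_const, Finset.card_univ, nsmul_eq_mul, ← Nat.card_eq_fintype_card]
  field_simp

/-- Frobenius reciprocity for class functions, for groups with a proof of finiteness. -/
theorem ipF_indFn [Finite G] {θ : G → ℂ} (hθ : ∀ g x, θ (g * x * g⁻¹) = θ x) (H : Subgroup G)
    (χ : H → ℂ) :
    ipF θ (indFn H χ) = ipF (fun h : H => θ h) χ := by
  classical
  let _ : Fintype G := Fintype.ofFinite G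
  let _ : Fintype H := Fintype.ofFinite H
  rw [ipF_eq, ipF_eq]
  exact ip_indFn hθ H χ

end Pool.Agent.H98.Ind
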