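import Mathlib

/-!
# Sums of three squares

Every number `8 * m + 3` is a sum of three squares (Gauss); the proof is the one of Ankeny
(Minkowski, Dirichlet on primes in progressions, two squares).
-/


namespace Pool.Agent.H98.TS

open MeasureTheory

/-- Minkowski's theorem for a ball in three-space. -/
lemma mink (A : Matrix (Fin 3) (Fin 3) ℝ) (hA : A.det ≠ 0) (B : ℝ) (hB : 0 < B)
    (h : |A.det| * 8 < Real.sqrt B ^ 3 * (Real.pi * 4 / 3)) :
    ∃ c : Fin 3 → ℤ, (0:ℝ) < ∑ i, (∑ j, (c j : ℝ) * A j i) ^ 2 ∧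
      ∑ i, (∑ j, (c j : ℝ) * A j i) ^ 2 < B := by
  classical
  have hli : LinearIndependent ℝ (fun i => A i) :=
    Matrix.linearIndependent_rows_of_det_ne_zero hA
  let b : Module.Basis (Fin 3) ℝ (Fin 3 → ℝ) :=
    basisOfLinearIndependentOfCardEqFinrank hli (by simp)
  have hb : ∀ i, b i = A i := by intro i; simp [b]
  let s : Set (Fin 3 → ℝ) := {x | ∑ i, x i ^ 2 < B}
  have hpre : s = (@WithLp.toLp 2 (Fin 3 → ℝ)) ⁻¹' (Metric.ball 0 (Real.sqrt B)) := by
    ext x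
    simp only [s, Set.mem_ofPred_eq, Set.mem_preimage, mem_ball_zero_iff,
      EuclideanSpace.norm_eq, Real.norm_eq_abs, sq_abs]
    rw [Real.sqrt_lt_sqrt_iff (by positivity)]
  have hs : volume s = ENNReal.ofReal (Real.sqrt B) ^ 3 * ENNReal.ofReal (Real.pi * 4 / 3) := by
    rw [← EuclideanSpace.volume_ball_fin_three 0 (Real.sqrt B), hpre,
      (PiLp.volume_preserving_toLp (Fin 3)).measure_preimage
        Metric.isOpen_ball.measurableSet.nullMeasurableSet]
  have hsymm : ∀ x ∈ s, -x ∈ s := by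
    intro x hx
    simpa [s] using hx
  have hconv : Convex ℝ s := by
    have : Convex ℝ (Metric.ball (0 : EuclideanSpace ℝ (Fin 3)) (Real.sqrt B)) :=
      convex_ball _ _
    rw [hpre]
    exact this.linear_preimage (WithLp.linearEquiv 2 ℝ (Fin 3 → ℝ)).symm.toLinearMap
  have hF := ZSpan.isAddFundamentalDomain' b (volume : Measure (Fin 3 → ℝ))
  have hvol : volume (ZSpan.fundamentalDomain b) = ENNReal.ofReal |A.det| := by
    rw [ZSpan.volume_fundamentalDomain]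
    congr 3
    ext i j
    simp [hb]
  have hlt : volume (ZSpan.fundamentalDomain b) * 2 ^ Module.finrank ℝ (Fin 3 → ℝ)
      < volume s := by
    rw [hvol, hs, ← ENNReal.ofReal_pow (Real.sqrt_nonneg _), ← ENNReal.ofReal_mul (by positivity)]
    simp only [Module.finrank_fintype_fun_eq_card, Fintype.card_fin]
    have h8 : (2 : ENNReal) ^ 3 = ENNReal.ofReal 8 := by
      rw [show (8:ℝ) = 2 ^ 3 by norm_num, ENNReal.ofReal_pow (by norm_num)]
      norm_num
    rw [h8, ← ENNReal.ofReal_mul (abs_nonneg _)]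
    exact (ENNReal.ofReal_lt_ofReal_iff (by positivity)).mpr h
  have : Countable (Submodule.span ℤ (Set.range b)).toAddSubgroup := by
    have hZ : Countable (Submodule.span ℤ (Set.range b)) := inferInstance
    exact hZ
  obtain ⟨x, hx0, hxs⟩ := exists_ne_zero_mem_lattice_of_measure_mul_two_pow_lt_measure
    hF hsymm hconv hlt
  obtain ⟨c, hc⟩ := (Submodule.mem_span_range_iff_exists_fun ℤ).mp x.2
  have hxi : ∀ i, (x : Fin 3 → ℝ) i = ∑ j, (c j : ℝ) * A j i := by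
    intro i
    rw [← hc]
    simp [hb, Finset.sum_apply, zsmul_eq_mul]
  refine ⟨c, ?_, ?_⟩
  · have hne : (x : Fin 3 → ℝ) ≠ 0 := by
      intro h0
      exact hx0 (by ext1; exact h0)
    have : ∃ i, (x : Fin 3 → ℝ) i ≠ 0 := by
      by_contra hcon
      push Not at hcon
      exact hne (funext hcon)
    obtain ⟨i, hi⟩ := this
    refine Finset.sum_pos' (fun _ _ => sq_nonneg _) ⟨i, Finset.mem_univ _, ?_⟩
    rw [← hxi i]
    positivity
  · have : ∑ i, (x : Fin 3 → ℝ) i ^ 2 < B := hxs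
    simpa only [hxi] using this


/-- If `m` is a non-zero square modulo a prime `p = 3 mod 4`, then `p` divides the
positive values of `X ^ 2 + m * Y ^ 2` to an even power. -/
lemma even_val (p : ℕ) (hpp : p.Prime) (hp : p % 4 = 3) (m R : ℤ)
    (hR : (p : ℤ) ∣ m - R ^ 2) (hm : ¬ (p : ℤ) ∣ m) :
    ∀ n : ℕ, 0 < n → ∀ X Y : ℤ, X ^ 2 + m * Y ^ 2 = n → Even (padicValNat p n) := by
  have : Fact p.Prime := ⟨hpp⟩
  have hmR : (m : ZMod p) = (R : ZMod p) ^ 2 := by
    have h := (ZMod.intCast_zmod_eq_zero_iff_dvd (m - R ^ 2) p).mpr hR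
    push_cast at h
    exact sub_eq_zero.mp h
  have hm0 : (m : ZMod p) ≠ 0 := by
    intro h
    exact hm ((ZMod.intCast_zmod_eq_zero_iff_dvd m p).mp h)
  intro n
  induction n using Nat.strong_induction_on with
  | _ n ih =>
    intro hn X Y hXY
    by_cases hpn : p ∣ n
    · have h0 : (X : ZMod p) ^ 2 + (m : ZMod p) * (Y : ZMod p) ^ 2 = 0 := by
        have h1 : ((X ^ 2 + m * Y ^ 2 : ℤ) : ZMod p) = 0 := by
          rw [hXY, Int.cast_natCast]
          exact (ZMod.natCast_eq_zero_iff n p).mpr hpn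
        push_cast at h1
        exact h1
      have hY0 : (Y : ZMod p) = 0 := by
        by_contra hY
        have hR0 : (R : ZMod p) ≠ 0 := by
          intro h
          rw [h] at hmR
          exact hm0 (by rw [hmR]; ring)
        refine ZMod.mod_four_ne_three_of_sq_eq_neg_sq' (p := p)
          (x := (X : ZMod p)) (y := (R : ZMod p) * (Y : ZMod p)) (mul_ne_zero hR0 hY) ?_ hp
        rw [hmR] at h0
        linear_combination h0
      have hX0 : (X : ZMod p) = 0 := by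
        rw [hY0] at h0
        have : (X : ZMod p) ^ 2 = 0 := by linear_combination h0
        exact pow_eq_zero_iff (two_ne_zero) |>.mp this
      obtain ⟨Y', rfl⟩ := (ZMod.intCast_zmod_eq_zero_iff_dvd Y p).mp hY0
      obtain ⟨X', rfl⟩ := (ZMod.intCast_zmod_eq_zero_iff_dvd X p).mp hX0
      have hp0 : (0 : ℤ) < p := by exact_mod_cast hpp.pos
      have hfac : (p : ℤ) ^ 2 * (X' ^ 2 + m * Y' ^ 2) = n := by rw [← hXY]; ring
      have hnz : (0 : ℤ) < n := by exact_mod_cast hn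
      have hpos : 0 < X' ^ 2 + m * Y' ^ 2 := by
        by_contra hneg
        push Not at hneg
        have : (p : ℤ) ^ 2 * (X' ^ 2 + m * Y' ^ 2) ≤ 0 :=
          mul_nonpos_of_nonneg_of_nonpos (by positivity) hneg
        omega
      obtain ⟨n', hn'⟩ := Int.eq_ofNat_of_zero_le hpos.le
      have hn'pos : 0 < n' := by
        rw [hn'] at hpos
        exact_mod_cast hpos
      have hnn' : n = p ^ 2 * n' := by
        rw [hn'] at hfac
        exact_mod_cast hfac.symm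
      have hlt : n' < n := by
        rw [hnn']
        have h1 : 1 < p ^ 2 := Nat.one_lt_pow two_ne_zero hpp.one_lt
        nlinarith
      have hev := ih n' hlt hn'pos X' Y' hn'
      rw [hnn', padicValNat.mul (pow_ne_zero 2 hpp.ne_zero) hn'pos.ne',
        padicValNat.prime_pow]
      exact (even_two).add hev
    · rw [padicValNat.eq_zero_of_not_dvd hpn]
      exact Even.zero

/-- The prime of Ankeny's proof. -/
lemma exists_prime (j : ℕ) : ∃ q : ℕ, q.Prime ∧ q % 4 = 1 ∧ (8 * j + 3) ∣ 2 * q + 1 := by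
  have hcop : Nat.Coprime (4 * j + 1) (4 * (8 * j + 3)) := by
    refine Nat.Coprime.mul_right ?_ ?_
    · rw [Nat.coprime_comm, show 4 * j + 1 = 1 + 4 * j by ring,
        Nat.coprime_add_mul_left_right]
      exact Nat.coprime_one_right 4
    · rw [show 8 * j + 3 = 1 + (4 * j + 1) * 2 by ring, Nat.coprime_add_mul_left_right]
      exact Nat.coprime_one_right _
  have : NeZero (4 * (8 * j + 3)) := ⟨by omega⟩
  obtain ⟨q, -, hq, hqa⟩ := Nat.forall_exists_prime_gt_and_eq_mod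
    ((ZMod.isUnit_iff_coprime (4 * j + 1) (4 * (8 * j + 3))).mpr hcop) 0
  have hmod : q ≡ 4 * j + 1 [MOD 4 * (8 * j + 3)] := (ZMod.natCast_eq_natCast_iff _ _ _).mp hqa
  refine ⟨q, hq, ?_, ?_⟩
  · have h4 : q ≡ 4 * j + 1 [MOD 4] := hmod.of_mul_right _
    have : q % 4 = (4 * j + 1) % 4 := h4
    omega
  · have hm : q ≡ 4 * j + 1 [MOD 8 * j + 3] := hmod.of_mul_left _
    have h2 : 2 * q + 1 ≡ 2 * (4 * j + 1) + 1 [MOD 8 * j + 3] := (hm.mul_left 2).add_right 1
    rw [show 2 * (4 * j + 1) + 1 = 8 * j + 3 by ring] at h2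
    exact (Nat.modEq_zero_iff_dvd).mp (h2.trans (by simp [Nat.ModEq]))

lemma jac (j q : ℕ) (hq4 : q % 4 = 1) (hdv : (8 * j + 3) ∣ 2 * q + 1) :
    jacobiSym (-((8 * j + 3 : ℕ) : ℤ)) q = 1 := by
  have hmodd : Odd (8 * j + 3) := ⟨4 * j + 1, by ring⟩
  have hqodd : Odd q := Nat.odd_iff.mpr (by omega)
  have h1 : jacobiSym (2 * (q : ℤ)) (8 * j + 3) = jacobiSym (-1) (8 * j + 3) := by
    refine jacobiSym.mod_left' ?_
    have h2 : (((8 * j + 3 : ℕ) : ℤ)) ∣ (2 * (q : ℤ)) - (-1) := by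
      have := Int.natCast_dvd_natCast.mpr hdv
      simpa using this
    exact (Int.modEq_iff_dvd.mpr h2).symm
  have h2 : jacobiSym 2 (8 * j + 3) = -1 := by
    rw [jacobiSym.at_two hmodd, ZMod.χ₈_nat_eq_if_mod_eight]
    have e1 : (8 * j + 3) % 2 ≠ 0 := by omega
    have e2 : (8 * j + 3) % 8 = 3 := by omega
    rw [if_neg e1, e2]
    decide
  have h3 : jacobiSym (-1) (8 * j + 3) = -1 := by
    rw [jacobiSym.at_neg_one hmodd]
    exact ZMod.χ₄_nat_three_mod_four (by omega)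
  have h4 : jacobiSym (q : ℤ) (8 * j + 3) = 1 := by
    rw [jacobiSym.mul_left, h2, h3] at h1
    omega
  have h5 : jacobiSym ((8 * j + 3 : ℕ) : ℤ) q = 1 := by
    rw [← jacobiSym.quadratic_reciprocity_one_mod_four hq4 hmodd]
    exact h4
  have h6 : jacobiSym (-1) q = 1 := by
    rw [jacobiSym.at_neg_one hqodd]
    exact ZMod.χ₄_nat_one_mod_four hq4
  rw [neg_eq_neg_one_mul, jacobiSym.mul_left, h5, h6]
  norm_num

/-- The binary form of Ankeny's proof. -/
lemma exists_bh (j q : ℕ) (hq : q.Prime) (hq4 : q % 4 = 1) (hdv : (8 * j + 3) ∣ 2 * q + 1) :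
    ∃ b h : ℤ, b ^ 2 + ((8 * j + 3 : ℕ) : ℤ) = 4 * q * h := by
  have : Fact q.Prime := ⟨hq⟩
  have hJ := jac j q hq4 hdv
  rw [← jacobiSym.legendreSym.to_jacobiSym] at hJ
  have hsq : IsSquare ((-((8 * j + 3 : ℕ) : ℤ) : ℤ) : ZMod q) := by
    refine (legendreSym.eq_one_iff q ?_).mp hJ
    intro h0
    rw [(legendreSym.eq_zero_iff q _).mpr h0] at hJ
    norm_num at hJ
  obtain ⟨β, hβ⟩ := hsq
  have hb0 : (q : ℤ) ∣ ((β.val : ℤ)) ^ 2 + ((8 * j + 3 : ℕ) : ℤ) := by
    rw [← ZMod.intCast_zmod_eq_zero_iff_dvd]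
    push_cast at hβ ⊢
    rw [ZMod.natCast_zmod_val]
    linear_combination -hβ
  -- make it odd
  obtain ⟨b, hbodd, hbq⟩ : ∃ b : ℤ, b % 2 = 1 ∧ (q : ℤ) ∣ b ^ 2 + ((8 * j + 3 : ℕ) : ℤ) := by
    rcases Int.emod_two_eq_zero_or_one (β.val : ℤ) with h | h
    · refine ⟨(β.val : ℤ) + q, ?_, ?_⟩
      · omega
      · have : ((β.val : ℤ) + q) ^ 2 + ((8 * j + 3 : ℕ) : ℤ)
            = ((β.val : ℤ) ^ 2 + ((8 * j + 3 : ℕ) : ℤ)) + q * (2 * (β.val : ℤ) + q) := by ring
        rw [this]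
        exact dvd_add hb0 (dvd_mul_right _ _)
    · exact ⟨_, h, hb0⟩
  have h4 : (4 : ℤ) ∣ b ^ 2 + ((8 * j + 3 : ℕ) : ℤ) := by
    obtain ⟨k, hk⟩ : ∃ k, b = 2 * k + 1 := ⟨b / 2, by omega⟩
    rw [hk]
    push_cast
    exact ⟨k ^ 2 + k + 2 * j + 1, by ring⟩
  have hcop : IsCoprime (4 : ℤ) (q : ℤ) := by
    have : Nat.Coprime 4 q := by
      have : Nat.Coprime 2 q := (Nat.coprime_primes Nat.prime_two hq).mpr (by omega)
      exact Nat.Coprime.pow_left 2 this
    exact_mod_cast Nat.isCoprime_iff_coprime.mpr this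
  obtain ⟨h, hh⟩ := hcop.mul_dvd h4 hbq
  exact ⟨b, h, hh⟩

/-- Ankeny's use of Minkowski's theorem. -/
lemma exists_rep (j q : ℕ) (hq : q.Prime) (hdv : (8 * j + 3) ∣ 2 * q + 1) (b h : ℤ)
    (hbh : b ^ 2 + ((8 * j + 3 : ℕ) : ℤ) = 4 * q * h) :
    ∃ X Y R V : ℤ, ((8 * j + 3 : ℕ) : ℤ) = R ^ 2 + 2 * V ∧
      4 * q * V = X ^ 2 + ((8 * j + 3 : ℕ) : ℤ) * Y ^ 2 ∧
      ((8 * j + 3 : ℕ) : ℤ) ∣ R - X := by
  set m : ℕ := 8 * j + 3 with hm
  have hm0 : (0 : ℝ) < m := by exact_mod_cast (by omega : 0 < m)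
  have hq0 : (0 : ℝ) < q := by exact_mod_cast hq.pos
  set s : ℝ := Real.sqrt (2 * q) with hs
  set r : ℝ := Real.sqrt m with hr
  have hs2 : s ^ 2 = 2 * q := Real.sq_sqrt (by positivity)
  have hr2 : r ^ 2 = m := Real.sq_sqrt (by positivity)
  have hs0 : 0 < s := Real.sqrt_pos.mpr (by positivity)
  have hr0 : 0 < r := Real.sqrt_pos.mpr hm0
  let A : Matrix (Fin 3) (Fin 3) ℝ :=
    !![2 * q, s, 0; b, b / s, r / s; m, 0, 0]
  have hdet : A.det = r * m := by
    rw [Matrix.det_fin_three]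
    simp only [A, Matrix.of_apply, Matrix.cons_val', Matrix.cons_val_zero, Matrix.cons_val_one,
      Matrix.cons_val_two, Matrix.cons_val_fin_one]
    simp
    field_simp
  have hdet0 : A.det ≠ 0 := by
    rw [hdet]
    positivity
  have hB : |A.det| * 8 < Real.sqrt (2 * m) ^ 3 * (Real.pi * 4 / 3) := by
    rw [hdet, abs_of_pos (by positivity)]
    have h2m : Real.sqrt (2 * m) = Real.sqrt 2 * r := by
      rw [hr, ← Real.sqrt_mul (by norm_num)]
    rw [h2m]
    have hs2' : Real.sqrt 2 ^ 2 = 2 := Real.sq_sqrt (by norm_num)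
    have h14 : (1.4 : ℝ) < Real.sqrt 2 := Real.lt_sqrt_of_sq_lt (by norm_num)
    have hpi : (3 : ℝ) < Real.pi := Real.pi_gt_three
    have e1 : (Real.sqrt 2 * r) ^ 3 * (Real.pi * 4 / 3)
        = (r * m) * (8 / 3 * (Real.sqrt 2 * Real.pi)) := by
      rw [show (Real.sqrt 2 * r) ^ 3 = (Real.sqrt 2 ^ 2) * Real.sqrt 2 * (r ^ 2 * r) by ring,
        hs2', hr2]
      ring
    rw [e1]
    have h3 : (3 : ℝ) < Real.sqrt 2 * Real.pi := by nlinarith
    have h8 : (8 : ℝ) < 8 / 3 * (Real.sqrt 2 * Real.pi) := by linarith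
    exact mul_lt_mul_of_pos_left h8 (by positivity)
  obtain ⟨c, hc1, hc2⟩ := mink A hdet0 (2 * m) (by positivity) hB
  set X : ℤ := 2 * q * c 0 + b * c 1 with hX
  set V : ℤ := q * c 0 ^ 2 + b * c 0 * c 1 + h * c 1 ^ 2 with hV
  set R : ℤ := X + m * c 2 with hR
  have hbhR : (b : ℝ) ^ 2 + m = 4 * q * h := by exact_mod_cast hbh
  have hsum : ∑ i, (∑ k, (c k : ℝ) * A k i) ^ 2 = ((R ^ 2 + 2 * V : ℤ) : ℝ) := by
    have e00 : A 0 0 = 2 * q := rfl
    have e01 : A 0 1 = s := rfl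
    have e02 : A 0 2 = 0 := rfl
    have e10 : A 1 0 = b := rfl
    have e11 : A 1 1 = b / s := rfl
    have e12 : A 1 2 = r / s := rfl
    have e20 : A 2 0 = m := rfl
    have e21 : A 2 1 = 0 := rfl
    have e22 : A 2 2 = 0 := rfl
    rw [Fin.sum_univ_three, Fin.sum_univ_three, Fin.sum_univ_three, Fin.sum_univ_three,
      e00, e01, e02, e10, e11, e12, e20, e21, e22]
    rw [hR, hX, hV]
    push_cast
    have hst : s * s⁻¹ = 1 := mul_inv_cancel₀ hs0.ne'
    rw [div_eq_mul_inv, div_eq_mul_inv]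
    set t : ℝ := s⁻¹ with ht
    linear_combination ((c 0 : ℝ) ^ 2 - 2 * h * (c 1 : ℝ) ^ 2 * t ^ 2) * hs2
      + (2 * (c 0 : ℝ) * c 1 * b + 2 * h * (c 1 : ℝ) ^ 2 * (s * t + 1)) * hst
      + ((c 1 : ℝ) ^ 2 * t ^ 2) * hr2 + ((c 1 : ℝ) ^ 2 * t ^ 2) * hbhR
  rw [hsum] at hc1 hc2
  have h1 : 0 < R ^ 2 + 2 * V := by exact_mod_cast hc1
  have h2 : R ^ 2 + 2 * V < 2 * m := by exact_mod_cast hc2
  have h4qV : 4 * q * V = X ^ 2 + (m : ℤ) * c 1 ^ 2 := by
    rw [hX, hV]
    linear_combination (-(c 1) ^ 2) * hbh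
  obtain ⟨u, hu⟩ := hdv
  have hu' : (2 : ℤ) * q + 1 = m * u := by exact_mod_cast hu
  have h3 : (m : ℤ) ∣ R ^ 2 + 2 * V := by
    refine ⟨2 * u * V - c 1 ^ 2 + 2 * X * c 2 + m * c 2 ^ 2, ?_⟩
    rw [hR]
    linear_combination (2 * V) * hu' - h4qV
  refine ⟨X, c 1, R, V, ?_, h4qV, ?_⟩
  · obtain ⟨w, hw⟩ := h3
    have hm0' : (0 : ℤ) < m := by exact_mod_cast (by omega : 0 < m)
    have hw0 : 0 < w := by
      by_contra hneg
      push Not at hneg
      nlinarith
    have hw2 : w < 2 := by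
      by_contra hneg
      push Not at hneg
      nlinarith
    have : w = 1 := by omega
    rw [hw, this, mul_one]
  · rw [hR]
    exact ⟨c 2, by ring⟩


/-- A squarefree number `8 * j + 3` is a sum of three squares. -/
lemma squarefree_case (j : ℕ) (hsf : Squarefree (8 * j + 3)) :
    ∃ a b c : ℕ, 8 * j + 3 = a ^ 2 + b ^ 2 + c ^ 2 := by
  obtain ⟨q, hq, hq4, hdv⟩ := exists_prime j
  obtain ⟨b, h, hbh⟩ := exists_bh j q hq hq4 hdv
  obtain ⟨X, Y, R, V, h1, h2, h3⟩ := exists_rep j q hq hdv b h hbh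
  set m : ℕ := 8 * j + 3 with hm
  have hq0 : (0 : ℤ) < q := by exact_mod_cast hq.pos
  have hm0 : (0 : ℤ) < m := by exact_mod_cast (by omega : 0 < m)
  have hV0 : 0 ≤ V := by
    by_contra hneg
    push Not at hneg
    have : 0 ≤ X ^ 2 + (m : ℤ) * Y ^ 2 := by positivity
    nlinarith
  obtain ⟨v, rfl⟩ := Int.eq_ofNat_of_zero_le hV0
  have key : ∀ p ∈ (2 * v).primeFactors, p % 4 = 3 → Even (padicValNat p (2 * v)) := by
    intro p hp hp4
    have hpp : p.Prime := Nat.prime_of_mem_primeFactors hp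
    have hpd : p ∣ 2 * v := Nat.dvd_of_mem_primeFactors hp
    have hv0 : 0 < v := by
      have := (Nat.mem_primeFactors.mp hp).2.2
      omega
    have : Fact p.Prime := ⟨hpp⟩
    have hp2 : p ≠ 2 := by rintro rfl; omega
    have hpv : p ∣ v := by
      rcases (hpp.dvd_mul).mp hpd with h | h
      · exact absurd ((Nat.prime_dvd_prime_iff_eq hpp Nat.prime_two).mp h) hp2
      · exact h
    have hpvZ : (p : ℤ) ∣ (v : ℤ) := Int.natCast_dvd_natCast.mpr hpv
    have hpZ : Prime (p : ℤ) := Nat.prime_iff_prime_int.mp hpp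
    by_cases hpm : (p : ℤ) ∣ (m : ℤ)
    · exfalso
      -- `p` divides `R`, `X`
      have hR : (p : ℤ) ∣ R := by
        have : (p : ℤ) ∣ R ^ 2 := by
          have e : R ^ 2 = m - 2 * v := by linarith
          rw [e]
          exact dvd_sub hpm (hpvZ.mul_left 2)
        exact hpZ.dvd_of_dvd_pow this
      have hX : (p : ℤ) ∣ X := by
        have : (p : ℤ) ∣ X ^ 2 := by
          have e : X ^ 2 = 4 * q * v - m * Y ^ 2 := by linarith
          rw [e]
          exact dvd_sub (hpvZ.mul_left _) (hpm.mul_right _)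
        exact hpZ.dvd_of_dvd_pow this
      have hprod : (m : ℤ) * (2 * q - Y ^ 2) = 2 * q * R ^ 2 + X ^ 2 := by
        linear_combination (2 * (q : ℤ)) * h1 + h2
      obtain ⟨m', hm'⟩ := hpm
      have hpm' : ¬ (p : ℤ) ∣ m' := by
        intro hd
        have : (p : ℤ) * p ∣ (m : ℤ) := by
          rw [hm']
          exact mul_dvd_mul_left _ hd
        have h' : p * p ∣ m := by exact_mod_cast this
        have hu := hsf p h'
        exact hpp.one_lt.ne' (Nat.isUnit_iff.mp hu)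
      have hdvd : (p : ℤ) ∣ 2 * q - Y ^ 2 := by
        obtain ⟨R', hR'⟩ := hR
        obtain ⟨X', hX'⟩ := hX
        have hp0 : (p : ℤ) ≠ 0 := by exact_mod_cast hpp.ne_zero
        have e : m' * (2 * q - Y ^ 2) = p * (2 * q * R' ^ 2 + X' ^ 2) := by
          rw [hm', hR', hX'] at hprod
          have : (p : ℤ) * (m' * (2 * q - Y ^ 2)) = p * (p * (2 * q * R' ^ 2 + X' ^ 2)) := by
            linear_combination hprod
          exact mul_left_cancel₀ hp0 this
        rcases hpZ.dvd_or_dvd (Dvd.intro _ e.symm) with hd | hd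
        · exact absurd hd hpm'
        · exact hd
      have hq1 : (p : ℤ) ∣ 2 * q + 1 := by
        have : (m : ℤ) ∣ 2 * q + 1 := by exact_mod_cast hdv
        exact (Dvd.intro _ hm'.symm).trans this
      have hY : (p : ℤ) ∣ Y ^ 2 + 1 := by
        have e : Y ^ 2 + 1 = (2 * q + 1) - (2 * q - Y ^ 2) := by ring
        rw [e]
        exact dvd_sub hq1 hdvd
      have hY' : ((Y : ZMod p)) ^ 2 = -(1 : ZMod p) ^ 2 := by
        have := (ZMod.intCast_zmod_eq_zero_iff_dvd (Y ^ 2 + 1) p).mpr hY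
        push_cast at this
        linear_combination this
      exact ZMod.mod_four_ne_three_of_sq_eq_neg_sq' one_ne_zero hY' hp4
    · have hR : (p : ℤ) ∣ (m : ℤ) - R ^ 2 := by
        have e : (m : ℤ) - R ^ 2 = 2 * v := by linarith
        rw [e]
        exact hpvZ.mul_left 2
      have hpos : 0 < 4 * q * v := by
        have := hq.pos
        positivity
      have hev := even_val p hpp hp4 m R hR hpm (4 * q * v) hpos X Y
        (by push_cast; exact h2.symm)
      have h4 : padicValNat p (4 * q) = 0 := by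
        refine padicValNat.eq_zero_of_not_dvd ?_
        intro hd
        rcases (hpp.dvd_mul).mp hd with hd | hd
        · have : p ∣ 2 ^ 2 := by simpa using hd
          exact hp2 ((Nat.prime_dvd_prime_iff_eq hpp Nat.prime_two).mp (hpp.dvd_of_dvd_pow this))
        · have := (Nat.prime_dvd_prime_iff_eq hpp hq).mp hd
          omega
      rw [padicValNat.mul (by have := hq.pos; positivity) hv0.ne', h4, zero_add] at hev
      have h2' : padicValNat p 2 = 0 := by
        refine padicValNat.eq_zero_of_not_dvd ?_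
        intro hd
        exact hp2 ((Nat.prime_dvd_prime_iff_eq hpp Nat.prime_two).mp hd)
      rw [padicValNat.mul two_ne_zero hv0.ne', h2', zero_add]
      exact hev
  obtain ⟨x, y, hxy⟩ := Nat.eq_sq_add_sq_iff.mpr key
  refine ⟨R.natAbs, x, y, ?_⟩
  have : ((m : ℕ) : ℤ) = ((R.natAbs ^ 2 + x ^ 2 + y ^ 2 : ℕ) : ℤ) := by
    push_cast
    rw [sq_abs, h1]
    have : (2 : ℤ) * v = x ^ 2 + y ^ 2 := by exact_mod_cast hxy
    rw [this]
    ring
  exact_mod_cast this

/-- **Gauss**: every number `8 * m + 3` is a sum of three squares. -/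
theorem three_odd (m : ℕ) : ∃ a b c : ℕ, 8 * m + 3 = a ^ 2 + b ^ 2 + c ^ 2 := by
  obtain ⟨n', k, hk, hsf⟩ := Nat.sq_mul_squarefree (8 * m + 3)
  have hkodd : k % 2 = 1 := by
    by_contra hcon
    have h0 : k % 2 = 0 := by omega
    obtain ⟨l, rfl⟩ : ∃ l, k = 2 * l := ⟨k / 2, by omega⟩
    have : (2 * l) ^ 2 * n' = 2 * (2 * l ^ 2 * n') := by ring
    omega
  have hk8 : k ^ 2 % 8 = 1 := by
    obtain ⟨l, rfl⟩ : ∃ l, k = 2 * l + 1 := ⟨k / 2, by omega⟩
    obtain ⟨r, hr⟩ : ∃ r, l * (l + 1) = 2 * r := (Nat.even_mul_succ_self l).two_dvd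
    have : (2 * l + 1) ^ 2 = 8 * r + 1 := by
      have e : (2 * l + 1) ^ 2 = 4 * (l * (l + 1)) + 1 := by ring
      rw [e, hr]
      ring
    omega
  have hn8 : n' % 8 = 3 := by
    have h1 : (k ^ 2 * n') % 8 = 3 := by rw [hk]; omega
    rw [Nat.mul_mod, hk8, one_mul, Nat.mod_mod] at h1
    exact h1
  obtain ⟨j, rfl⟩ : ∃ j, n' = 8 * j + 3 := ⟨n' / 8, by omega⟩
  obtain ⟨a, b, c, habc⟩ := squarefree_case j hsf
  refine ⟨k * a, k * b, k * c, ?_⟩
  rw [← hk, habc]
  ring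

/-- The three squares are odd. -/
theorem three_odd' (m : ℕ) : ∃ a b c : ℕ, Odd a ∧ Odd b ∧ Odd c ∧
    8 * m + 3 = a ^ 2 + b ^ 2 + c ^ 2 := by
  obtain ⟨a, b, c, h⟩ := three_odd m
  have hsq : ∀ x : ℕ, (x % 2 = 1 ∧ x ^ 2 % 8 = 1) ∨ (x % 2 = 0 ∧ x ^ 2 % 4 = 0) := by
    intro x
    rcases Nat.mod_two_eq_zero_or_one x with hx | hx
    · right
      obtain ⟨l, rfl⟩ : ∃ l, x = 2 * l := ⟨x / 2, by omega⟩
      refine ⟨hx, ?_⟩
      rw [show (2 * l) ^ 2 = 4 * l ^ 2 by ring]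
      omega
    · left
      refine ⟨hx, ?_⟩
      obtain ⟨l, rfl⟩ : ∃ l, x = 2 * l + 1 := ⟨x / 2, by omega⟩
      obtain ⟨r, hr⟩ : ∃ r, l * (l + 1) = 2 * r := (Nat.even_mul_succ_self l).two_dvd
      have : (2 * l + 1) ^ 2 = 8 * r + 1 := by
        have e : (2 * l + 1) ^ 2 = 4 * (l * (l + 1)) + 1 := by ring
        rw [e, hr]
        ring
      omega
  refine ⟨a, b, c, ?_, ?_, ?_, h⟩ <;> rw [Nat.odd_iff] <;>
    rcases hsq a with ⟨ha, ha'⟩ | ⟨ha, ha'⟩ <;> rcases hsq b with ⟨hb, hb'⟩ | ⟨hb, hb'⟩ <;>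
    rcases hsq c with ⟨hc, hc'⟩ | ⟨hc, hc'⟩ <;> omega

end Pool.Agent.H98.TS
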