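import Pool.Agent.H98.WovenStmt

set_option autoImplicit false

/-!
Woven graphs: the reduction of wovenness to the existence of escape maps into amalgams.
-/

namespace Pool.Agent.H98.Woven

open SimpleGraph

/-- Escape maps: the pair `(θ, ι)` encodes an injective homomorphism from `G` into an amalgam
of copies of `G` over the kernel `K`, which avoids the edge `xy`. -/
structure Escape {V : Type} (G : SimpleGraph V) (x y : V) (K : Set V) where
  θ : V → V
  ι : V → ℕ
  adj : ∀ {v w : V}, G.Adj v w → G.Adj (θ v) (θ w)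
  inj : ∀ {v w : V}, θ v = θ w → ι v = ι w → v = w
  ker : ∀ {v w : V}, θ v = θ w → θ v ∈ K → v = w
  same : ∀ {v w : V}, G.Adj v w → θ v ∉ K → θ w ∉ K → ι v = ι w
  avoid : ∀ {v w : V}, G.Adj v w → θ v = x → θ w = y → False

/-- The amalgam of `n` copies of `G` over the kernel `K`. -/
def amalgam {V : Type} (G : SimpleGraph V) (K : Set V) (n : ℕ) [NeZero n] :
    SimpleGraph (V × Fin n) where
  Adj p q := G.Adj p.1 q.1 ∧ (p.1 ∈ K → p.2 = 0) ∧ (q.1 ∈ K → q.2 = 0) ∧
    (p.1 ∉ K → q.1 ∉ K → p.2 = q.2)
  symm := ⟨by
    rintro p q ⟨h1, h2, h3, h4⟩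
    exact ⟨h1.symm, h3, h2, fun a b => (h4 b a).symm⟩⟩
  loopless := ⟨by
    rintro p ⟨h, -⟩
    exact G.loopless.irrefl _ h⟩

/-- From an injective homomorphism we get a copy. -/
lemma isCopy_of_hom {V W : Type} {G : SimpleGraph V} {F : SimpleGraph W} (f : G →g F)
    (hf : Function.Injective f) : IsCopy G (Subgraph.map f (⊤ : G.Subgraph)) := by
  refine ⟨?_⟩
  exact (SimpleGraph.Copy.isoToSubgraph ⟨f, hf⟩)

open Classical in
/-- The representative of `(v, i)` in the amalgam. -/
noncomputable def rep {V : Type} (K : Set V) {n : ℕ} [NeZero n] (i : Fin n) (v : V) : V × Fin n :=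
  (v, if v ∈ K then 0 else i)

/-- The `i`-th standard copy. -/
noncomputable def petal {V : Type} (G : SimpleGraph V) (K : Set V) {n : ℕ} [NeZero n]
    (i : Fin n) : G →g amalgam G K n where
  toFun := rep K i
  map_rel' := by
    intro a b hab
    refine ⟨hab, ?_, ?_, ?_⟩
    · intro h; simp only [rep] at h ⊢; simp [h]
    · intro h; simp only [rep] at h ⊢; simp [h]
    · intro h1 h2; simp only [rep] at h1 h2 ⊢; simp [h1, h2]

lemma petal_inj {V : Type} (G : SimpleGraph V) (K : Set V) {n : ℕ} [NeZero n]
    (i : Fin n) : Function.Injective (petal G K i) := by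
  intro a b h
  exact congrArg Prod.fst h

/-- Main reduction: a woven graph has escape maps for all edges and all kernels. -/
theorem exists_escape {V : Type} [Finite V] {G : SimpleGraph V} {k : ℕ} (hw : KWoven k G)
    (hmin : ∀ v, ∃ w, G.Adj v w) {x y : V} (hxy : G.Adj x y) {K : Set V} (hx : x ∈ K)
    (hy : y ∈ K) (hK : ∀ z ∈ K, z ≠ x → z ≠ y → ¬ G.Adj x z ∧ ¬ G.Adj y z) :
    Nonempty (Escape G x y K) := by
  classical
  by_contra hno
  have : NeZero (2 * k + 1) := ⟨by omega⟩
  set n := 2 * k + 1 with hn
  set F := amalgam G K n with hF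
  have hne : x ≠ y := hxy.ne
  -- every copy contains the edge
  have hall : ∀ H : F.Subgraph, IsCopy G H → s((x, (0 : Fin n)), (y, (0 : Fin n))) ∈ H.edgeSet := by
    rintro H ⟨g⟩
    by_contra hnot
    apply hno
    have hadjH : ∀ {v w : V}, G.Adj v w → H.Adj (g v : V × Fin n) (g w : V × Fin n) := by
      intro v w h
      have := (g.map_rel_iff (a := v) (b := w)).2 h
      simpa using this
    have hadjF : ∀ {v w : V}, G.Adj v w → F.Adj (g v : V × Fin n) (g w : V × Fin n) :=
      fun h => (hadjH h).adj_sub
    have hker0 : ∀ v, (g v : V × Fin n).1 ∈ K → (g v : V × Fin n).2 = 0 := by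
      intro v hv
      obtain ⟨w, hvw⟩ := hmin v
      exact (hadjF hvw).2.1 hv
    have hinj : ∀ {v w : V}, (g v : V × Fin n) = (g w : V × Fin n) → v = w := by
      intro v w h
      exact g.injective (Subtype.ext h)
    refine ⟨{ θ := fun v => (g v : V × Fin n).1, ι := fun v => ((g v : V × Fin n).2 : ℕ),
              adj := ?_, inj := ?_, ker := ?_, same := ?_, avoid := ?_ }⟩
    · intro v w h; exact (hadjF h).1
    · intro v w h1 h2
      exact hinj (Prod.ext h1 (Fin.ext h2))
    · intro v w h1 h2
      refine hinj (Prod.ext h1 ?_)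
      have a := hker0 v h2
      have b := hker0 w (by rw [← h1]; exact h2)
      rw [a, b]
    · intro v w h h1 h2
      have := (hadjF h).2.2.2 h1 h2
      exact congrArg Fin.val this
    · intro v w h h1 h2
      apply hnot
      have a : (g v : V × Fin n) = (x, 0) := Prod.ext h1 (hker0 v (by rw [h1]; exact hx))
      have b : (g w : V × Fin n) = (y, 0) := Prod.ext h2 (hker0 w (by rw [h2]; exact hy))
      have := hadjH h
      rw [a, b] at this
      exact this
  have hFadj : F.Adj (x, (0 : Fin n)) (y, (0 : Fin n)) :=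
    ⟨hxy, fun _ => rfl, fun _ => rfl, fun _ _ => rfl⟩
  obtain ⟨Y, hYsub, hYinc, hYu, hYv, hYhit⟩ := hw (V × Fin n) F _ _ hFadj hall
  -- choose an edge for each petal
  have hpet : ∀ i : Fin n, ∃ e ∈ Y, ∃ a b : V, G.Adj a b ∧ e = s(rep K i a, rep K i b) := by
    intro i
    obtain ⟨e, heY, heH⟩ := hYhit _ (isCopy_of_hom (petal G K i) (petal_inj G K i))
    refine ⟨e, heY, ?_⟩
    induction e using Sym2.ind with
    | _ p q =>
      rw [Subgraph.mem_edgeSet] at heH
      simp only [Subgraph.map_adj, Relation.Map, Subgraph.top_adj] at heH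
      obtain ⟨a, b, hab, h1, h2⟩ := heH
      exact ⟨a, b, hab, by rw [← h1, ← h2]; rfl⟩
  -- each such edge has a vertex `(b, i)` with `b ∉ K`, the other end being in the kernel
  have hpet2 : ∀ i : Fin n, ∃ e ∈ Y, ∃ a b : V, a ∈ K ∧ b ∉ K ∧ e = s((a, (0 : Fin n)), (b, i)) := by
    intro i
    obtain ⟨e, heY, a, b, hab, he⟩ := hpet i
    refine ⟨e, heY, ?_⟩
    have hene : e ≠ s((x, (0 : Fin n)), (y, (0 : Fin n))) := fun h => (hYsub heY).2 h
    -- it suffices to treat an edge with `a ∈ {x, y}`
    have key : ∀ a b : V, G.Adj a b → e = s(rep K i a, rep K i b) → (a = x ∨ a = y) →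
        ∃ a b : V, a ∈ K ∧ b ∉ K ∧ e = s((a, (0 : Fin n)), (b, i)) := by
      intro a b hab he ha
      have haK : a ∈ K := by rcases ha with rfl | rfl <;> assumption
      have hbK : b ∉ K := by
        intro hbK
        have hra : rep K i a = (a, 0) := by simp [rep, haK]
        have hrb : rep K i b = (b, 0) := by simp [rep, hbK]
        rw [hra, hrb] at he
        by_cases hbx : b = x
        · subst hbx
          rcases ha with rfl | rfl
          · exact G.loopless.irrefl _ hab
          · exact hene (he.trans Sym2.eq_swap)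
        · by_cases hby : b = y
          · subst hby
            rcases ha with rfl | rfl
            · exact hene he
            · exact G.loopless.irrefl _ hab
          · have := hK b hbK hbx hby
            rcases ha with rfl | rfl
            · exact this.1 hab
            · exact this.2 hab
      refine ⟨a, b, haK, hbK, ?_⟩
      rw [he]
      simp [rep, haK, hbK]
    have hinc := hYinc e heY
    rw [he] at hinc
    have hcase : (a = x ∨ a = y) ∨ (b = x ∨ b = y) := by
      rcases hinc with h | h
      · rcases Sym2.mem_iff.1 h with h | h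
        · left; left; exact (congrArg Prod.fst h).symm
        · right; left; exact (congrArg Prod.fst h).symm
      · rcases Sym2.mem_iff.1 h with h | h
        · left; right; exact (congrArg Prod.fst h).symm
        · right; right; exact (congrArg Prod.fst h).symm
    rcases hcase with h | h
    · exact key a b hab he h
    · exact key b a hab.symm (he.trans Sym2.eq_swap) h
  choose f hfY fa fb hfa hfb hfe using hpet2
  have hfinj : Function.Injective f := by
    intro i j hij
    rw [hfe i, hfe j] at hij
    rcases Sym2.eq_iff.1 hij with ⟨_, h⟩ | ⟨h, _⟩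
    · exact congrArg Prod.snd h
    · exfalso
      have : fa i = fb j := congrArg Prod.fst h
      exact hfb j (this ▸ hfa i)
  have hYle : Y.ncard ≤ 2 * k := by
    have hsub : Y ⊆ {e ∈ Y | (x, (0 : Fin n)) ∈ e} ∪ {e ∈ Y | (y, (0 : Fin n)) ∈ e} := by
      intro e he
      rcases hYinc e he with h | h
      · exact Or.inl ⟨he, h⟩
      · exact Or.inr ⟨he, h⟩
    calc Y.ncard ≤ _ := Set.ncard_le_ncard hsub (Set.toFinite _)
      _ ≤ _ + _ := Set.ncard_union_le _ _
      _ ≤ k + k := Nat.add_le_add hYu hYv
      _ = 2 * k := by ring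
  have hge : n ≤ Y.ncard := by
    have h1 : (Set.range f).ncard = n := by
      rw [← Set.image_univ, Set.ncard_image_of_injective _ hfinj, Set.ncard_univ,
        Nat.card_eq_fintype_card, Fintype.card_fin]
    refine h1.symm.le.trans ?_
    exact Set.ncard_le_ncard (by rintro _ ⟨i, rfl⟩; exact hfY i) (Set.toFinite _)
  omega

end Pool.Agent.H98.Woven
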