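import Mathlib
import Pool.Agent.H98.WovenDefs

set_option autoImplicit false

/-!
Woven graphs, part 1: if both ends of an edge `xy` are non-cut vertices of a connected
graph, then there is no escape map for the kernel `{x, y}`.
-/

namespace Pool.Agent.H98.Woven

open SimpleGraph

variable {V : Type}

/-- local injectivity -/
lemma Escape.locInj {G : SimpleGraph V} {x y : V} {K : Set V} (E : Escape G x y K) {z v w : V}
    (hz : E.θ z ∉ K) (hv : G.Adj z v) (hw : G.Adj z w) (h : E.θ v = E.θ w) : v = w := by
  by_cases hvK : E.θ v ∈ K
  · exact E.ker h hvK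
  · have hwK : E.θ w ∉ K := h ▸ hvK
    exact E.inj h ((E.same hv hz hvK).symm.trans (E.same hw hz hwK))

lemma exists_idem_iterate [Finite V] (f : V → V) :
    ∃ N : ℕ, 1 ≤ N ∧ ∀ v, f^[N] (f^[N] v) = f^[N] v := by
  obtain ⟨a, b, hab, h⟩ := Finite.exists_ne_map_eq_of_infinite (fun n : ℕ => f^[n])
  wlog hlt : a < b generalizing a b
  · exact this b a hab.symm h.symm (by omega)
  replace h : f^[a] = f^[b] := h
  obtain ⟨d, rfl⟩ := Nat.exists_eq_add_of_lt hlt
  -- `f^[m + (d+1)] = f^[m]` for `m ≥ a`
  have h1 : ∀ m, a ≤ m → ∀ v, f^[m + (d + 1)] v = f^[m] v := by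
    intro m hm v
    obtain ⟨c, rfl⟩ := Nat.exists_eq_add_of_le hm
    have e1 : a + c + (d + 1) = c + (a + d + 1) := by ring
    have e2 : a + c = c + a := by ring
    rw [e1, Function.iterate_add_apply, ← h, e2, Function.iterate_add_apply]
  have h2 : ∀ k m, a ≤ m → ∀ v, f^[m + k * (d + 1)] v = f^[m] v := by
    intro k
    induction k with
    | zero => intro m _ v; simp
    | succ k ih =>
      intro m hm v
      have : m + (k + 1) * (d + 1) = (m + k * (d + 1)) + (d + 1) := by ring
      rw [this, h1 _ (by omega), ih m hm]
  refine ⟨(a + 1) * (d + 1), ?_, ?_⟩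
  · exact Nat.succ_le_of_lt (by positivity)
  · intro v
    rw [← Function.iterate_add_apply]
    refine h2 (a + 1) ((a + 1) * (d + 1)) ?_ v
    nlinarith

section main

variable {G : SimpleGraph V} {x y : V}

/-- H-walks. -/
def HW (G : SimpleGraph V) (H : Set V) (q : ℕ → V) (l : ℕ) : Prop :=
  2 ≤ l ∧ q 0 ∈ H ∧ q l ∈ H ∧ q 0 ≠ q l ∧ (∀ i, 0 < i → i < l → q i ∉ H) ∧
    ∀ i, i < l → G.Adj (q i) (q (i + 1))

lemma HW.rev {H : Set V} {q : ℕ → V} {l : ℕ} (h : HW G H q l) :
    HW G H (fun i => q (l - i)) l := by
  obtain ⟨h1, h2, h3, h4, h5, h6⟩ := h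
  refine ⟨h1, ?_, ?_, ?_, ?_, ?_⟩
  · simpa using h3
  · simpa using h2
  · simpa using h4.symm
  · intro i hi hil
    exact h5 _ (by omega) (by omega)
  · intro i hil
    have := h6 (l - (i + 1)) (by omega)
    have e : l - (i + 1) + 1 = l - i := by omega
    rw [e] at this
    exact this.symm

theorem no_escape_aux [Finite V] (E : Escape G x y {x, y}) (hxy : G.Adj x y) {N : ℕ}
    (hN1 : 1 ≤ N) (hN : ∀ v, E.θ^[N] (E.θ^[N] v) = E.θ^[N] v)
    (hyH : E.θ^[N] y = y) (hxH : E.θ^[N] x ≠ x)
    (hyc : ∀ w, w ≠ y → ∃ p : G.Walk x w, y ∉ p.support) : False := by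
  classical
  set θ := E.θ with hθ
  set H : Set V := {v | θ^[N] v = v} with hH
  have memH : ∀ v, v ∈ H ↔ θ^[N] v = v := fun v => Iff.rfl
  have hNH : ∀ v, θ^[N] v ∈ H := hN
  have hadj : ∀ {v w : V}, G.Adj v w → G.Adj (θ v) (θ w) := fun h => E.adj h
  have hadjN : ∀ (k : ℕ) {v w : V}, G.Adj v w → G.Adj (θ^[k] v) (θ^[k] w) := by
    intro k
    induction k with
    | zero => intro v w h; simpa using h
    | succ k ih =>
      intro v w h
      rw [Function.iterate_succ_apply', Function.iterate_succ_apply']
      exact hadj (ih h)
  have hθH : ∀ {v}, v ∈ H → θ v ∈ H := by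
    intro v hv
    rw [memH] at hv ⊢
    rw [← Function.iterate_succ_apply, Function.iterate_succ_apply', hv]
  have hinjH : ∀ {u v}, u ∈ H → v ∈ H → θ u = θ v → u = v := by
    intro u v hu hv h
    obtain ⟨M, rfl⟩ := Nat.exists_eq_add_of_le hN1
    have hu' : θ^[M] (θ u) = u := by
      rw [← Function.iterate_succ_apply]; rw [Nat.succ_eq_add_one, add_comm M 1]; exact hu
    have hv' : θ^[M] (θ v) = v := by
      rw [← Function.iterate_succ_apply]; rw [Nat.succ_eq_add_one, add_comm M 1]; exact hv
    rw [← hu', ← hv', h]
  have hxnot : x ∉ H := hxH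
  have hymem : y ∈ H := hyH
  have hxne : ∀ {z}, z ∈ H → θ z ≠ x := by
    intro z hz h
    exact hxnot (h ▸ hθH hz)
  -- outside vertices do not map to `y`
  have hyne : ∀ {z}, z ∉ H → θ z ≠ y := by
    intro z hz h
    apply hz
    -- the periodic preimage of y
    obtain ⟨M, rfl⟩ := Nat.exists_eq_add_of_le hN1
    have hb : θ (θ^[M] y) = y := by
      have e : θ^[M + 1] y = θ (θ^[M] y) := Function.iterate_succ_apply' θ M y
      rw [← e, add_comm M 1]; exact hyH
    have hbH : θ^[M] y ∈ H := by
      rw [memH, ← Function.iterate_add_apply, add_comm (1 + M) M, Function.iterate_add_apply, hyH]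
    have : z = θ^[M] y := E.ker (h.trans hb.symm) (by rw [← hθ, h]; simp)
    rw [this]; exact hbH
  have hK : ∀ {z}, θ z ≠ x → θ z ≠ y → θ z ∉ ({x, y} : Set V) := by
    intro z h1 h2 h
    rcases h with h | h
    · exact h1 h
    · exact h2 h
  -- C3
  have C3 : ∀ {z w}, z ∈ H → θ z ≠ y → G.Adj z w → w ∉ H → θ w ∉ H := by
    intro z w hz hzy hzw hw hθw
    have h1 : θ (θ^[N] w) = θ w := by
      have e1 : θ^[N + 1] w = θ (θ^[N] w) := Function.iterate_succ_apply' θ N w
      have e2 : θ^[N + 1] w = θ^[N] (θ w) := Function.iterate_succ_apply θ N w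
      rw [← e1, e2]
      exact hθw
    have h2 : G.Adj z (θ^[N] w) := by
      have := hadjN N hzw
      rwa [(memH z).1 hz] at this
    have h3 : θ^[N] w = w := E.locInj (hK (hxne hz) hzy) h2 hzw h1
    exact hw h3
  -- C5
  have C5 : ∀ z u1 u2, z ∉ H → u1 ∈ H → u2 ∈ H → u1 ≠ u2 → G.Adj z u1 → G.Adj z u2 → False := by
    intro z u1 u2 hz hu1 hu2 hne h1 h2
    have key : ∀ k, θ^[k] z ∉ H ∧ ∃ u1 u2, u1 ∈ H ∧ u2 ∈ H ∧ u1 ≠ u2 ∧
        G.Adj (θ^[k] z) u1 ∧ G.Adj (θ^[k] z) u2 := by
      intro k
      induction k with
      | zero => exact ⟨hz, u1, u2, hu1, hu2, hne, h1, h2⟩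
      | succ k ih =>
        obtain ⟨hk, v1, v2, hv1, hv2, hvne, hk1, hk2⟩ := ih
        rw [Function.iterate_succ_apply']
        refine ⟨?_, θ v1, θ v2, hθH hv1, hθH hv2, fun h => hvne (hinjH hv1 hv2 h),
          hadj hk1, hadj hk2⟩
        by_cases hy1 : θ v1 = y
        · have hy2 : θ v2 ≠ y := fun h => hvne (hinjH hv1 hv2 (hy1.trans h.symm))
          exact C3 hv2 hy2 hk2.symm hk
        · exact C3 hv1 hy1 hk1.symm hk
    exact (key N).1 (hNH z)
  -- no H-walks
  have noHW : ∀ q l, HW G H q l → False := by
    intro q0 l0 h0
    have hex : ∃ l, ∃ q, HW G H q l := ⟨l0, q0, h0⟩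
    obtain ⟨l, ⟨q, hq⟩, hmin⟩ : ∃ l, (∃ q, HW G H q l) ∧ ∀ l' q', HW G H q' l' → l ≤ l' :=
      ⟨Nat.find hex, Nat.find_spec hex, fun l' q' h => Nat.find_min' hex ⟨q', h⟩⟩
    -- half lemma
    have half : ∀ q, HW G H q l → θ (q 0) ≠ y →
        (∀ s, 0 < s → s < l → (∀ j, 0 < j → j < s → θ (q j) ≠ x) → θ (q s) ∉ H) ∧
        (∀ s, 0 < s → s < l → θ (q s) = x → s = l - 1) := by
      intro q hq hq0
      obtain ⟨hl, hq0H, hqlH, hne, hint, hadjq⟩ := hq
      have first : ∀ s, 0 < s → s < l → (∀ j, 0 < j → j < s → θ (q j) ≠ x) → θ (q s) ∉ H := by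
        intro s
        induction s using Nat.strong_induction_on with
        | _ s ih =>
          intro hs hsl hnox hmem
          -- all earlier are outside H
          have hear : ∀ j, 0 < j → j < s → θ (q j) ∉ H := by
            intro j hj hjs
            exact ih j hjs hj (by omega) (fun i hi hij => hnox i hi (by omega))
          have hs2 : 2 ≤ s := by
            by_contra hcon
            have : s = 1 := by omega
            subst this
            exact C3 hq0H hq0 (hadjq 0 (by omega)) (hint 1 (by omega) (by omega)) hmem
          have hjK : ∀ j, 0 < j → j < s → θ (q j) ∉ ({x, y} : Set V) := by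
            intro j hj hjs
            exact hK (hnox j hj hjs) (hyne (hint j hj (by omega)))
          have hdist : θ (q 0) ≠ θ (q s) := by
            intro heq
            have hqs : q 0 ≠ q s := by
              intro h
              exact hint s hs hsl (h ▸ hq0H)
            by_cases hKK : θ (q 0) ∈ ({x, y} : Set V)
            · exact hqs (E.ker heq hKK)
            · have hsK : θ (q s) ∉ ({x, y} : Set V) := heq ▸ hKK
              -- iota constant
              have hι : ∀ j, j ≤ s → E.ι (q j) = E.ι (q 0) := by
                intro j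
                induction j with
                | zero => intro _; rfl
                | succ j ihj =>
                  intro hj
                  rw [← ihj (by omega)]
                  refine (E.same (hadjq j (by omega)) ?_ ?_).symm
                  · rcases Nat.eq_zero_or_pos j with h | h
                    · subst h; exact hKK
                    · exact hjK j h (by omega)
                  · rcases Nat.lt_or_ge (j + 1) s with h | h
                    · exact hjK (j + 1) (by omega) h
                    · have : j + 1 = s := by omega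
                      rw [this]; exact hsK
              exact hqs (E.inj heq (hι s le_rfl).symm)
          have hw : HW G H (fun i => θ (q i)) s := by
            refine ⟨hs2, hθH hq0H, hmem, hdist, hear, ?_⟩
            intro i hi
            exact hadj (hadjq i (by omega))
          have := hmin s _ hw
          omega
      refine ⟨first, ?_⟩
      intro s hs hsl hsx
      -- take the first index mapping to x
      have hex2 : ∃ s, 0 < s ∧ θ (q s) = x := ⟨s, hs, hsx⟩
      obtain ⟨t, ⟨ht0, htx⟩, htmin⟩ : ∃ t, (0 < t ∧ θ (q t) = x) ∧
          ∀ t', 0 < t' → θ (q t') = x → t ≤ t' :=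
        ⟨Nat.find hex2, Nat.find_spec hex2, fun t' h1 h2 => Nat.find_min' hex2 ⟨h1, h2⟩⟩
      have hts : t ≤ s := htmin s hs hsx
      have houtt : ∀ j, 0 < j → j < t → θ (q j) ≠ x := by
        intro j hj hjt h
        have := htmin j hj h
        omega
      have hw : HW G H (fun i => if i ≤ t then θ (q i) else y) (t + 1) := by
        refine ⟨by omega, ?_, ?_, ?_, ?_, ?_⟩
        · simpa using hθH hq0H
        · simpa using hymem
        · simpa using hq0
        · intro i hi hit
          have : i ≤ t := by omega
          simp only [this, if_true]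
          rcases Nat.lt_or_ge i t with h | h
          · exact first i hi (by omega) (fun j hj hji => houtt j hj (by omega))
          · have : i = t := by omega
            subst this
            rw [htx]; exact hxnot
        · intro i hi
          rcases Nat.lt_or_ge i t with h | h
          · have h1 : i ≤ t := by omega
            have h2 : i + 1 ≤ t := by omega
            simp only [h1, h2, if_true]
            exact hadj (hadjq i (by omega))
          · have h1 : i = t := by omega
            subst h1
            simp only [le_refl, if_true]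
            have h2 : ¬ (i + 1 ≤ i) := by omega
            simp only [h2, if_false]
            rw [htx]; exact hxy
      have := hmin _ _ hw
      omega
    -- the step
    have step : ∀ q, HW G H q l → HW G H (fun i => θ (q i)) l := by
      intro q hq
      have hq' := hq
      obtain ⟨hl, hq0H, hqlH, hne, hint, hadjq⟩ := hq'
      have hqr := hq.rev
      have hnox : ∀ s, 0 < s → s < l → θ (q s) ≠ x := by
        intro s hs hsl hsx
        by_cases h0 : θ (q 0) = y
        · have hly : θ (q l) ≠ y := fun h => hne (hinjH hq0H hqlH (h0.trans h.symm))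
          have h2 := (half _ hqr (by simpa using hly)).2 (l - s) (by omega) (by omega)
            (by
              have : l - (l - s) = s := by omega
              simpa [this] using hsx)
          have hs1 : s = 1 := by omega
          subst hs1
          exact E.avoid (hadjq 0 (by omega)).symm hsx h0
        · have h1 := (half _ hq h0).2 s hs hsl hsx
          have hly : θ (q l) ≠ y := by
            intro h
            have hadj' := hadjq s hsl
            have : s + 1 = l := by omega
            rw [this] at hadj'
            exact E.avoid hadj' hsx h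
          have h2 := (half _ hqr (by simpa using hly)).2 (l - s) (by omega) (by omega)
            (by
              have : l - (l - s) = s := by omega
              simpa [this] using hsx)
          have hs1 : s = 1 := by omega
          have hl2 : l = 2 := by omega
          subst hs1
          subst hl2
          exact C5 (q 1) (q 0) (q 2) (hint 1 (by omega) (by omega)) hq0H hqlH hne
            (hadjq 0 (by omega)).symm (hadjq 1 (by omega))
      refine ⟨hl, hθH hq0H, hθH hqlH, fun h => hne (hinjH hq0H hqlH h), ?_, ?_⟩
      · intro i hi hil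
        by_cases h0 : θ (q 0) = y
        · have hly : θ (q l) ≠ y := fun h => hne (hinjH hq0H hqlH (h0.trans h.symm))
          have h2 := (half _ hqr (by simpa using hly)).1 (l - i) (by omega) (by omega)
            (by
              intro j hj hji
              exact hnox (l - j) (by omega) (by omega))
          have : l - (l - i) = i := by omega
          simpa [this] using h2
        · exact (half _ hq h0).1 i hi hil (fun j hj hji => hnox j hj (by omega))
      · intro i hi
        exact hadj (hadjq i hi)
    have hall : ∀ k, HW G H (fun i => θ^[k] (q i)) l := by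
      intro k
      induction k with
      | zero => simpa using hq
      | succ k ih =>
        have := step _ ih
        simpa only [Function.iterate_succ_apply'] using this
    have hfin := hall N
    exact hfin.2.2.2.2.1 1 (by omega) (by have := hfin.1; omega) (hNH (q 1))
  -- conclusion
  have hwx : θ^[N] x ∈ H := hNH x
  have hwy : θ^[N] x ≠ y := by
    have := hadjN N hxy
    rw [hyH] at this
    exact this.ne
  obtain ⟨p, hp⟩ := hyc _ hwy
  have hexj : ∃ j, p.getVert j ∈ H := ⟨p.length, by rw [p.getVert_length]; exact hwx⟩
  obtain ⟨j, hj, hjmin⟩ : ∃ j, p.getVert j ∈ H ∧ ∀ j', p.getVert j' ∈ H → j ≤ j' :=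
    ⟨Nat.find hexj, Nat.find_spec hexj, fun j' h => Nat.find_min' hexj h⟩
  have hjlen : j ≤ p.length := hjmin _ (by rw [p.getVert_length]; exact hwx)
  have hj1 : 1 ≤ j := by
    by_contra hcon
    have : j = 0 := by omega
    subst this
    rw [p.getVert_zero] at hj
    exact hxnot hj
  refine noHW (fun i => if i = 0 then y else p.getVert (i - 1)) (j + 1) ⟨by omega, ?_, ?_, ?_, ?_, ?_⟩
  · simpa using hymem
  · simpa using hj
  · simp only [if_true]
    have h1 : j + 1 ≠ 0 := by omega
    simp only [h1, if_false, Nat.add_sub_cancel]
    intro h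
    apply hp
    rw [h]
    exact p.getVert_mem_support j
  · intro i hi hij
    have h1 : i ≠ 0 := by omega
    simp only [h1, if_false]
    intro h
    have := hjmin _ h
    omega
  · intro i hi
    rcases Nat.eq_zero_or_pos i with h | h
    · subst h
      simp only [if_true]
      have : (0 + 1 : ℕ) ≠ 0 := by omega
      simp only [this, if_false]
      simpa using hxy.symm
    · have h1 : i ≠ 0 := by omega
      have h2 : i + 1 ≠ 0 := by omega
      simp only [h1, h2, if_false]
      have := p.adj_getVert_succ (i := i - 1) (by omega)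
      have e : i - 1 + 1 = i + 1 - 1 := by omega
      rw [e] at this
      exact this

/-- Swap the roles of `x` and `y`. -/
def Escape.swap (E : Escape G x y {x, y}) : Escape G y x {y, x} where
  θ := E.θ
  ι := E.ι
  adj := E.adj
  inj := E.inj
  ker := fun h1 h2 => E.ker h1 (by rwa [Set.pair_comm] at h2)
  same := fun h h1 h2 => E.same h (by rwa [Set.pair_comm] at h1) (by rwa [Set.pair_comm] at h2)
  avoid := fun h h1 h2 => E.avoid h.symm h2 h1

theorem no_escape [Finite V] (hconn : G.Preconnected) (hxy : G.Adj x y)
    (hxc : ∀ w, w ≠ x → ∃ p : G.Walk y w, x ∉ p.support)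
    (hyc : ∀ w, w ≠ y → ∃ p : G.Walk x w, y ∉ p.support) (E : Escape G x y {x, y}) : False := by
  classical
  obtain ⟨N, hN1, hN⟩ := exists_idem_iterate E.θ
  have hadjN : ∀ (k : ℕ) {v w : V}, G.Adj v w → G.Adj (E.θ^[k] v) (E.θ^[k] w) := by
    intro k
    induction k with
    | zero => intro v w h; simpa using h
    | succ k ih =>
      intro v w h
      rw [Function.iterate_succ_apply', Function.iterate_succ_apply']
      exact E.adj (ih h)
  by_cases hyH : E.θ^[N] y = y
  · by_cases hxH : E.θ^[N] x = x
    · obtain ⟨M, rfl⟩ := Nat.exists_eq_add_of_le hN1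
      rw [add_comm, Function.iterate_succ_apply'] at hyH hxH
      exact E.avoid (hadjN M hxy) hxH hyH
    · exact no_escape_aux E hxy hN1 hN hyH hxH hyc
  · by_cases hxH : E.θ^[N] x = x
    · exact no_escape_aux E.swap hxy.symm hN1 hN hxH hyH hxc
    · -- neither is periodic
      have hθH : ∀ {v}, E.θ^[N] v = v → E.θ^[N] (E.θ v) = E.θ v := by
        intro v hv
        rw [← Function.iterate_succ_apply, Function.iterate_succ_apply', hv]
      have hθHi : ∀ (i : ℕ) {v}, E.θ^[N] v = v → E.θ^[N] (E.θ^[i] v) = E.θ^[i] v := by
        intro i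
        induction i with
        | zero => intro v hv; simpa using hv
        | succ i ih =>
          intro v hv
          rw [Function.iterate_succ_apply']
          exact hθH (ih hv)
      have hK : ∀ {v}, E.θ^[N] v = v → E.θ v ∉ ({x, y} : Set V) := by
        intro v hv h
        have h2 := hθH hv
        rcases h with h | h
        · rw [h] at h2; exact hxH h2
        · have h' : E.θ v = y := h
          rw [h'] at h2; exact hyH h2
      have hclosed : ∀ z w, E.θ^[N] z = z → G.Adj z w → E.θ^[N] w = w := by
        intro z w hz hzw
        -- iterates are injective on the neighbourhood of z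
        have hinj : ∀ i : ℕ, Set.InjOn (E.θ^[i]) (G.neighborSet z) := by
          intro i
          induction i with
          | zero => intro a _ b _ h; simpa using h
          | succ i ih =>
            intro a ha b hb h
            rw [Function.iterate_succ_apply', Function.iterate_succ_apply'] at h
            exact ih ha hb (E.locInj (z := E.θ^[i] z) (hK (hθHi i hz)) (hadjN i ha) (hadjN i hb) h)
        have hmaps : Set.MapsTo (E.θ^[N]) (G.neighborSet z) (G.neighborSet z) := by
          intro a ha
          have := hadjN N ha
          rw [hz] at this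
          exact this
        have hsurj := (((Set.toFinite (G.neighborSet z)).injOn_iff_bijOn_of_mapsTo hmaps).1
        (hinj N)).surjOn
        obtain ⟨w', _, rfl⟩ := hsurj (show w ∈ G.neighborSet z from hzw)
        exact hN w'
      -- everything is periodic
      obtain ⟨p⟩ := hconn (E.θ^[N] x) x
      have : ∀ {a b : V} (p : G.Walk a b), E.θ^[N] a = a → E.θ^[N] b = b := by
        intro a b p
        induction p with
        | nil => exact id
        | cons h p ih => exact fun ha => ih (hclosed _ _ ha h)
      exact hxH (this p (hN x))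

end main

end Pool.Agent.H98.Woven
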