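import Mathlib
import Pool.Agent.H98.WovenCyc

set_option autoImplicit false

/-!
Woven graphs, part 3: branches in trees.
-/

namespace Pool.Agent.H98.Woven

open SimpleGraph

variable {V : Type} {G : SimpleGraph V}

/-- The branch at `u` towards `v`. -/
def Br (G : SimpleGraph V) (u v : V) : Set V := {w | (G.deleteEdges {s(u, v)}).Reachable v w}

/-- `S` is connected from `v0`. -/
def Conn (G : SimpleGraph V) (S : Set V) (v0 : V) : Prop :=
  ∀ p ∈ S, Relation.ReflTransGen (fun a b => G.Adj a b ∧ b ∈ S) v0 p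

lemma Conn.induct {S : Set V} {v0 : V} (h : Conn G S v0) (hv0 : v0 ∈ S) {P : V → Prop}
    (h0 : P v0) (hstep : ∀ a b, a ∈ S → b ∈ S → G.Adj a b → P a → P b) : ∀ p ∈ S, P p := by
  intro p hp
  have key : p ∈ S ∧ P p := by
    have := h p hp
    induction this with
    | refl => exact ⟨hv0, h0⟩
    | tail hab hbc ih =>
      have hb := ih (by
        rcases hab.cases_tail with h' | ⟨c, _, hc⟩
        · rw [h']; exact hv0
        · exact hc.2)
      exact ⟨hbc.2, hstep _ _ hb.1 hbc.2 hbc.1 hb.2⟩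
  exact key.2

lemma mem_Br_self (u v : V) : v ∈ Br G u v := Reachable.refl _

lemma not_mem_Br (hac : G.IsAcyclic) {u v : V} (h : G.Adj u v) : u ∉ Br G u v := by
  intro hu
  have := isAcyclic_iff_forall_adj_isBridge.1 hac h
  rw [isBridge_iff] at this
  exact this (Reachable.symm hu)

lemma cross_Br (hac : G.IsAcyclic) {u v p q : V} (h : G.Adj u v) (hp : p ∈ Br G u v)
    (hpq : G.Adj p q) (hq : q ∉ Br G u v) : p = v ∧ q = u := by
  by_cases he : s(p, q) = s(u, v)
  · rcases Sym2.eq_iff.1 he with ⟨h1, h2⟩ | ⟨h1, h2⟩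
    · exact absurd (h1 ▸ hp) (not_mem_Br hac h)
    · exact ⟨h1, h2⟩
  · exfalso
    apply hq
    have : (G.deleteEdges {s(u, v)}).Adj p q := by
      rw [deleteEdges_adj]
      exact ⟨hpq, by simpa using he⟩
    exact Reachable.trans hp this.reachable

lemma conn_Br (u v : V) : Conn G (Br G u v) v := by
  intro p hp
  have hp' : (G.deleteEdges {s(u, v)}).Reachable v p := hp
  rw [reachable_iff_reflTransGen] at hp'
  induction hp' with
  | refl => exact Relation.ReflTransGen.refl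
  | tail hab hbc ih =>
    have hb := (reachable_iff_reflTransGen _ _).2 hab
    refine Relation.ReflTransGen.tail (ih hb) ⟨?_, hp⟩
    rw [deleteEdges_adj] at hbc
    exact hbc.1

lemma Br_or (hac : G.IsAcyclic) (hconn : G.Preconnected) {u v : V} (h : G.Adj u v) (p : V) :
    p ∈ Br G u v ∨ p ∈ Br G v u := by
  obtain ⟨w⟩ := hconn v p
  have key : ∀ {a b : V} (w : G.Walk a b), (a ∈ Br G u v ∨ a ∈ Br G v u) →
      (b ∈ Br G u v ∨ b ∈ Br G v u) := by
    intro a b w
    induction w with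
    | nil => exact id
    | cons hadj w ih =>
      rename_i a' b' c'
      intro ha
      apply ih
      by_contra hcon
      push Not at hcon
      rcases ha with ha | ha
      · have := cross_Br hac h ha hadj hcon.1
        exact hcon.2 (this.2 ▸ mem_Br_self _ _)
      · have := cross_Br hac h.symm ha hadj hcon.2
        exact hcon.1 (this.2 ▸ mem_Br_self _ _)
  exact key w (Or.inl (mem_Br_self _ _))

lemma Br_disj (hac : G.IsAcyclic) {u v : V} (h : G.Adj u v) {p : V}
    (h1 : p ∈ Br G u v) (h2 : p ∈ Br G v u) : False := by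
  have hb := isAcyclic_iff_forall_adj_isBridge.1 hac h
  rw [isBridge_iff] at hb
  have h2' : (G.deleteEdges {s(u, v)}).Reachable u p := by
    have : (G.deleteEdges {s(v, u)}).Reachable u p := h2
    rwa [Sym2.eq_swap] at this
  exact hb (h2'.trans (Reachable.symm h1))

/-- nested branches -/
lemma Br_sub (hac : G.IsAcyclic) {u v w : V} (huv : G.Adj u v) (hvw : G.Adj v w) (hne : w ≠ u) :
    Br G v w ⊆ Br G u v := by
  refine (conn_Br v w).induct (mem_Br_self _ _) ?_ ?_
  · by_contra hcon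
    exact hne (cross_Br hac huv (mem_Br_self u v) hvw hcon).2
  · intro a b ha hb hab hPa
    by_contra hcon
    have := cross_Br hac huv hPa hab hcon
    exact not_mem_Br hac hvw (this.1 ▸ ha)

lemma Br_unique (hac : G.IsAcyclic) {v w w' p : V} (hw : G.Adj v w) (hw' : G.Adj v w')
    (h : p ∈ Br G v w) (h' : p ∈ Br G v w') : w = w' := by
  by_contra hne
  exact Br_disj hac hw' h' (Br_sub hac hw'.symm hw hne h)

/-- The union of `v` with the branches at `v` towards `A`. -/
def Un (G : SimpleGraph V) (v : V) (A : Set V) : Set V :=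
  {p | p = v ∨ ∃ w ∈ A, G.Adj v w ∧ p ∈ Br G v w}

lemma mem_Un_self (v : V) (A : Set V) : v ∈ Un G v A := Or.inl rfl

lemma conn_Un (v : V) (A : Set V) : Conn G (Un G v A) v := by
  intro p hp
  rcases hp with h | ⟨w, hwA, hvw, hp⟩
  · rw [h]
  · have hsub : Br G v w ⊆ Un G v A := fun q hq => Or.inr ⟨w, hwA, hvw, hq⟩
    have h1 : Relation.ReflTransGen (fun a b => G.Adj a b ∧ b ∈ Un G v A) w p := by
      refine Relation.ReflTransGen.mono ?_ _ _ (conn_Br v w p hp)
      intro a b hab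
      exact ⟨hab.1, hsub hab.2⟩
    exact Relation.ReflTransGen.head ⟨hvw, hsub (mem_Br_self _ _)⟩ h1

lemma cross_Un (hac : G.IsAcyclic) {v p q : V} {A : Set V} (hp : p ∈ Un G v A)
    (hpq : G.Adj p q) (hq : q ∉ Un G v A) : p = v ∧ q ∉ A := by
  rcases hp with h | ⟨w, hwA, hvw, hp⟩
  · refine ⟨h, fun hqA => hq ?_⟩
    rw [h] at hpq
    exact Or.inr ⟨q, hqA, hpq, mem_Br_self _ _⟩
  · exfalso
    have hq' : q ∉ Br G v w := fun h' => hq (Or.inr ⟨w, hwA, hvw, h'⟩)
    have := cross_Br hac hvw hp hpq hq'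
    exact hq (Or.inl this.2)

/-- every vertex other than `v` lies in a branch at `v` -/
lemma exists_Br (hac : G.IsAcyclic) (hconn : G.Preconnected) {v p : V} (h : p ≠ v) :
    ∃ w, G.Adj v w ∧ p ∈ Br G v w := by
  have key : ∀ {a b : V} (w : G.Walk a b), a ∈ Un G v Set.univ → b ∈ Un G v Set.univ := by
    intro a b w
    induction w with
    | nil => exact id
    | cons hadj w ih =>
      intro ha
      apply ih
      by_contra hcon
      exact (cross_Un hac ha hadj hcon).2 (Set.mem_univ _)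
  obtain ⟨w⟩ := hconn v p
  rcases key w (mem_Un_self _ _) with h' | ⟨w, _, h1, h2⟩
  · exact absurd h' h
  · exact ⟨w, h1, h2⟩

lemma Br_eq_Un (hac : G.IsAcyclic) (hconn : G.Preconnected) {u v : V} (h : G.Adj u v) :
    Br G u v = Un G v {u}ᶜ := by
  ext p
  constructor
  · intro hp
    by_cases hpv : p = v
    · exact Or.inl hpv
    · obtain ⟨w, hvw, hw⟩ := exists_Br hac hconn hpv
      refine Or.inr ⟨w, ?_, hvw, hw⟩
      intro hwu
      have hwu' : w = u := hwu
      subst hwu'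
      exact Br_disj hac h hp hw
  · rintro (rfl | ⟨w, hw, hvw, hp⟩)
    · exact mem_Br_self _ _
    · exact Br_sub hac h hvw hw hp

/-- if `S` is connected from a point of a branch at `c` and avoids `c`, it lies in the branch. -/
lemma Conn.subset_Br (hac : G.IsAcyclic) {S : Set V} {v0 c y : V} (hS : Conn G S v0)
    (hv0S : v0 ∈ S) (hcy : G.Adj c y) (hv0 : v0 ∈ Br G c y) (hc : c ∉ S) : S ⊆ Br G c y := by
  refine hS.induct hv0S hv0 ?_
  intro a b ha hb hab hPa
  by_contra hcon
  exact hc ((cross_Br hac hcy hPa hab hcon).2 ▸ hb)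

/-- A point of the branch `Br c y` other than `y` is not adjacent to anything outside. -/
lemma not_adj_of_mem_Br (hac : G.IsAcyclic) {c y p q : V} (hcy : G.Adj c y) (hp : p ∈ Br G c y)
    (hpy : p ≠ y) (hq : q ∉ Br G c y) : ¬ G.Adj p q :=
  fun h => hpy (cross_Br hac hcy hp h hq).1

lemma adj_mem_Br (hac : G.IsAcyclic) {c y p q : V} (hcy : G.Adj c y) (hp : p ∈ Br G c y)
    (hpq : G.Adj p q) (hqc : q ≠ c) : q ∈ Br G c y := by
  by_contra h
  exact hqc (cross_Br hac hcy hp hpq h).2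

/-! ### sizes -/

lemma ncard_Br_pos [Finite V] (u v : V) : 1 ≤ (Br G u v).ncard :=
  (Set.ncard_pos (Set.toFinite _)).2 ⟨v, mem_Br_self u v⟩

/-- `Br c y` is the disjoint union of `Un y {c, v}ᶜ` and `Br y v`. -/
lemma ncard_Un_add [Finite V] (hac : G.IsAcyclic) (hconn : G.Preconnected) {c y v : V}
    (hcy : G.Adj c y) (hyv : G.Adj y v) (hvc : v ≠ c) :
    (Un G y {c, v}ᶜ).ncard + (Br G y v).ncard = (Br G c y).ncard := by
  rw [← Set.ncard_union_eq ?_ (Set.toFinite _) (Set.toFinite _)]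
  · congr 1
    ext p
    constructor
    · rintro (h | h)
      · rw [Br_eq_Un hac hconn hcy]
        rcases h with h | ⟨w, hw, h1, h2⟩
        · exact Or.inl h
        · exact Or.inr ⟨w, fun h' => hw (Or.inl h'), h1, h2⟩
      · exact Br_sub hac hcy hyv hvc h
    · intro hp
      rw [Br_eq_Un hac hconn hcy] at hp
      rcases hp with h | ⟨w, hw, h1, h2⟩
      · exact Or.inl (Or.inl h)
      · by_cases hwv : w = v
        · subst hwv; exact Or.inr h2
        · refine Or.inl (Or.inr ⟨w, ?_, h1, h2⟩)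
          rintro (h' | h')
          · exact hw h'
          · exact hwv h'
  · rw [Set.disjoint_left]
    rintro p (h | ⟨w, hw, h1, h2⟩) hp
    · exact not_mem_Br hac hyv (h ▸ hp)
    · exact hw (Or.inr (Br_unique hac h1 hyv h2 hp))

/-- The region lemma. -/
lemma Escape.region [Finite V] {x y : V} {K : Set V} (E : Escape G x y K) {S Ω : Set V} {v0 : V}
    (hS : Conn G S v0) (hv0 : v0 ∈ S) (hΩ : ∀ p ∈ Ω, p ∉ K) (h0 : E.θ v0 ∈ Ω)
    (hstep : ∀ p q, p ∈ S → q ∈ S → G.Adj p q → E.θ p ∈ Ω → E.ι p = E.ι v0 → E.θ q ∈ Ω) :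
    (∀ p ∈ S, E.θ p ∈ Ω ∧ E.ι p = E.ι v0) ∧ S.ncard ≤ Ω.ncard := by
  have key : ∀ p ∈ S, E.θ p ∈ Ω ∧ E.ι p = E.ι v0 := by
    refine hS.induct hv0 ⟨h0, rfl⟩ ?_
    rintro a b ha hb hab ⟨h1, h2⟩
    have h3 := hstep a b ha hb hab h1 h2
    exact ⟨h3, (E.same hab (hΩ _ h1) (hΩ _ h3)).symm.trans h2⟩
  refine ⟨key, Set.ncard_le_ncard_of_injOn E.θ (fun p hp => (key p hp).1) ?_ (Set.toFinite _)⟩
  intro p hp q hq h
  exact E.inj h ((key p hp).2.trans (key q hq).2.symm)

lemma conn_univ (hconn : G.Preconnected) (v0 : V) : Conn G Set.univ v0 := by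
  intro p _
  have := (reachable_iff_reflTransGen v0 p).1 (hconn v0 p)
  refine Relation.ReflTransGen.mono ?_ _ _ this
  intro a b h
  exact ⟨h, Set.mem_univ _⟩

/-- The `y`-side is impossible. -/
lemma Escape.side [Finite V] (hac : G.IsAcyclic) (hconn : G.Preconnected) {u v : V} {K : Set V}
    (E : Escape G u v K) {b : ℕ} (hcent : ∀ z, ∃ w, G.Adj z w ∧ b ≤ (Br G z w).ncard)
    (huv : G.Adj u v) (hvK : v ∈ K) (hKB : ∀ p ∈ Br G u v, p ∈ K → p = v)
    (hle : (Br G u v).ncard ≤ b) : ∀ p, E.θ p ∉ Br G u v := by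
  intro p0 hp0
  have hall : ∀ p ∈ (Set.univ : Set V), E.θ p ∈ Br G u v := by
    refine (conn_univ hconn p0).induct (Set.mem_univ _) hp0 ?_
    intro a b _ _ hab ha
    by_contra hcon
    have := cross_Br hac huv ha (E.adj hab) hcon
    exact E.avoid hab.symm this.2 this.1
  have hall' : ∀ p, E.θ p ∈ Br G u v := fun p => hall p (Set.mem_univ _)
  by_cases hz : ∃ z0, E.θ z0 = v
  · obtain ⟨z0, hz0⟩ := hz
    obtain ⟨w, hzw, hw⟩ := hcent z0
    have hadj : G.Adj v (E.θ w) := by
      have := E.adj hzw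
      rwa [hz0] at this
    have hne : E.θ w ≠ u := by
      intro h
      have h' := hall' w
      rw [h] at h'
      exact not_mem_Br hac huv h'
    have hsub : Br G v (E.θ w) ⊆ Br G u v \ {v} := by
      intro p hp
      exact ⟨Br_sub hac huv hadj hne hp, fun h => not_mem_Br hac hadj (h ▸ hp)⟩
    have hreg := (E.region (conn_Br z0 w) (mem_Br_self _ _) (Ω := Br G v (E.θ w))
      (fun p hp hK => (hsub hp).2 (hKB p (hsub hp).1 hK)) (mem_Br_self _ _) (by
        intro p q hp hq hpq hθp _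
        by_contra hcon
        have h1 := (cross_Br hac hadj hθp (E.adj hpq) hcon).2
        have h2 : q = z0 := E.ker (h1.trans hz0.symm) (by rw [h1]; exact hvK)
        rw [h2] at hq
        exact not_mem_Br hac hzw hq)).2
    have h1 : (Br G v (E.θ w)).ncard ≤ (Br G u v \ {v}).ncard :=
      Set.ncard_le_ncard hsub (Set.toFinite _)
    have h2 : (Br G u v \ {v}).ncard < (Br G u v).ncard :=
      Set.ncard_sdiff_singleton_lt_of_mem (mem_Br_self _ _) (Set.toFinite _)
    omega
  · push Not at hz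
    have hreg := (E.region (conn_univ hconn p0) (Set.mem_univ _) (Ω := Br G u v \ {v})
      (fun p hp hK => hp.2 (hKB p hp.1 hK)) ⟨hall' p0, hz p0⟩ (by
        intro p q _ _ _ _ _
        exact ⟨hall' q, hz q⟩)).2
    have h2 : (Br G u v \ {v}).ncard < (Br G u v).ncard :=
      Set.ncard_sdiff_singleton_lt_of_mem (mem_Br_self _ _) (Set.toFinite _)
    have h3 : (Br G u v).ncard ≤ (Set.univ : Set V).ncard :=
      Set.ncard_le_ncard (Set.subset_univ _) (Set.toFinite _)
    omega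

/-- existence of a centroid -/
lemma exists_centroid [Finite V] [Nonempty V] (hmin : ∀ v, ∃ w, G.Adj v w) :
    ∃ (c : V) (b : ℕ), (∀ v, G.Adj c v → (Br G c v).ncard ≤ b) ∧
      (∃ y, G.Adj c y ∧ (Br G c y).ncard = b) ∧
      (∀ z, ∃ w, G.Adj z w ∧ b ≤ (Br G z w).ncard) ∧ 1 ≤ b := by
  classical
  have hex : ∃ n, ∃ c, ∀ v, G.Adj c v → (Br G c v).ncard ≤ n := by
    obtain ⟨c⟩ := ‹Nonempty V›
    exact ⟨(Set.univ : Set V).ncard, c, fun v _ =>
      Set.ncard_le_ncard (Set.subset_univ _) (Set.toFinite _)⟩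
  obtain ⟨b, ⟨c, hc⟩, hbmin⟩ : ∃ b, (∃ c, ∀ v, G.Adj c v → (Br G c v).ncard ≤ b) ∧
      ∀ n c, (∀ v, G.Adj c v → (Br G c v).ncard ≤ n) → b ≤ n :=
    ⟨Nat.find hex, Nat.find_spec hex, fun n c h => Nat.find_min' hex ⟨c, h⟩⟩
  have hb1 : 1 ≤ b := by
    obtain ⟨v, hv⟩ := hmin c
    exact (ncard_Br_pos c v).trans (hc v hv)
  have hcent : ∀ z, ∃ w, G.Adj z w ∧ b ≤ (Br G z w).ncard := by
    intro z
    by_contra hcon
    push Not at hcon
    have := hbmin (b - 1) z (fun v hv => by have := hcon v hv; omega)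
    omega
  obtain ⟨y, hy, hyb⟩ := hcent c
  exact ⟨c, b, hc, ⟨y, hy, le_antisymm (hc y hy) hyb⟩, hcent, hb1⟩

end Pool.Agent.H98.Woven
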