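import Mathlib
import Pool.Agent.H98.WovenCyc

set_option autoImplicit false

/-!
Woven graphs, part 2: a connected graph containing a cycle is not woven.
-/

namespace Pool.Agent.H98.Woven

open SimpleGraph

section noncut

variable {U : Type} {C : SimpleGraph U}

lemma walk_avoid (hconn : C.Preconnected) {r v w : U} (hwv : w ≠ v)
    (hd : C.dist r w ≤ C.dist r v) : ∃ p : C.Walk r w, v ∉ p.support := by
  classical
  obtain ⟨p, hp⟩ := (hconn r w).exists_walk_length_eq_dist
  refine ⟨p, fun hv => hwv ?_⟩
  have h1 : (p.takeUntil v hv).length + (p.dropUntil v hv).length = p.length := by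
    rw [← Walk.length_append, p.take_spec hv]
  have h2 : C.dist r v ≤ (p.takeUntil v hv).length := dist_le _
  have h3 : (p.dropUntil v hv).length = 0 := by omega
  exact (Walk.eq_of_length_eq_zero h3).symm

lemma exists_noncut_edge [Finite U] (hconn : C.Preconnected) (r : U)
    (h2 : ∀ w, ∃ a b, a ≠ b ∧ C.Adj w a ∧ C.Adj w b) :
    ∃ x y, C.Adj x y ∧ (∀ w, w ≠ x → ∃ p : C.Walk y w, x ∉ p.support) ∧
      (∀ w, w ≠ y → ∃ p : C.Walk x w, y ∉ p.support) := by
  classical
  have : Nonempty U := ⟨r⟩
  obtain ⟨x0, hx0⟩ := Finite.exists_max (fun v => C.dist r v)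
  -- combine two walks from the root
  have comb : ∀ {a b v : U}, (∃ p : C.Walk r a, v ∉ p.support) →
      (∃ p : C.Walk r b, v ∉ p.support) → ∃ p : C.Walk a b, v ∉ p.support := by
    rintro a b v ⟨p, hp⟩ ⟨q, hq⟩
    refine ⟨p.reverse.append q, ?_⟩
    rw [Walk.mem_support_append_iff, Walk.support_reverse, List.mem_reverse]
    tauto
  have hmaxcase : ∀ {x : U}, C.dist r x = C.dist r x0 → ∀ w, w ≠ x →
      ∃ p : C.Walk r w, x ∉ p.support := by
    intro x hx w hw
    exact walk_avoid hconn hw (by rw [hx]; exact hx0 w)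
  by_cases hA : ∃ x y, C.Adj x y ∧ C.dist r x = C.dist r x0 ∧ C.dist r y = C.dist r x0
  · obtain ⟨x, y, hxy, hx, hy⟩ := hA
    refine ⟨x, y, hxy, ?_, ?_⟩
    · intro w hw
      exact comb (hmaxcase hx y hxy.ne.symm) (hmaxcase hx w hw)
    · intro w hw
      exact comb (hmaxcase hy x hxy.ne) (hmaxcase hy w hw)
  · push Not at hA
    obtain ⟨y, _, _, hxy, _⟩ := h2 x0
    have hlev : ∀ {a b : U}, C.Adj a b → C.dist r a = C.dist r x0 →
        C.dist r b + 1 = C.dist r x0 := by
      intro a b hab ha
      have h1 := hA a b hab ha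
      have h2 := hab.diff_dist_adj (u := r)
      have h3 : C.dist r b ≤ C.dist r x0 := hx0 b
      have h4 := hab.symm.diff_dist_adj (u := r)
      omega
    have hy := hlev hxy rfl
    have hcase : ∀ w, w ≠ y → ∃ p : C.Walk r w, y ∉ p.support := by
      intro w hw
      by_cases hwd : C.dist r w ≤ C.dist r y
      · exact walk_avoid hconn hw hwd
      · have hwD : C.dist r w = C.dist r x0 := by
          have : C.dist r w ≤ C.dist r x0 := hx0 w
          omega
        obtain ⟨a, b, hab, hwa, hwb⟩ := h2 w
        have key : ∀ a, a ≠ y → C.Adj w a → ∃ p : C.Walk r w, y ∉ p.support := by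
          intro a hay hwa
          have ha := hlev hwa hwD
          obtain ⟨p, hp⟩ := walk_avoid hconn hay (show C.dist r a ≤ C.dist r y by omega)
          refine ⟨p.concat hwa.symm, ?_⟩
          rw [Walk.support_concat]
          simp only [List.mem_append, List.mem_singleton]
          rintro (h | h)
          · exact hp h
          · exact hw h.symm
        by_cases ha : a = y
        · exact key b (fun h => hab (ha.trans h.symm)) hwb
        · exact key a ha hwa
    refine ⟨x0, y, hxy, ?_, ?_⟩
    · intro w hw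
      exact comb (hmaxcase rfl y hxy.ne.symm) (hmaxcase rfl w hw)
    · intro w hw
      exact comb (hcase x0 hxy.ne) (hcase w hw)

end noncut

section core

variable {V : Type} {G : SimpleGraph V}

/-- Every vertex of `S` has two distinct neighbours in `S`. -/
def Good (G : SimpleGraph V) (S : Set V) : Prop :=
  ∀ w ∈ S, ∃ a ∈ S, ∃ b ∈ S, a ≠ b ∧ G.Adj w a ∧ G.Adj w b

/-- The 2-core. -/
def core (G : SimpleGraph V) : Set V := ⋃₀ {S | Good G S}

lemma good_core : Good G (core G) := by
  rintro w ⟨S, hS, hw⟩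
  obtain ⟨a, ha, b, hb, hab, h1, h2⟩ := hS w hw
  exact ⟨a, ⟨S, hS, ha⟩, b, ⟨S, hS, hb⟩, hab, h1, h2⟩

lemma subset_core {S : Set V} (hS : Good G S) : S ⊆ core G := fun _ hw => ⟨S, hS, hw⟩

lemma core_path {u v : V} (hu : u ∈ core G) (hv : v ∈ core G) (p : G.Walk u v) (hp : p.IsPath) :
    ∀ w ∈ p.support, w ∈ core G := by
  have hgood : Good G (core G ∪ {w | w ∈ p.support}) := by
    intro w hw
    by_cases hwc : w ∈ core G
    · obtain ⟨a, ha, b, hb, h⟩ := good_core w hwc
      exact ⟨a, Or.inl ha, b, Or.inl hb, h⟩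
    · have hws : w ∈ p.support := by
        rcases hw with h | h
        · exact absurd h hwc
        · exact h
      obtain ⟨i, hi, hil⟩ := (Walk.mem_support_iff_exists_getVert).1 hws
      have hi0 : i ≠ 0 := by
        rintro rfl
        rw [p.getVert_zero] at hi
        exact hwc (hi ▸ hu)
      have hil' : i ≠ p.length := by
        rintro rfl
        rw [p.getVert_length] at hi
        exact hwc (hi ▸ hv)
      have hilt : i < p.length := by omega
      refine ⟨p.getVert (i - 1), Or.inr (p.getVert_mem_support _), p.getVert (i + 1),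
        Or.inr (p.getVert_mem_support _), ?_, ?_, ?_⟩
      · intro h
        have := hp.getVert_injOn (show i - 1 ≤ p.length by omega)
          (show i + 1 ≤ p.length by omega) h
        omega
      · have := p.adj_getVert_succ (i := i - 1) (by omega)
        have e : i - 1 + 1 = i := by omega
        rw [e, hi] at this
        exact this.symm
      · have := p.adj_getVert_succ (i := i) hilt
        rw [hi] at this
        exact this
  intro w hw
  exact subset_core hgood (Or.inr hw)

lemma core_nonempty (h : ¬ G.IsAcyclic) : (core G).Nonempty := by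
  simp only [IsAcyclic, not_forall, not_not] at h
  obtain ⟨v, c, hc⟩ := h
  have hgood : Good G {w | w ∈ c.support} := by
    intro w hw
    have h2 := hc.ncard_neighborSet_toSubgraph_eq_two hw
    obtain ⟨a, b, hab, hset⟩ := Set.ncard_eq_two.1 h2
    have ha : c.toSubgraph.Adj w a := by
      have : a ∈ c.toSubgraph.neighborSet w := by rw [hset]; simp
      exact this
    have hb : c.toSubgraph.Adj w b := by
      have : b ∈ c.toSubgraph.neighborSet w := by rw [hset]; simp
      exact this
    refine ⟨a, ?_, b, ?_, hab, ha.adj_sub, hb.adj_sub⟩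
    · exact (Walk.mem_verts_toSubgraph c).1 (c.toSubgraph.edge_vert ha.symm)
    · exact (Walk.mem_verts_toSubgraph c).1 (c.toSubgraph.edge_vert hb.symm)
  exact ⟨v, subset_core hgood (show v ∈ c.support from c.start_mem_support)⟩

lemma core_preconnected (hconn : G.Preconnected) : (G.induce (core G)).Preconnected := by
  classical
  rintro ⟨u, hu⟩ ⟨v, hv⟩
  obtain ⟨p, hp⟩ := (hconn u v).exists_isPath
  exact ⟨p.induce (core G) (core_path hu hv p hp)⟩

lemma Escape.maps_core {x y : V} (E : Escape G x y {x, y}) (hx : x ∈ core G) (hy : y ∈ core G) :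
    ∀ v ∈ core G, E.θ v ∈ core G := by
  have hgood : Good G (core G ∪ E.θ '' core G) := by
    intro w hw
    by_cases hwc : w ∈ core G
    · obtain ⟨a, ha, b, hb, h⟩ := good_core w hwc
      exact ⟨a, Or.inl ha, b, Or.inl hb, h⟩
    · obtain ⟨z, hz, rfl⟩ : w ∈ E.θ '' core G := by
        rcases hw with h | h
        · exact absurd h hwc
        · exact h
      obtain ⟨a, ha, b, hb, hab, h1, h2⟩ := good_core z hz
      have hzK : E.θ z ∉ ({x, y} : Set V) := by
        rintro (h | h)
        · apply hwc; rw [h]; exact hx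
        · have h' : E.θ z = y := h
          apply hwc; rw [h']; exact hy
      exact ⟨E.θ a, Or.inr ⟨a, ha, rfl⟩, E.θ b, Or.inr ⟨b, hb, rfl⟩,
        fun h => hab (E.locInj hzK h1 h2 h), E.adj h1, E.adj h2⟩
  intro v hv
  exact subset_core hgood (Or.inr ⟨v, hv, rfl⟩)

/-- Restriction of an escape map to the core. -/
def Escape.restrict {x y : V} (E : Escape G x y {x, y}) (hx : x ∈ core G) (hy : y ∈ core G) :
    Escape (G.induce (core G)) ⟨x, hx⟩ ⟨y, hy⟩ {⟨x, hx⟩, ⟨y, hy⟩} where
  θ := fun v => ⟨E.θ v, E.maps_core hx hy v v.2⟩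
  ι := fun v => E.ι v
  adj := fun h => E.adj h
  inj := fun h1 h2 => Subtype.ext (E.inj (congrArg Subtype.val h1) h2)
  ker := fun {v w} h1 h2 => by
    refine Subtype.ext (E.ker (congrArg Subtype.val h1) ?_)
    rcases h2 with h | h
    · left; exact congrArg Subtype.val h
    · right; exact congrArg Subtype.val h
  same := fun {v w} h h1 h2 => by
    refine E.same h ?_ ?_
    · rintro (h' | h')
      · exact h1 (Or.inl (Subtype.ext h'))
      · exact h1 (Or.inr (Subtype.ext h'))
    · rintro (h' | h')
      · exact h2 (Or.inl (Subtype.ext h'))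
      · exact h2 (Or.inr (Subtype.ext h'))
  avoid := fun {v w} h h1 h2 =>
    E.avoid h (congrArg Subtype.val h1) (congrArg Subtype.val h2)

theorem acyclic_of_woven [Finite V] (hconn : G.Preconnected) (hmin : ∀ v, ∃ w, G.Adj v w) {k : ℕ}
    (hw : KWoven k G) : G.IsAcyclic := by
  by_contra hac
  obtain ⟨r, hr⟩ := core_nonempty hac
  have h2 : ∀ w : core G, ∃ a b, a ≠ b ∧ (G.induce (core G)).Adj w a ∧
      (G.induce (core G)).Adj w b := by
    rintro ⟨w, hw⟩
    obtain ⟨a, ha, b, hb, hab, h1, h2⟩ := good_core w hw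
    exact ⟨⟨a, ha⟩, ⟨b, hb⟩, fun h => hab (congrArg Subtype.val h), h1, h2⟩
  obtain ⟨⟨x, hx⟩, ⟨y, hy⟩, hxy, hxc, hyc⟩ :=
    exists_noncut_edge (core_preconnected hconn) ⟨r, hr⟩ h2
  have hxy' : G.Adj x y := hxy
  obtain ⟨E⟩ := exists_escape hw hmin hxy' (K := {x, y}) (by simp) (by simp) (by
    intro z hz hzx hzy
    rcases hz with h | h
    · exact absurd h hzx
    · exact absurd h hzy)
  exact no_escape (core_preconnected hconn) hxy hxc hyc (E.restrict hx hy)

end core

end Pool.Agent.H98.Woven
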