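import Mathlib
import Pool.Agent.H98.WovenBr

set_option autoImplicit false

/-!
Woven graphs, part 4: escape maps in trees.
-/

namespace Pool.Agent.H98.Woven

open SimpleGraph

variable {V : Type} {G : SimpleGraph V}

lemma ncard_Br_lt [Finite V] (hac : G.IsAcyclic) {c y0 w u : V} {b : ℕ} (hcy0 : G.Adj c y0)
    (hb : (Br G c y0).ncard ≤ b) (hw : w ∈ Br G c y0) (hwu : G.Adj w u) (hc : c ∉ Br G w u) :
    Br G w u ⊆ Br G c y0 ∧ (Br G w u).ncard < b := by
  have hu : u ∈ Br G c y0 := by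
    refine adj_mem_Br hac hcy0 hw hwu ?_
    rintro rfl
    exact hc (mem_Br_self _ _)
  have hsub : Br G w u ⊆ Br G c y0 :=
    (conn_Br w u).subset_Br hac (mem_Br_self _ _) hcy0 hu hc
  refine ⟨hsub, ?_⟩
  have h1 : Br G w u ⊆ Br G c y0 \ {w} := by
    intro p hp
    refine ⟨hsub hp, ?_⟩
    rintro h
    have : p = w := h
    rw [this] at hp
    exact not_mem_Br hac hwu hp
  have h2 : (Br G w u).ncard ≤ (Br G c y0 \ {w}).ncard := Set.ncard_le_ncard h1 (Set.toFinite _)
  have h3 := Set.ncard_sdiff_singleton_lt_of_mem hw (Set.toFinite (Br G c y0))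
  omega

/-- A single largest branch at the centroid is impossible. -/
lemma Escape.t1 [Finite V] (hac : G.IsAcyclic) (hconn : G.Preconnected) {c y1 : V} {b : ℕ}
    (E : Escape G c y1 {c, y1}) (hcent : ∀ z, ∃ w, G.Adj z w ∧ b ≤ (Br G z w).ncard)
    (hcy1 : G.Adj c y1) (h1 : (Br G c y1).ncard = b)
    (hlt : ∀ y, G.Adj c y → y ≠ y1 → (Br G c y).ncard < b) : False := by
  have hside : ∀ p, E.θ p ∉ Br G c y1 := by
    refine E.side hac hconn hcent hcy1 (by simp) ?_ h1.le
    intro p hp hK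
    rcases hK with h | h
    · exact absurd (h ▸ hp) (not_mem_Br hac hcy1)
    · exact h
  by_cases hz : ∃ z0, E.θ z0 = c
  · obtain ⟨z0, hz0⟩ := hz
    obtain ⟨w, hzw, hw⟩ := hcent z0
    have hadj : G.Adj c (E.θ w) := by
      have := E.adj hzw
      rwa [hz0] at this
    have hne : E.θ w ≠ y1 := by
      intro h
      exact hside w (by rw [h]; exact mem_Br_self _ _)
    have hreg := (E.region (conn_Br z0 w) (mem_Br_self _ _) (Ω := Br G c (E.θ w))
      (by
        rintro p hp (h | h)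
        · exact not_mem_Br hac hadj (h ▸ hp)
        · have h' : p = y1 := h
          rw [h'] at hp
          exact hne (Br_unique hac hadj hcy1 hp (mem_Br_self _ _))) (mem_Br_self _ _) (by
        intro p q hp hq hpq hθp _
        by_contra hcon
        have h1 := (cross_Br hac hadj hθp (E.adj hpq) hcon).2
        have h2 : q = z0 := E.ker (h1.trans hz0.symm) (by rw [h1]; simp)
        rw [h2] at hq
        exact not_mem_Br hac hzw hq)).2
    have := hlt _ hadj hne
    omega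
  · push Not at hz
    have hreg := (E.region (conn_univ hconn c) (Set.mem_univ _) (Ω := {p | p ∉ Br G c y1 ∧ p ≠ c})
      (by
        rintro p ⟨h1, h2⟩ (h | h)
        · exact h2 h
        · have h' : p = y1 := h
          exact h1 (h' ▸ mem_Br_self _ _)) ⟨hside c, hz c⟩ (by
        intro p q _ _ _ _ _
        exact ⟨hside q, hz q⟩)).2
    have h3 : ({p | p ∉ Br G c y1 ∧ p ≠ c} : Set V).ncard ≤ ((Set.univ : Set V) \ {c}).ncard :=
      Set.ncard_le_ncard (fun p hp => ⟨Set.mem_univ _, hp.2⟩) (Set.toFinite _)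
    have h4 := Set.ncard_sdiff_singleton_lt_of_mem (Set.mem_univ c) (Set.toFinite _)
    omega

/-- The main analysis for the kernel `{c, y1} ∪ {κ y}`. -/
theorem Escape.F2 [Finite V] (hac : G.IsAcyclic) (hconn : G.Preconnected) {c y1 y2 : V} {b : ℕ}
    {K : Set V} {κ : V → V} (E : Escape G c y1 K)
    (hcent : ∀ z, ∃ w, G.Adj z w ∧ b ≤ (Br G z w).ncard)
    (hle : ∀ y, G.Adj c y → (Br G c y).ncard ≤ b)
    (hcy1 : G.Adj c y1) (h1 : (Br G c y1).ncard = b)
    (hcy2 : G.Adj c y2) (h2 : (Br G c y2).ncard = b) (h12 : y1 ≠ y2)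
    (hκ : ∀ y, G.Adj c y → (Br G c y).ncard = b → y ≠ y1 → κ y ∈ Br G c y ∧ κ y ≠ y)
    (hK : ∀ p, p ∈ K ↔ p = c ∨ p = y1 ∨
      ∃ y, G.Adj c y ∧ (Br G c y).ncard = b ∧ y ≠ y1 ∧ p = κ y) :
    (∀ y, G.Adj c y → (Br G c y).ncard = b → y = y1 ∨ y = y2) ∧ (∀ p, E.θ p ∉ Br G c y1) ∧
    E.θ c ∉ K ∧
    ((c ∈ Br G (E.θ c) (E.θ y1) ∧ κ y2 ∈ Br G (E.θ c) (E.θ y2)) ∨
      (c ∈ Br G (E.θ c) (E.θ y2) ∧ κ y2 ∈ Br G (E.θ c) (E.θ y1))) := by
  classical
  have hcK : c ∈ K := (hK c).2 (Or.inl rfl)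
  have hy1K : y1 ∈ K := (hK y1).2 (Or.inr (Or.inl rfl))
  have hκK : ∀ y, G.Adj c y → (Br G c y).ncard = b → y ≠ y1 → κ y ∈ K :=
    fun y h h' h'' => (hK _).2 (Or.inr (Or.inr ⟨y, h, h', h'', rfl⟩))
  -- the K-elements of a branch
  have hKBr : ∀ y, G.Adj c y → ∀ p ∈ Br G c y, p ∈ K → (y = y1 ∧ p = y1) ∨
      (y ≠ y1 ∧ (Br G c y).ncard = b ∧ p = κ y) := by
    intro y hy p hp hpK
    rcases (hK p).1 hpK with h | h | ⟨y', hy', hb', hne', h⟩
    · exact absurd (h ▸ hp) (not_mem_Br hac hy)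
    · left
      rw [h] at hp
      exact ⟨Br_unique hac hy hcy1 hp (mem_Br_self _ _), h⟩
    · have := (hκ y' hy' hb' hne').1
      rw [← h] at this
      have e : y = y' := Br_unique hac hy hy' hp this
      subst e
      exact Or.inr ⟨hne', hb', h⟩
  have hside : ∀ p, E.θ p ∉ Br G c y1 := by
    refine E.side hac hconn hcent hcy1 hy1K ?_ h1.le
    intro p hp hpK
    rcases hKBr y1 hcy1 p hp hpK with h | h
    · exact h.2
    · exact absurd rfl h.1
  set w := E.θ c with hw
  have hadjw : ∀ {y}, G.Adj c y → G.Adj w (E.θ y) := fun h => E.adj h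
  set T0 : Set V := {y | G.Adj c y ∧ (Br G c y).ncard = b} with hT0
  have hy1T : y1 ∈ T0 := ⟨hcy1, h1⟩
  have hy2T : y2 ∈ T0 := ⟨hcy2, h2⟩
  have hTadj : ∀ {y}, y ∈ T0 → G.Adj c y := fun h => h.1
  -- case w = c
  have hwc : w ≠ c := by
    intro hwc
    have hcl : ∀ y ∈ T0, E.θ y ∈ T0 \ {y1} ∧ ∃ p ∈ Br G c y, E.θ p = κ (E.θ y) := by
      intro y hy
      have hadj : G.Adj c (E.θ y) := by
        have := hadjw hy.1
        rwa [hwc] at this
      have hne : E.θ y ≠ y1 := by
        intro h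
        exact hside y (by rw [h]; exact mem_Br_self _ _)
      have hstep : ∀ p q, q ∈ Br G c y → G.Adj p q → E.θ p ∈ Br G c (E.θ y) →
          E.θ q ∈ Br G c (E.θ y) := by
        intro p q hq hpq hθp
        by_contra hcon
        have e1 := (cross_Br hac hadj hθp (E.adj hpq) hcon).2
        have e2 : q = c := E.ker (e1.trans (hwc.symm.trans hw)) (by rw [e1]; exact hcK)
        rw [e2] at hq
        exact not_mem_Br hac hy.1 hq
      by_cases hb : (Br G c (E.θ y)).ncard = b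
      · refine ⟨⟨⟨hadj, hb⟩, hne⟩, ?_⟩
        by_contra hcon
        push Not at hcon
        have hκ' := hκ _ hadj hb hne
        have hreg := (E.region (conn_Br c y) (mem_Br_self _ _)
          (Ω := Br G c (E.θ y) \ {κ (E.θ y)})
          (by
            rintro p ⟨hp1, hp2⟩ hpK
            rcases hKBr _ hadj p hp1 hpK with h | h
            · exact hne h.1
            · exact hp2 h.2.2) ⟨mem_Br_self _ _, fun h => hκ'.2 h.symm⟩ (by
            intro p q _ hq hpq hθp _
            exact ⟨hstep p q hq hpq hθp.1, hcon q hq⟩)).2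
        have h4 := Set.ncard_sdiff_singleton_lt_of_mem hκ'.1 (Set.toFinite _)
        have := hy.2
        omega
      · exfalso
        have hreg := (E.region (conn_Br c y) (mem_Br_self _ _) (Ω := Br G c (E.θ y))
          (by
            intro p hp hpK
            rcases hKBr _ hadj p hp hpK with h | h
            · exact hne h.1
            · exact hb h.2.1) (mem_Br_self _ _) (by
            intro p q _ hq hpq hθp _
            exact hstep p q hq hpq hθp)).2
        have h3 := hle _ hadj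
        have := hy.2
        omega
    have hinj : Set.InjOn E.θ T0 := by
      intro y hy y' hy' heq
      obtain ⟨p, hp, hpκ⟩ := (hcl y hy).2
      obtain ⟨p', hp', hpκ'⟩ := (hcl y' hy').2
      have hmem := (hcl y hy).1
      have hKK : κ (E.θ y) ∈ K := hκK _ hmem.1.1 hmem.1.2 hmem.2
      have e : p = p' := E.ker (by rw [hpκ, hpκ', heq]) (by rw [hpκ]; exact hKK)
      rw [← e] at hp'
      exact Br_unique hac hy.1 hy'.1 hp hp'
    have h3 := Set.ncard_le_ncard_of_injOn E.θ (fun y hy => (hcl y hy).1) hinj (Set.toFinite _)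
    have h4 := Set.ncard_sdiff_singleton_lt_of_mem hy1T (Set.toFinite _)
    omega
  -- case w = κ y'
  have hwκ : ∀ y', G.Adj c y' → (Br G c y').ncard = b → y' ≠ y1 → w ≠ κ y' := by
    intro y' hy' hb' hne' hwκ
    have hκ' := hκ y' hy' hb' hne'
    have hcl : ∀ y ∈ T0, ∃ p ∈ Br G c y, E.θ p = c := by
      intro y hy
      by_contra hcon
      push Not at hcon
      have hadj : G.Adj (κ y') (E.θ y) := by
        have := hadjw hy.1
        rwa [hwκ] at this
      have hmem : E.θ y ∈ Br G c y' := by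
        refine adj_mem_Br hac hy' hκ'.1 hadj ?_
        intro h
        exact hcon y (mem_Br_self _ _) h
      have hreg := (E.region (conn_Br c y) (mem_Br_self _ _) (Ω := Br G c y' \ {κ y'})
        (by
          rintro p ⟨hp1, hp2⟩ hpK
          rcases hKBr _ hy' p hp1 hpK with h | h
          · exact hne' h.1
          · exact hp2 h.2.2) ⟨hmem, fun h => G.loopless.irrefl _ (h ▸ hadj)⟩ (by
          intro p q _ hq hpq hθp _
          refine ⟨adj_mem_Br hac hy' hθp.1 (E.adj hpq) (hcon q hq), ?_⟩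
          intro h
          have h' : E.θ q = κ y' := h
          have e : q = c := E.ker (h'.trans (hwκ.symm.trans hw)) (by
            rw [h']; exact hκK _ hy' hb' hne')
          rw [e] at hq
          exact not_mem_Br hac hy.1 hq)).2
      have h4 := Set.ncard_sdiff_singleton_lt_of_mem hκ'.1 (Set.toFinite _)
      have := hy.2
      omega
    obtain ⟨p1, hp1, e1⟩ := hcl y1 hy1T
    obtain ⟨p2, hp2, e2⟩ := hcl y2 hy2T
    have e : p1 = p2 := E.ker (e1.trans e2.symm) (by rw [e1]; exact hcK)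
    rw [← e] at hp2
    exact h12 (Br_unique hac hcy1 hcy2 hp1 hp2)
  have hwy1 : w ≠ y1 := by
    intro h
    exact hside c (by rw [← hw, h]; exact mem_Br_self _ _)
  have hwK : w ∉ K := by
    intro h
    rcases (hK w).1 h with h | h | ⟨y, ha, hb, hc, hd⟩
    · exact hwc h
    · exact hwy1 h
    · exact hwκ y ha hb hc hd
  obtain ⟨y0, hcy0, hwy0⟩ := exists_Br hac hconn hwc
  have hy0 : y0 ≠ y1 := by
    rintro rfl
    exact hside c hwy0
  have hD : ∀ y ∈ T0, c ∈ Br G w (E.θ y) ∨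
      ((Br G c y0).ncard = b ∧ κ y0 ∈ Br G w (E.θ y)) := by
    intro y hy
    by_contra hcon
    push Not at hcon
    obtain ⟨hc1, hc2⟩ := hcon
    have hlt := ncard_Br_lt hac hcy0 (hle _ hcy0) hwy0 (hadjw hy.1) hc1
    have hΩK : ∀ p ∈ Br G w (E.θ y), p ∉ K := by
      intro p hp hpK
      rcases hKBr y0 hcy0 p (hlt.1 hp) hpK with h | h
      · exact hy0 h.1
      · exact hc2 h.2.1 (h.2.2 ▸ hp)
    have hι : E.ι c = E.ι y := E.same hy.1 hwK (hΩK _ (mem_Br_self _ _))
    have hreg := (E.region (conn_Br c y) (mem_Br_self _ _) (Ω := Br G w (E.θ y)) hΩK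
      (mem_Br_self _ _) (by
        intro p q _ hq hpq hθp hιp
        by_contra hcon
        have e1 := (cross_Br hac (hadjw hy.1) hθp (E.adj hpq) hcon).2
        have e2 : E.ι p = E.ι q := E.same hpq (hΩK _ hθp) (by rw [e1]; exact hwK)
        have e3 : q = c := E.inj (e1.trans hw) (by rw [← e2, hιp, hι])
        rw [e3] at hq
        exact not_mem_Br hac hy.1 hq)).2
    have := hy.2
    omega
  have hinj : ∀ {y y'}, G.Adj c y → G.Adj c y' → E.θ y = E.θ y' → y = y' :=
    fun ha hb h => E.locInj hwK ha hb h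
  have hcc : ∀ {y y'}, y ∈ T0 → y' ∈ T0 → c ∈ Br G w (E.θ y) → c ∈ Br G w (E.θ y') → y = y' :=
    fun hy hy' ha hb => hinj hy.1 hy'.1 (Br_unique hac (hadjw hy.1) (hadjw hy'.1) ha hb)
  have hkk : ∀ {y y'}, y ∈ T0 → y' ∈ T0 → κ y0 ∈ Br G w (E.θ y) → κ y0 ∈ Br G w (E.θ y') →
      y = y' :=
    fun hy hy' ha hb => hinj hy.1 hy'.1 (Br_unique hac (hadjw hy.1) (hadjw hy'.1) ha hb)
  have hTT : ∀ y, G.Adj c y → (Br G c y).ncard = b → y = y1 ∨ y = y2 := by
    intro y hy hb
    by_contra hcon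
    push Not at hcon
    have hyT : y ∈ T0 := ⟨hy, hb⟩
    rcases hD y hyT with a | a <;> rcases hD y1 hy1T with a1 | a1 <;>
      rcases hD y2 hy2T with a2 | a2
    · exact h12 (hcc hy1T hy2T a1 a2)
    · exact hcon.1 (hcc hyT hy1T a a1)
    · exact hcon.2 (hcc hyT hy2T a a2)
    · exact h12 (hkk hy1T hy2T a1.2 a2.2)
    · exact h12 (hcc hy1T hy2T a1 a2)
    · exact hcon.2 (hkk hyT hy2T a.2 a2.2)
    · exact hcon.1 (hkk hyT hy1T a.2 a1.2)
    · exact h12 (hkk hy1T hy2T a1.2 a2.2)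
  refine ⟨hTT, hside, hwK, ?_⟩
  rcases hD y1 hy1T with a1 | a1 <;> rcases hD y2 hy2T with a2 | a2
  · exact absurd (hcc hy1T hy2T a1 a2) h12
  · rcases hTT y0 hcy0 a2.1 with h | h
    · exact absurd h hy0
    · left; rw [← h]; rw [h] at a2 ⊢; exact ⟨a1, a2.2⟩
  · rcases hTT y0 hcy0 a1.1 with h | h
    · exact absurd h hy0
    · right; rw [h] at a1; exact ⟨a2, a1.2⟩
  · exact absurd (hkk hy1T hy2T a1.2 a2.2) h12

end Pool.Agent.H98.Woven
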