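import Mathlib
import Pool.Agent.H98.WovenTree

set_option autoImplicit false

/-!
Woven graphs, part 5: the case of exactly two largest branches.
-/

namespace Pool.Agent.H98.Woven

open SimpleGraph

variable {V : Type} {G : SimpleGraph V}

lemma mem_Br_via (hac : G.IsAcyclic) {c y1 y2 : V} (hcy1 : G.Adj c y1) (hcy2 : G.Adj c y2)
    (h12 : y1 ≠ y2) : y1 ∈ Br G y2 c :=
  adj_mem_Br hac hcy2.symm (mem_Br_self _ _) hcy1 h12

lemma not_mem_Un (hac : G.IsAcyclic) {c y : V} {A : Set V} (hcy : G.Adj c y) (hy : y ∉ A) :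
    y ∉ Un G c A := by
  rintro (h | ⟨w, hw, h1, h2⟩)
  · exact G.loopless.irrefl _ (h ▸ hcy)
  · exact hy (Br_unique hac hcy h1 (mem_Br_self _ _) h2 ▸ hw)

theorem Escape.W2 [Finite V] (hac : G.IsAcyclic) (hconn : G.Preconnected) {c y1 y2 z : V} {b : ℕ}
    (E : Escape G c y1 {c, y1, z})
    (hcent : ∀ z, ∃ w, G.Adj z w ∧ b ≤ (Br G z w).ncard)
    (hle : ∀ y, G.Adj c y → (Br G c y).ncard ≤ b)
    (hcy1 : G.Adj c y1) (h1 : (Br G c y1).ncard = b)
    (hcy2 : G.Adj c y2) (h2 : (Br G c y2).ncard = b) (h12 : y1 ≠ y2)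
    (hTT : ∀ y, G.Adj c y → (Br G c y).ncard = b → y = y1 ∨ y = y2)
    (hz : G.Adj y2 z) (hzc : z ≠ c) :
    E.θ c = y2 ∧ ((E.θ y1 = c ∧ E.θ y2 = z) ∨ (E.θ y2 = c ∧ E.θ y1 = z)) ∧
    (∀ p ∈ Un G c {y1, y2}ᶜ, E.θ p ∈ Un G y2 {c, z}ᶜ ∧ E.ι p = E.ι c) ∧
    (Un G c {y1, y2}ᶜ).ncard + (Br G y2 z).ncard ≤ b ∧ 2 * (Br G y2 z).ncard ≤ b := by
  classical
  have hzBr : z ∈ Br G c y2 := adj_mem_Br hac hcy2 (mem_Br_self _ _) hz hzc
  obtain ⟨-, hside, hwK, hF⟩ := E.F2 (κ := fun _ => z) hac hconn hcent hle hcy1 h1 hcy2 h2 h12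
    (by
      intro y hy hb hne
      rcases hTT y hy hb with h | h
      · exact absurd h hne
      · rw [h]; exact ⟨hzBr, hz.ne.symm⟩)
    (by
      intro p
      constructor
      · rintro (h | h | h)
        · exact Or.inl h
        · exact Or.inr (Or.inl h)
        · exact Or.inr (Or.inr ⟨y2, hcy2, h2, h12.symm, h⟩)
      · rintro (h | h | ⟨y, _, _, _, h⟩)
        · exact Or.inl h
        · exact Or.inr (Or.inl h)
        · exact Or.inr (Or.inr h))
  have hwc : E.θ c ≠ c := fun h => hwK (by rw [h]; simp)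
  have hwz : E.θ c ≠ z := fun h => hwK (by rw [h]; simp)
  have hinj : ∀ {y y'}, G.Adj c y → G.Adj c y' → E.θ y = E.θ y' → y = y' :=
    fun ha hb h => E.locInj hwK ha hb h
  have hw : E.θ c = y2 := by
    by_contra hne
    have key : ∀ {u u' : V}, G.Adj (E.θ c) u → G.Adj (E.θ c) u' → c ∈ Br G (E.θ c) u →
        z ∈ Br G (E.θ c) u' → u = u' := by
      intro u u' hu hu' hc hz'
      have e1 : y2 ∈ Br G (E.θ c) u := adj_mem_Br hac hu hc hcy2 (fun h => hne h.symm)
      have e2 : z ∈ Br G (E.θ c) u := adj_mem_Br hac hu e1 hz (fun h => hwz h.symm)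
      exact Br_unique hac hu hu' e2 hz'
    rcases hF with h | h
    · exact h12 (hinj hcy1 hcy2 (key (E.adj hcy1) (E.adj hcy2) h.1 h.2))
    · exact h12 (hinj hcy1 hcy2 (key (E.adj hcy2) (E.adj hcy1) h.1 h.2).symm)
  have hadj : ∀ {y}, G.Adj c y → G.Adj y2 (E.θ y) := by
    intro y hy
    have := E.adj hy
    rwa [hw] at this
  have hcase : (E.θ y1 = c ∧ E.θ y2 = z) ∨ (E.θ y2 = c ∧ E.θ y1 = z) := by
    rw [hw] at hF
    rcases hF with h | h
    · left
      exact ⟨(Br_unique hac hcy2.symm (hadj hcy1) (mem_Br_self _ _) h.1).symm,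
        (Br_unique hac hz (hadj hcy2) (mem_Br_self _ _) h.2).symm⟩
    · right
      exact ⟨(Br_unique hac hcy2.symm (hadj hcy2) (mem_Br_self _ _) h.1).symm,
        (Br_unique hac hz (hadj hcy1) (mem_Br_self _ _) h.2).symm⟩
  have hcK : c ∈ ({c, y1, z} : Set V) := by simp
  have hzK : z ∈ ({c, y1, z} : Set V) := by simp
  have hy1K : y1 ∈ ({c, y1, z} : Set V) := by simp
  -- preimages of `c` and `z`
  have hpre : ∀ q, (E.θ q = c ∨ E.θ q = z) → q = y1 ∨ q = y2 := by
    intro q hq
    rcases hcase with ⟨e1, e2⟩ | ⟨e1, e2⟩ <;> rcases hq with hq | hq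
    · left; exact E.ker (hq.trans e1.symm) (by rw [hq]; exact hcK)
    · right; exact E.ker (hq.trans e2.symm) (by rw [hq]; exact hzK)
    · right; exact E.ker (hq.trans e1.symm) (by rw [hq]; exact hcK)
    · left; exact E.ker (hq.trans e2.symm) (by rw [hq]; exact hzK)
  have hy1Br : y1 ∈ Br G y2 c := mem_Br_via hac hcy1 hcy2 h12
  have hΩK : ∀ p ∈ Un G y2 {c, z}ᶜ, p ∉ ({c, y1, z} : Set V) := by
    rintro p (hp | ⟨u, hu, h3, h4⟩) hpK
    · rw [hp, ← hw] at hpK; exact hwK hpK
    · rcases hpK with h | h | h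
      · rw [h] at h4
        exact hu (Or.inl (Br_unique hac h3 hcy2.symm h4 (mem_Br_self _ _)))
      · rw [h] at h4
        exact hu (Or.inl (Br_unique hac h3 hcy2.symm h4 hy1Br))
      · have h' : p = z := h
        rw [h'] at h4
        exact hu (Or.inr (Br_unique hac h3 hz h4 (mem_Br_self _ _)))
  have hstep : ∀ p q, q ≠ y1 → q ≠ y2 → G.Adj p q → E.θ p ∈ Un G y2 {c, z}ᶜ →
      E.θ q ∈ Un G y2 {c, z}ᶜ := by
    intro p q hq1 hq2 hpq hθp
    by_contra hcon
    have h3 := (cross_Un hac hθp (E.adj hpq) hcon).2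
    have h4 : E.θ q = c ∨ E.θ q = z := by
      by_contra h5
      push Not at h5
      exact h3 (by
        rintro (h | h)
        · exact h5.1 h
        · exact h5.2 h)
    rcases hpre q h4 with h | h
    · exact hq1 h
    · exact hq2 h
  have hsize := ncard_Un_add hac hconn hcy2 hz hzc
  have hC0 := E.region (conn_Un c {y1, y2}ᶜ) (mem_Un_self _ _) hΩK (by rw [hw]; exact mem_Un_self _ _)
    (by
      intro p q _ hq hpq hθp _
      refine hstep p q ?_ ?_ hpq hθp
      · rintro rfl
        exact not_mem_Un hac hcy1 (by simp) hq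
      · rintro rfl
        exact not_mem_Un hac hcy2 (by simp) hq)
  refine ⟨hw, hcase, hC0.1, by omega, ?_⟩
  -- the bound on the branch at z
  have hbig : E.θ z = y2 → (Br G y2 z).ncard ≤ (Un G y2 {c, z}ᶜ).ncard := by
    intro hθz
    refine (E.region (conn_Br y2 z) (mem_Br_self _ _) hΩK (by rw [hθz]; exact mem_Un_self _ _)
      ?_).2
    intro p q _ hq hpq hθp _
    refine hstep p q ?_ ?_ hpq hθp
    · rintro rfl
      exact hzc (Br_unique hac hz hcy2.symm hq hy1Br)
    · rintro rfl
      exact not_mem_Br hac hz hq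
  rcases hcase with ⟨e1, e2⟩ | ⟨e1, e2⟩
  · -- θ y1 = c, θ y2 = z
    have hadjz : G.Adj z (E.θ z) := by
      have := E.adj hz
      rwa [e2] at this
    by_cases hθz : E.θ z = y2
    · have := hbig hθz
      omega
    · exfalso
      have hcBr : c ∈ Br G z y2 := adj_mem_Br hac hz.symm (mem_Br_self _ _) hcy2.symm hzc.symm
      have hy1Br' : y1 ∈ Br G z y2 := by
        refine adj_mem_Br hac hz.symm hcBr hcy1 ?_
        rintro rfl
        exact h12 (Br_unique hac hcy1 hcy2 (mem_Br_self _ _) hzBr)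
      have hreg := (E.region (conn_Br y2 z) (mem_Br_self _ _) (Ω := Br G z (E.θ z))
        (by
          rintro p hp (h | h | h)
          · rw [h] at hp
            exact hθz (Br_unique hac hadjz hz.symm hp hcBr)
          · rw [h] at hp
            exact hθz (Br_unique hac hadjz hz.symm hp hy1Br')
          · have h' : p = z := h
            rw [h'] at hp
            exact not_mem_Br hac hadjz hp) (mem_Br_self _ _) (by
          intro p q _ hq hpq hθp _
          by_contra hcon
          have h3 := (cross_Br hac hadjz hθp (E.adj hpq) hcon).2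
          have h4 : q = y2 := E.ker (h3.trans e2.symm) (by rw [h3]; exact hzK)
          rw [h4] at hq
          exact not_mem_Br hac hz hq)).2
      have hsub : Br G z (E.θ z) ⊆ Br G y2 z \ {z} := by
        intro p hp
        refine ⟨Br_sub hac hz hadjz hθz hp, ?_⟩
        intro h
        have h' : p = z := h
        rw [h'] at hp
        exact not_mem_Br hac hadjz hp
      have h5 := Set.ncard_le_ncard hsub (Set.toFinite _)
      have h6 := Set.ncard_sdiff_singleton_lt_of_mem (mem_Br_self y2 z) (Set.toFinite (Br G y2 z))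
      omega
  · -- θ y2 = c, θ y1 = z
    have hadjz : G.Adj c (E.θ z) := by
      have := E.adj hz
      rwa [e1] at this
    by_cases hθz : E.θ z = y2
    · have := hbig hθz
      omega
    · have hne1 : E.θ z ≠ y1 := by
        intro h
        exact hside z (by rw [h]; exact mem_Br_self _ _)
      have hreg := (E.region (conn_Br y2 z) (mem_Br_self _ _) (Ω := Br G c (E.θ z))
        (by
          rintro p hp (h | h | h)
          · rw [h] at hp
            exact not_mem_Br hac hadjz hp
          · rw [h] at hp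
            exact hne1 (Br_unique hac hadjz hcy1 hp (mem_Br_self _ _))
          · have h' : p = z := h
            rw [h'] at hp
            exact hθz (Br_unique hac hadjz hcy2 hp hzBr)) (mem_Br_self _ _) (by
          intro p q _ hq hpq hθp _
          by_contra hcon
          have h3 := (cross_Br hac hadjz hθp (E.adj hpq) hcon).2
          have h4 : q = y2 := E.ker (h3.trans e1.symm) (by rw [h3]; exact hcK)
          rw [h4] at hq
          exact not_mem_Br hac hz hq)).2
      have hsub : Br G c (E.θ z) ⊆ Un G c {y1, y2}ᶜ := by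
        intro p hp
        refine Or.inr ⟨E.θ z, ?_, hadjz, hp⟩
        rintro (h | h)
        · exact hne1 h
        · exact hθz h
      have h5 := Set.ncard_le_ncard hsub (Set.toFinite _)
      have h6 := hC0.2
      omega

end Pool.Agent.H98.Woven
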