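import Mathlib
import Pool.Agent.H98.WovenW

set_option autoImplicit false

/-!
Woven graphs, part 6: the kernel at distance three.
-/

namespace Pool.Agent.H98.Woven

open SimpleGraph

variable {V : Type} {G : SimpleGraph V}

/-- A largest branch cannot be squeezed into a region of size at most `b / 2` with a single
kernel vertex. -/
lemma Escape.big [Finite V] (hac : G.IsAcyclic) (hconn : G.Preconnected) {x y : V} {K : Set V}
    (E : Escape G x y K) {c y' κ : V} {b : ℕ} {Ω : Set V} (hcy : G.Adj c y')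
    (hb : (Br G c y').ncard = b) (hhalf : ∀ v, G.Adj y' v → v ≠ c → 2 * (Br G y' v).ncard ≤ b)
    (hκΩ : κ ∈ Ω) (hκK : κ ∈ K) (hΩK : ∀ p ∈ Ω, p ≠ κ → p ∉ K) (h0 : E.θ y' ∈ Ω)
    (h0' : E.θ y' ≠ κ) (hsz : 2 * Ω.ncard ≤ b)
    (hstep : ∀ p q, p ∈ Br G c y' → q ∈ Br G c y' → G.Adj p q → E.θ p ∈ Ω → E.θ p ≠ κ →
      E.ι p = E.ι y' → E.θ q ∈ Ω) : False := by
  have h4 := Set.ncard_sdiff_singleton_lt_of_mem hκΩ (Set.toFinite _)
  by_cases hp : ∃ p ∈ Br G c y', E.θ p = κ
  · obtain ⟨p0, hp0, hp0κ⟩ := hp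
    have hp0y : p0 ≠ y' := by
      rintro rfl
      exact h0' hp0κ
    have hp0' := hp0
    rw [Br_eq_Un hac hconn hcy] at hp0'
    rcases hp0' with h | ⟨v, hv, hyv, hp0v⟩
    · exact hp0y h
    · have hvc : v ≠ c := hv
      have hsub : Un G y' {c, v}ᶜ ⊆ Br G c y' := by
        rw [Br_eq_Un hac hconn hcy]
        rintro p (h | ⟨w, hw, h1, h2⟩)
        · exact Or.inl h
        · exact Or.inr ⟨w, fun h => hw (Or.inl h), h1, h2⟩
      have hreg := (E.region (conn_Un y' {c, v}ᶜ) (mem_Un_self _ _) (Ω := Ω \ {κ})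
        (fun p hp => hΩK p hp.1 hp.2) ⟨h0, h0'⟩ (by
          intro p q hp hq hpq hθp hι
          refine ⟨hstep p q (hsub hp) (hsub hq) hpq hθp.1 hθp.2 hι, ?_⟩
          intro h
          have h' : E.θ q = κ := h
          have e : q = p0 := E.ker (h'.trans hp0κ.symm) (by rw [h']; exact hκK)
          rw [e] at hq
          rcases hq with h | ⟨w, hw, h1, h2⟩
          · exact hp0y h
          · exact hw (Or.inr (Br_unique hac h1 hyv h2 hp0v)))).2
      have h5 := ncard_Un_add hac hconn hcy hyv hvc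
      have h6 := hhalf v hyv hvc
      omega
  · push Not at hp
    have hreg := (E.region (conn_Br c y') (mem_Br_self _ _) (Ω := Ω \ {κ})
      (fun p hp => hΩK p hp.1 hp.2) ⟨h0, h0'⟩ (by
        intro p q hp' hq hpq hθp hι
        exact ⟨hstep p q hp' hq hpq hθp.1 hθp.2 hι, hp q hq⟩)).2
    omega

theorem Escape.W3 [Finite V] (hac : G.IsAcyclic) (hconn : G.Preconnected) {c y1 y2 z κ : V}
    {b : ℕ} (E : Escape G c y1 {c, y1, κ})
    (hcent : ∀ z, ∃ w, G.Adj z w ∧ b ≤ (Br G z w).ncard)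
    (hle : ∀ y, G.Adj c y → (Br G c y).ncard ≤ b)
    (hcy1 : G.Adj c y1) (h1 : (Br G c y1).ncard = b)
    (hcy2 : G.Adj c y2) (h2 : (Br G c y2).ncard = b) (h12 : y1 ≠ y2)
    (hTT : ∀ y, G.Adj c y → (Br G c y).ncard = b → y = y1 ∨ y = y2)
    (hz : G.Adj y2 z) (hzc : z ≠ c) (hzκ : G.Adj z κ) (hκ2 : κ ≠ y2)
    (hhalf1 : ∀ v, G.Adj y1 v → v ≠ c → 2 * (Br G y1 v).ncard ≤ b)
    (hhalf2 : ∀ v, G.Adj y2 v → v ≠ c → 2 * (Br G y2 v).ncard ≤ b) :
    (Un G c {y1, y2}ᶜ).ncard < (Br G y2 z).ncard := by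
  classical
  have hzBr : z ∈ Br G c y2 := adj_mem_Br hac hcy2 (mem_Br_self _ _) hz hzc
  have hcBr : c ∈ Br G z y2 := adj_mem_Br hac hz.symm (mem_Br_self _ _) hcy2.symm hzc.symm
  have hκc : κ ≠ c := by
    rintro rfl
    exact hκ2 (Br_unique hac hzκ hz.symm (mem_Br_self _ _) hcBr)
  have hκBr : κ ∈ Br G c y2 := adj_mem_Br hac hcy2 hzBr hzκ hκc
  have hκz : κ ∈ Br G y2 z := adj_mem_Br hac hz (mem_Br_self _ _) hzκ hκ2
  obtain ⟨-, hside, hwK, hF⟩ := E.F2 (κ := fun _ => κ) hac hconn hcent hle hcy1 h1 hcy2 h2 h12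
    (by
      intro y hy hb hne
      rcases hTT y hy hb with h | h
      · exact absurd h hne
      · rw [h]; exact ⟨hκBr, hκ2⟩)
    (by
      intro p
      constructor
      · rintro (h | h | h)
        · exact Or.inl h
        · exact Or.inr (Or.inl h)
        · exact Or.inr (Or.inr ⟨y2, hcy2, h2, h12.symm, h⟩)
      · rintro (h | h | ⟨y, _, _, _, h⟩)
        · exact Or.inl h
        · exact Or.inr (Or.inl h)
        · exact Or.inr (Or.inr h))
  have hcK : c ∈ ({c, y1, κ} : Set V) := by simp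
  have hκK : κ ∈ ({c, y1, κ} : Set V) := by simp
  have hwc : E.θ c ≠ c := fun h => hwK (by rw [h]; simp)
  have hwκ : E.θ c ≠ κ := fun h => hwK (by rw [h]; simp)
  have hinj : ∀ {y y'}, G.Adj c y → G.Adj c y' → E.θ y = E.θ y' → y = y' :=
    fun ha hb h => E.locInj hwK ha hb h
  have hw : E.θ c = y2 ∨ E.θ c = z := by
    by_contra hne
    push Not at hne
    have key : ∀ {u u' : V}, G.Adj (E.θ c) u → G.Adj (E.θ c) u' → c ∈ Br G (E.θ c) u →
        κ ∈ Br G (E.θ c) u' → u = u' := by
      intro u u' hu hu' hc hκ'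
      have e1 : y2 ∈ Br G (E.θ c) u := adj_mem_Br hac hu hc hcy2 (fun h => hne.1 h.symm)
      have e2 : z ∈ Br G (E.θ c) u := adj_mem_Br hac hu e1 hz (fun h => hne.2 h.symm)
      have e3 : κ ∈ Br G (E.θ c) u := adj_mem_Br hac hu e2 hzκ (fun h => hwκ h.symm)
      exact Br_unique hac hu hu' e3 hκ'
    rcases hF with h | h
    · exact h12 (hinj hcy1 hcy2 (key (E.adj hcy1) (E.adj hcy2) h.1 h.2))
    · exact h12 (hinj hcy1 hcy2 (key (E.adj hcy2) (E.adj hcy1) h.1 h.2).symm)
  have hy1Br : y1 ∈ Br G y2 c := mem_Br_via hac hcy1 hcy2 h12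
  have hb1 : 1 ≤ b := by rw [← h1]; exact ncard_Br_pos _ _
  rcases hw with hw | hw
  · exfalso
    -- `θ c = y2`: the branch towards `κ`
    have gen : ∀ y', G.Adj c y' → (Br G c y').ncard = b →
        (∀ v, G.Adj y' v → v ≠ c → 2 * (Br G y' v).ncard ≤ b) → κ ∈ Br G y2 (E.θ y') → False := by
      intro y' hcy' hb' hhalf hκ'
      have hadj : G.Adj y2 (E.θ y') := by
        have := E.adj hcy'
        rwa [hw] at this
      have hθ : E.θ y' = z := Br_unique hac hadj hz hκ' hκz
      have hιy : E.ι c = E.ι y' := by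
        refine E.same hcy' hwK ?_
        rw [hθ]
        rintro (h | h | h)
        · exact hzc h
        · rw [h] at hzBr
          exact h12 (Br_unique hac hcy1 hcy2 (mem_Br_self _ _) hzBr)
        · exact hzκ.ne h
      refine E.big hac hconn (Ω := Br G y2 z) (κ := κ) hcy' hb' hhalf hκz hκK ?_
        (by rw [hθ]; exact mem_Br_self _ _) (by rw [hθ]; exact hzκ.ne) (hhalf2 z hz hzc) ?_
      · rintro p hp hpκ (h | h | h)
        · rw [h] at hp
          exact hzc (Br_unique hac hz hcy2.symm hp (mem_Br_self _ _))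
        · rw [h] at hp
          exact hzc (Br_unique hac hz hcy2.symm hp hy1Br)
        · exact hpκ h
      · intro p q _ hq hpq hθp hθpκ hι
        by_contra hcon
        have h3 := cross_Br hac hz hθp (E.adj hpq) hcon
        have h4 : E.ι p = E.ι q := by
          refine E.same hpq ?_ ?_
          · rw [h3.1]
            rintro (h | h | h)
            · exact hzc h
            · rw [h] at hzBr
              exact h12 (Br_unique hac hcy1 hcy2 (mem_Br_self _ _) hzBr)
            · exact hzκ.ne h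
          · rw [h3.2, ← hw]; exact hwK
        have h5 : q = c := E.inj (h3.2.trans hw.symm) (by rw [← h4, hι, hιy])
        rw [h5] at hq
        exact not_mem_Br hac hcy' hq
    rw [hw] at hF
    rcases hF with h | h
    · exact gen y2 hcy2 h2 hhalf2 h.2
    · exact gen y1 hcy1 h1 hhalf1 h.2
  · -- `θ c = z`
    have hadj : ∀ {y}, G.Adj c y → G.Adj z (E.θ y) := by
      intro y hy
      have := E.adj hy
      rwa [hw] at this
    have hcase : (E.θ y1 = y2 ∧ E.θ y2 = κ) ∨ (E.θ y2 = y2 ∧ E.θ y1 = κ) := by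
      rw [hw] at hF
      rcases hF with h | h
      · left
        exact ⟨(Br_unique hac hz.symm (hadj hcy1) hcBr h.1).symm,
          (Br_unique hac hzκ (hadj hcy2) (mem_Br_self _ _) h.2).symm⟩
      · right
        exact ⟨(Br_unique hac hz.symm (hadj hcy2) hcBr h.1).symm,
          (Br_unique hac hzκ (hadj hcy1) (mem_Br_self _ _) h.2).symm⟩
    have hzK : z ∉ ({c, y1, κ} : Set V) := by rw [← hw]; exact hwK
    have hreg := (E.region (conn_Un c {y1, y2}ᶜ) (mem_Un_self _ _) (Ω := Un G z {y2, κ}ᶜ)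
      (by
        have hy1Br' : y1 ∈ Br G z y2 := by
          refine adj_mem_Br hac hz.symm hcBr hcy1 ?_
          rintro rfl
          exact h12 (Br_unique hac hcy1 hcy2 (mem_Br_self _ _) hzBr)
        rintro p (hp | ⟨u, hu, h3, h4⟩) hpK
        · rw [hp] at hpK; exact hzK hpK
        · rcases hpK with h | h | h
          · rw [h] at h4
            exact hu (Or.inl (Br_unique hac h3 hz.symm h4 hcBr))
          · rw [h] at h4
            exact hu (Or.inl (Br_unique hac h3 hz.symm h4 hy1Br'))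
          · have h' : p = κ := h
            rw [h'] at h4
            exact hu (Or.inr (Br_unique hac h3 hzκ h4 (mem_Br_self _ _))))
      (by rw [hw]; exact mem_Un_self _ _) (by
        intro p q _ hq hpq hθp hι
        by_contra hcon
        have h3 := cross_Un hac hθp (E.adj hpq) hcon
        have h4 : E.θ q = y2 ∨ E.θ q = κ := by
          by_contra h5
          push Not at h5
          exact h3.2 (by
            rintro (h | h)
            · exact h5.1 h
            · exact h5.2 h)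
        have hqne : q ≠ y1 ∧ q ≠ y2 := by
          constructor
          · rintro rfl; exact not_mem_Un hac hcy1 (by simp) hq
          · rintro rfl; exact not_mem_Un hac hcy2 (by simp) hq
        have hpc : p = c := E.inj (h3.1.trans hw.symm) hι
        rw [hpc] at hpq
        rcases hcase with ⟨e1, e2⟩ | ⟨e1, e2⟩ <;> rcases h4 with h4 | h4
        · exact hqne.1 (hinj hpq hcy1 (h4.trans e1.symm))
        · exact hqne.2 (hinj hpq hcy2 (h4.trans e2.symm))
        · exact hqne.2 (hinj hpq hcy2 (h4.trans e1.symm))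
        · exact hqne.1 (hinj hpq hcy1 (h4.trans e2.symm)))).2
    have h5 := ncard_Un_add hac hconn hz hzκ hκ2
    have h6 := ncard_Br_pos (G := G) z κ
    omega

end Pool.Agent.H98.Woven
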