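import Mathlib
import Pool.Agent.H98.WovenW3

set_option autoImplicit false

/-!
Woven graphs, part 7: the edge `y1 z1` with kernel `{y1, z1, y2} ∪ {lam v}`.
-/

namespace Pool.Agent.H98.Woven

open SimpleGraph

variable {V : Type} {G : SimpleGraph V}

/-- The children of `y` (with respect to `c`) whose branch has size `μ`. -/
def Tie (G : SimpleGraph V) (c y : V) (μ : ℕ) : Set V :=
  {v | G.Adj y v ∧ v ≠ c ∧ (Br G y v).ncard = μ}

theorem Escape.W4 [Finite V] (hac : G.IsAcyclic) (hconn : G.Preconnected) {c y1 y2 z1 : V}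
    {b μ : ℕ} {lam : V → V} {K : Set V} (E : Escape G y1 z1 K)
    (hcent : ∀ z, ∃ w, G.Adj z w ∧ b ≤ (Br G z w).ncard)
    (hle : ∀ y, G.Adj c y → (Br G c y).ncard ≤ b)
    (hcy1 : G.Adj c y1) (h1 : (Br G c y1).ncard = b)
    (hcy2 : G.Adj c y2) (h2 : (Br G c y2).ncard = b) (h12 : y1 ≠ y2)
    (hTT : ∀ y, G.Adj c y → (Br G c y).ncard = b → y = y1 ∨ y = y2)
    (hhalf1 : ∀ v, G.Adj y1 v → v ≠ c → 2 * (Br G y1 v).ncard ≤ b)
    (hhalf2 : ∀ v, G.Adj y2 v → v ≠ c → 2 * (Br G y2 v).ncard ≤ b)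
    (hC0 : (Un G c {y1, y2}ᶜ).ncard < μ)
    (hμ1 : ∀ v, G.Adj y1 v → v ≠ c → (Br G y1 v).ncard ≤ μ)
    (hμ2 : ∀ v, G.Adj y2 v → v ≠ c → (Br G y2 v).ncard ≤ μ)
    (hz1 : z1 ∈ Tie G c y1 μ)
    (hT12 : (Tie G c y2 μ).Nonempty → (Tie G c y1 μ).ncard ≤ (Tie G c y2 μ).ncard)
    (hlam : ∀ v ∈ Tie G c y1 μ, v ≠ z1 → G.Adj v (lam v) ∧ lam v ≠ y1)
    (hK : ∀ p, p ∈ K ↔ p = y1 ∨ p = z1 ∨ p = y2 ∨ ∃ v ∈ Tie G c y1 μ, v ≠ z1 ∧ p = lam v) :
    False := by
  classical
  have hy1K : y1 ∈ K := (hK _).2 (Or.inl rfl)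
  have hz1K : z1 ∈ K := (hK _).2 (Or.inr (Or.inl rfl))
  have hy2K : y2 ∈ K := (hK _).2 (Or.inr (Or.inr (Or.inl rfl)))
  have hlamK : ∀ v ∈ Tie G c y1 μ, v ≠ z1 → lam v ∈ K :=
    fun v h h' => (hK _).2 (Or.inr (Or.inr (Or.inr ⟨v, h, h', rfl⟩)))
  have hμb : 2 * μ ≤ b := by
    have := hhalf1 z1 hz1.1 hz1.2.1
    rw [hz1.2.2] at this
    exact this
  have hμpos : 1 ≤ μ := by
    rw [← hz1.2.2]; exact ncard_Br_pos _ _
  have hy2Br : y2 ∈ Br G y1 c := mem_Br_via hac hcy2 hcy1 h12.symm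
  have hy1Br : y1 ∈ Br G y2 c := mem_Br_via hac hcy1 hcy2 h12
  have hlamBr : ∀ v ∈ Tie G c y1 μ, v ≠ z1 → lam v ∈ Br G y1 v := by
    intro v hv hne
    exact adj_mem_Br hac hv.1 (mem_Br_self _ _) (hlam v hv hne).1 (hlam v hv hne).2
  have hz1Bc : z1 ∈ Br G c y1 := adj_mem_Br hac hcy1 (mem_Br_self _ _) hz1.1 hz1.2.1
  have hlamBc : ∀ v ∈ Tie G c y1 μ, v ≠ z1 → lam v ∈ Br G c y1 := by
    intro v hv hne
    exact Br_sub hac hcy1 hv.1 hv.2.1 (hlamBr v hv hne)
  -- K-elements of branches at y1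
  have KB : ∀ v, G.Adj y1 v → v ≠ c → ∀ p ∈ Br G y1 v, p ∈ K →
      (v = z1 ∧ p = z1) ∨ (v ∈ Tie G c y1 μ ∧ v ≠ z1 ∧ p = lam v) := by
    intro v hv hvc p hp hpK
    rcases (hK p).1 hpK with h | h | h | ⟨v', hv', hne', h⟩
    · rw [h] at hp; exact absurd hp (not_mem_Br hac hv)
    · rw [h] at hp
      exact Or.inl ⟨Br_unique hac hv hz1.1 hp (mem_Br_self _ _), h⟩
    · rw [h] at hp
      exact absurd (Br_unique hac hv hcy1.symm hp hy2Br) hvc
    · rw [h] at hp
      have e := Br_unique hac hv hv'.1 hp (hlamBr v' hv' hne')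
      subst e
      exact Or.inr ⟨hv', hne', h⟩
  -- K-elements at branches of c
  have KC : ∀ w, G.Adj c w → ∀ p ∈ Br G c w, p ∈ K → w = y1 ∨ (w = y2 ∧ p = y2) := by
    intro w hcw p hp hpK
    rcases (hK p).1 hpK with h | h | h | ⟨v', hv', hne', h⟩
    · rw [h] at hp; exact Or.inl (Br_unique hac hcw hcy1 hp (mem_Br_self _ _))
    · rw [h] at hp; exact Or.inl (Br_unique hac hcw hcy1 hp hz1Bc)
    · rw [h] at hp; exact Or.inr ⟨Br_unique hac hcw hcy2 hp (mem_Br_self _ _), h⟩
    · rw [h] at hp; exact Or.inl (Br_unique hac hcw hcy1 hp (hlamBc v' hv' hne'))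
  have hcK : c ∉ K := by
    intro hc
    rcases (hK c).1 hc with h | h | h | ⟨v', hv', hne', h⟩
    · exact hcy1.ne h
    · exact hz1.2.1 h.symm
    · exact hcy2.ne h
    · have := hlamBc v' hv' hne'
      rw [← h] at this
      exact not_mem_Br hac hcy1 this
  have KU : ∀ p ∈ Un G c {y1, y2}ᶜ, p ∉ K := by
    rintro p (hp | ⟨w, hw, h3, h4⟩) hpK
    · rw [hp] at hpK; exact hcK hpK
    · rcases KC w h3 p h4 hpK with h | h
      · exact hw (Or.inl h)
      · exact hw (Or.inr h.1)
  have K2 : ∀ v, G.Adj y2 v → v ≠ c → ∀ p ∈ Br G y2 v, p ∉ K := by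
    intro v hv hvc p hp hpK
    have hp' := Br_sub hac hcy2 hv hvc hp
    rcases KC y2 hcy2 p hp' hpK with h | h
    · exact h12 h.symm
    · rw [h.2] at hp; exact not_mem_Br hac hv hp
  have hside : ∀ p, E.θ p ∉ Br G y1 z1 := by
    refine E.side hac hconn hcent hz1.1 hz1K ?_ (by rw [hz1.2.2]; omega)
    intro p hp hpK
    rcases KB z1 hz1.1 hz1.2.1 p hp hpK with h | h
    · exact h.2
    · exact absurd rfl h.2.1
  -- region lemmas
  have regC0 : ∀ a v, G.Adj a v → E.θ v = c →
      (∀ q ∈ Br G a v, E.θ q ≠ y1 ∧ E.θ q ≠ y2) → (Br G a v).ncard < μ := by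
    intro a v hav hθ hq
    refine lt_of_le_of_lt (E.region (conn_Br a v) (mem_Br_self _ _) KU
      (by rw [hθ]; exact mem_Un_self _ _) ?_).2 hC0
    intro p q _ hqS hpq hθp _
    by_contra hcon
    have h3 := (cross_Un hac hθp (E.adj hpq) hcon).2
    apply h3
    rintro (h | h)
    · exact (hq q hqS).1 h
    · exact (hq q hqS).2 h
  have regT : ∀ a v z', G.Adj a v → G.Adj y1 z' → z' ≠ c → z' ≠ z1 → E.θ v ∈ Br G y1 z' →
      E.θ v ∉ K → (∀ q ∈ Br G a v, E.θ q ≠ y1) →
      (z' ∈ Tie G c y1 μ → ∀ q ∈ Br G a v, E.θ q ≠ lam z') → (Br G a v).ncard < μ := by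
    intro a v z' hav hz' hz'c hz'1 hθ hθK hq1 hq2
    have hreg := (E.region (conn_Br a v) (mem_Br_self _ _) (Ω := Br G y1 z' \ K)
      (fun p hp => hp.2) ⟨hθ, hθK⟩ (by
        intro p q _ hq hpq hθp _
        have hmem : E.θ q ∈ Br G y1 z' := adj_mem_Br hac hz' hθp.1 (E.adj hpq) (hq1 q hq)
        refine ⟨hmem, fun hqK => ?_⟩
        rcases KB z' hz' hz'c _ hmem hqK with h | h
        · exact hz'1 h.1
        · exact hq2 h.1 q hq h.2.2)).2
    by_cases hT : z' ∈ Tie G c y1 μ
    · have hsub : Br G y1 z' \ K ⊆ Br G y1 z' \ {lam z'} := by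
        intro p hp
        refine ⟨hp.1, fun h => hp.2 ?_⟩
        have h' : p = lam z' := h
        rw [h']; exact hlamK z' hT hz'1
      have h3 := Set.ncard_le_ncard hsub (Set.toFinite _)
      have h4 := Set.ncard_sdiff_singleton_lt_of_mem (hlamBr z' hT hz'1)
        (Set.toFinite (Br G y1 z'))
      have h5 := hT.2.2
      omega
    · have h3 : (Br G y1 z' \ K).ncard ≤ (Br G y1 z').ncard :=
        Set.ncard_le_ncard Set.sdiff_subset (Set.toFinite _)
      have h4 := hμ1 z' hz' hz'c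
      have h5 : (Br G y1 z').ncard ≠ μ := fun h => hT ⟨hz', hz'c, h⟩
      omega
  have reg2 : ∀ a v z', G.Adj a v → G.Adj y2 z' → z' ≠ c → E.θ v ∈ Br G y2 z' →
      (∀ q ∈ Br G a v, E.θ q ≠ y2) → (Br G a v).ncard ≤ (Br G y2 z').ncard := by
    intro a v z' hav hz' hz'c hθ hq
    refine (E.region (conn_Br a v) (mem_Br_self _ _) (K2 z' hz' hz'c) hθ ?_).2
    intro p q _ hqS hpq hθp _
    exact adj_mem_Br hac hz' hθp (E.adj hpq) (hq q hqS)
  have hy1ne : c ≠ y1 := hcy1.ne
  -- two different largest branches cannot both contain the preimage of a kernel vertex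
  have hboth : ∀ k ∈ K, (∃ p ∈ Br G c y1, E.θ p = k) → (∃ p ∈ Br G c y2, E.θ p = k) → False := by
    rintro k hk ⟨p1, hp1, e1⟩ ⟨p2, hp2, e2⟩
    have e : p1 = p2 := E.ker (e1.trans e2.symm) (by rw [e1]; exact hk)
    rw [← e] at hp2
    exact h12 (Br_unique hac hcy1 hcy2 hp1 hp2)
  set w := E.θ c with hw
  have hadjw : ∀ {y}, G.Adj c y → G.Adj w (E.θ y) := fun h => E.adj h
  -- w ≠ y1
  have hwy1 : w ≠ y1 := by
    intro hwy
    have hnoy1 : ∀ y' , G.Adj c y' → ∀ q ∈ Br G c y', E.θ q ≠ y1 := by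
      intro y' hy' q hq h
      have e : q = c := E.ker (h.trans (hwy.symm.trans hw)) (by rw [h]; exact hy1K)
      rw [e] at hq
      exact not_mem_Br hac hy' hq
    have claim : ∀ y', G.Adj c y' → (Br G c y').ncard = b →
        (∀ v, G.Adj y' v → v ≠ c → 2 * (Br G y' v).ncard ≤ b) →
        ∃ p ∈ Br G c y', E.θ p = y2 := by
      intro y' hy' hb' hhalf
      have hadj : G.Adj y1 (E.θ y') := by
        have := hadjw hy'
        rwa [hwy] at this
      by_contra hcon
      push Not at hcon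
      by_cases hθ : E.θ y' = c
      · have := regC0 c y' hy' hθ (fun q hq => ⟨hnoy1 y' hy' q hq, hcon q hq⟩)
        omega
      · have hne : E.θ y' ≠ z1 := by
          intro h
          exact hside y' (by rw [h]; exact mem_Br_self _ _)
        by_cases hT : E.θ y' ∈ Tie G c y1 μ
        · refine E.big hac hconn (Ω := Br G y1 (E.θ y')) (κ := lam (E.θ y')) hy' hb' hhalf
            (hlamBr _ hT hne) (hlamK _ hT hne) ?_ (mem_Br_self _ _) (hlam _ hT hne).1.ne
            (hhalf1 _ hadj hθ) ?_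
          · intro p hp hpne hpK
            rcases KB _ hadj hθ p hp hpK with h | h
            · exact hne h.1
            · exact hpne h.2.2
          · intro p q _ hq hpq hθp _ _
            exact adj_mem_Br hac hadj hθp (E.adj hpq) (hnoy1 y' hy' q hq)
        · have := regT c y' (E.θ y') hy' hadj hθ hne (mem_Br_self _ _) (by
              intro hK'
              rcases KB _ hadj hθ _ (mem_Br_self _ _) hK' with h | h
              · exact hne h.1
              · exact hT h.1) (hnoy1 y' hy') (fun h => absurd h hT)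
          omega
    exact hboth y2 hy2K (claim y1 hcy1 h1 hhalf1) (claim y2 hcy2 h2 hhalf2)
  -- w ≠ y2
  have hwy2 : w ≠ y2 := by
    intro hwy
    have hnoy2 : ∀ y' , G.Adj c y' → ∀ q ∈ Br G c y', E.θ q ≠ y2 := by
      intro y' hy' q hq h
      have e : q = c := E.ker (h.trans (hwy.symm.trans hw)) (by rw [h]; exact hy2K)
      rw [e] at hq
      exact not_mem_Br hac hy' hq
    have claim : ∀ y', G.Adj c y' → (Br G c y').ncard = b → ∃ p ∈ Br G c y', E.θ p = y1 := by
      intro y' hy' hb'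
      have hadj : G.Adj y2 (E.θ y') := by
        have := hadjw hy'
        rwa [hwy] at this
      by_contra hcon
      push Not at hcon
      by_cases hθ : E.θ y' = c
      · have := regC0 c y' hy' hθ (fun q hq => ⟨hcon q hq, hnoy2 y' hy' q hq⟩)
        omega
      · have := reg2 c y' (E.θ y') hy' hadj hθ (mem_Br_self _ _) (hnoy2 y' hy')
        have := hhalf2 _ hadj hθ
        omega
    exact hboth y1 hy1K (claim y1 hcy1 h1) (claim y2 hcy2 h2)
  -- w ≠ lam z'
  have hwlam : ∀ z' ∈ Tie G c y1 μ, z' ≠ z1 → w ≠ lam z' := by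
    intro z' hz' hne' hwl
    have claim : ∀ y', G.Adj c y' → (Br G c y').ncard = b → ∃ p ∈ Br G c y', E.θ p = y1 := by
      intro y' hy' hb'
      have hadj : G.Adj (lam z') (E.θ y') := by
        have := hadjw hy'
        rwa [hwl] at this
      by_contra hcon
      push Not at hcon
      have hmem : E.θ y' ∈ Br G y1 z' :=
        adj_mem_Br hac hz'.1 (hlamBr z' hz' hne') hadj (hcon y' (mem_Br_self _ _))
      have := regT c y' z' hy' hz'.1 hz'.2.1 hne' hmem (by
          intro hK'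
          rcases KB _ hz'.1 hz'.2.1 _ hmem hK' with h | h
          · exact hne' h.1
          · exact hadj.ne h.2.2.symm) hcon (by
          intro _ q hq h
          have e : q = c := E.ker (h.trans (hwl.symm.trans hw)) (by
            rw [h]; exact hlamK z' hz' hne')
          rw [e] at hq
          exact not_mem_Br hac hy' hq)
      omega
    exact hboth y1 hy1K (claim y1 hcy1 h1) (claim y2 hcy2 h2)
  have hwz1 : w ≠ z1 := by
    intro h
    exact hside c (by rw [← hw, h]; exact mem_Br_self _ _)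
  have hwK : w ∉ K := by
    intro h
    rcases (hK w).1 h with h | h | h | ⟨v', hv', hne', h⟩
    · exact hwy1 h
    · exact hwz1 h
    · exact hwy2 h
    · exact hwlam v' hv' hne' h
  have hinj : ∀ {y y'}, G.Adj c y → G.Adj c y' → E.θ y = E.θ y' → y = y' :=
    fun ha hb h => E.locInj hwK ha hb h
  have hθ12 : E.θ y1 ≠ E.θ y2 := fun h => h12 (hinj hcy1 hcy2 h)
  -- direction claim
  have hD : ∀ y', G.Adj c y' → (Br G c y').ncard = b → ∃ k ∈ K, k ∈ Br G w (E.θ y') := by
    intro y' hy' hb'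
    by_contra hcon
    push Not at hcon
    have hΩK : ∀ p ∈ Br G w (E.θ y'), p ∉ K := fun p hp hpK => hcon p hpK hp
    have hι : E.ι c = E.ι y' := E.same hy' hwK (hΩK _ (mem_Br_self _ _))
    have hreg := (E.region (conn_Br c y') (mem_Br_self _ _) (Ω := Br G w (E.θ y')) hΩK
      (mem_Br_self _ _) (by
        intro p q _ hq hpq hθp hιp
        by_contra hcon
        have e1 := (cross_Br hac (hadjw hy') hθp (E.adj hpq) hcon).2
        have e2 : E.ι p = E.ι q := E.same hpq (hΩK _ hθp) (by rw [e1]; exact hwK)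
        have e3 : q = c := E.inj (e1.trans hw) (by rw [← e2, hιp, hι])
        rw [e3] at hq
        exact not_mem_Br hac hy' hq)).2
    by_cases hwc : w = c
    · have hadj : G.Adj c (E.θ y') := by
        have := hadjw hy'
        rwa [hwc] at this
      have hnot : (Br G c (E.θ y')).ncard ≠ b := by
        intro h
        rcases hTT _ hadj h with h' | h'
        · exact hΩK _ (mem_Br_self _ _) (by rw [h']; exact hy1K)
        · exact hΩK _ (mem_Br_self _ _) (by rw [h']; exact hy2K)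
      have := hle _ hadj
      rw [hwc] at hreg
      omega
    · obtain ⟨y0, hcy0, hwy0⟩ := exists_Br hac hconn hwc
      have hcn : c ∉ Br G w (E.θ y') := by
        intro hc
        exact hcon y1 hy1K (adj_mem_Br hac (hadjw hy') hc hcy1 (fun h => hwy1 h.symm))
      have := (ncard_Br_lt hac hcy0 (hle _ hcy0) hwy0 (hadjw hy') hcn).2
      omega
  -- the mapping of branches at a preimage of y1
  have G1 : ∀ a v, G.Adj a v → E.θ a = y1 → μ ≤ (Br G a v).ncard →
      (E.θ v = c ∧ ∃ q ∈ Br G a v, E.θ q = y2) ∨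
      (E.θ v ∈ Tie G c y1 μ ∧ E.θ v ≠ z1 ∧ ∃ q ∈ Br G a v, E.θ q = lam (E.θ v)) := by
    intro a v hav hθa hμS
    have hadj : G.Adj y1 (E.θ v) := by
      have := E.adj hav
      rwa [hθa] at this
    have hne : E.θ v ≠ z1 := by
      intro h
      exact hside v (by rw [h]; exact mem_Br_self _ _)
    have hno1 : ∀ q ∈ Br G a v, E.θ q ≠ y1 := by
      intro q hq h
      have e : q = a := E.ker (h.trans hθa.symm) (by rw [h]; exact hy1K)
      rw [e] at hq
      exact not_mem_Br hac hav hq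
    by_cases hθ : E.θ v = c
    · left
      refine ⟨hθ, ?_⟩
      by_contra hcon
      push Not at hcon
      have := regC0 a v hav hθ (fun q hq => ⟨hno1 q hq, hcon q hq⟩)
      omega
    · right
      by_contra hcon
      have := regT a v (E.θ v) hav hadj hθ hne (mem_Br_self _ _) (by
          intro hK'
          rcases KB _ hadj hθ _ (mem_Br_self _ _) hK' with h | h
          · exact hne h.1
          · exact (hlam _ h.1 h.2.1).1.ne h.2.2) hno1 (by
          intro hT q hq h
          exact hcon ⟨hT, hne, q, hq, h⟩)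
      omega
  -- an injection principle
  have inj_prin : ∀ (a : V) (T : Set V), (∀ v ∈ T, G.Adj a v) →
      (∀ v ∈ T, E.θ v ∈ Tie G c y1 μ ∧ E.θ v ≠ z1 ∧ ∃ q ∈ Br G a v, E.θ q = lam (E.θ v)) →
      Set.InjOn E.θ T := by
    intro a T hT1 hT2 v hv v' hv' heq
    obtain ⟨h3, h4, q, hq, hqe⟩ := hT2 v hv
    obtain ⟨_, _, q', hq', hqe'⟩ := hT2 v' hv'
    have e : q = q' := E.ker (by rw [hqe, hqe', heq]) (by rw [hqe]; exact hlamK _ h3 h4)
    rw [← e] at hq'
    exact Br_unique hac (hT1 v hv) (hT1 v' hv') hq hq'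
  have hcard1 := Set.ncard_sdiff_singleton_lt_of_mem hz1 (Set.toFinite (Tie G c y1 μ))
  by_cases hwc : w = c
  · -- w = c
    have hval : ∀ y', G.Adj c y' → (Br G c y').ncard = b → E.θ y' = y1 ∨ E.θ y' = y2 := by
      intro y' hy' hb'
      obtain ⟨k, hkK, hk⟩ := hD y' hy' hb'
      have hadj : G.Adj c (E.θ y') := by
        have := hadjw hy'
        rwa [hwc] at this
      rw [hwc] at hk
      rcases KC _ hadj k hk hkK with h | h
      · exact Or.inl h
      · exact Or.inr h.1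
    rcases hval y1 hcy1 h1 with e1 | e1 <;> rcases hval y2 hcy2 h2 with e2 | e2
    · exact hθ12 (e1.trans e2.symm)
    · -- identity
      have hmap : ∀ v ∈ Tie G c y1 μ, E.θ v ∈ Tie G c y1 μ ∧ E.θ v ≠ z1 ∧
          ∃ q ∈ Br G y1 v, E.θ q = lam (E.θ v) := by
        intro v hv
        rcases G1 y1 v hv.1 e1 (by rw [hv.2.2]) with h | h
        · exfalso
          obtain ⟨_, q, hq, hq2⟩ := h
          have e : q = y2 := E.ker (hq2.trans e2.symm) (by rw [hq2]; exact hy2K)
          rw [e] at hq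
          exact hv.2.1 (Br_unique hac hv.1 hcy1.symm hq hy2Br)
        · exact h
      have h3 := Set.ncard_le_ncard_of_injOn E.θ
        (t := Tie G c y1 μ \ {z1}) (fun v hv => ⟨(hmap v hv).1, (hmap v hv).2.1⟩)
        (inj_prin y1 _ (fun v hv => hv.1) hmap) (Set.toFinite _)
      omega
    · -- swap
      have hne2 : (Tie G c y2 μ).Nonempty := by
        have hadj : G.Adj y2 (E.θ z1) := by
          have := E.adj hz1.1
          rwa [e1] at this
        have hno2 : ∀ q ∈ Br G y1 z1, E.θ q ≠ y2 := by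
          intro q hq h
          have e : q = y1 := E.ker (h.trans e1.symm) (by rw [h]; exact hy2K)
          rw [e] at hq
          exact not_mem_Br hac hz1.1 hq
        have hno1 : ∀ q ∈ Br G y1 z1, E.θ q ≠ y1 := by
          intro q hq h
          have e : q = y2 := E.ker (h.trans e2.symm) (by rw [h]; exact hy1K)
          rw [e] at hq
          exact hz1.2.1 (Br_unique hac hz1.1 hcy1.symm hq hy2Br)
        by_cases hθ : E.θ z1 = c
        · exfalso
          have := regC0 y1 z1 hz1.1 hθ (fun q hq => ⟨hno1 q hq, hno2 q hq⟩)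
          have := hz1.2.2
          omega
        · have h3 := reg2 y1 z1 (E.θ z1) hz1.1 hadj hθ (mem_Br_self _ _) hno2
          have h4 := hμ2 _ hadj hθ
          have h5 := hz1.2.2
          exact ⟨E.θ z1, hadj, hθ, by omega⟩
      have hmap : ∀ v ∈ Tie G c y2 μ, E.θ v ∈ Tie G c y1 μ ∧ E.θ v ≠ z1 ∧
          ∃ q ∈ Br G y2 v, E.θ q = lam (E.θ v) := by
        intro v hv
        rcases G1 y2 v hv.1 e2 (by rw [hv.2.2]) with h | h
        · exfalso
          obtain ⟨_, q, hq, hq2⟩ := h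
          have e : q = y1 := E.ker (hq2.trans e1.symm) (by rw [hq2]; exact hy2K)
          rw [e] at hq
          exact hv.2.1 (Br_unique hac hv.1 hcy2.symm hq hy1Br)
        · exact h
      have h3 := Set.ncard_le_ncard_of_injOn E.θ
        (t := Tie G c y1 μ \ {z1}) (fun v hv => ⟨(hmap v hv).1, (hmap v hv).2.1⟩)
        (inj_prin y2 _ (fun v hv => hv.1) hmap) (Set.toFinite _)
      have h4 := hT12 hne2
      omega
    · exact hθ12 (e1.trans e2.symm)
  · -- w ≠ c
    obtain ⟨u0, hwu0, hcu0⟩ := exists_Br hac hconn (fun h => hwc h.symm : c ≠ w)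
    have hy1u : y1 ∈ Br G w u0 := adj_mem_Br hac hwu0 hcu0 hcy1 (fun h => hwy1 h.symm)
    have hy2u : y2 ∈ Br G w u0 := adj_mem_Br hac hwu0 hcu0 hcy2 (fun h => hwy2 h.symm)
    have hz1u : z1 ∈ Br G w u0 := adj_mem_Br hac hwu0 hy1u hz1.1 (fun h => hwz1 h.symm)
    have hval : ∀ y', G.Adj c y' → (Br G c y').ncard = b →
        E.θ y' = u0 ∨ (w ∈ Tie G c y1 μ ∧ w ≠ z1 ∧ E.θ y' = lam w) := by
      intro y' hy' hb'
      obtain ⟨k, hkK, hk⟩ := hD y' hy' hb'
      rcases (hK k).1 hkK with h | h | h | ⟨v, hv, hne, h⟩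
      · rw [h] at hk; exact Or.inl (Br_unique hac (hadjw hy') hwu0 hk hy1u)
      · rw [h] at hk; exact Or.inl (Br_unique hac (hadjw hy') hwu0 hk hz1u)
      · rw [h] at hk; exact Or.inl (Br_unique hac (hadjw hy') hwu0 hk hy2u)
      · rw [h] at hk
        by_cases hwv : w = v
        · right
          have hadj : G.Adj w (lam v) := by
            have := (hlam v hv hne).1
            rwa [← hwv] at this ⊢
          refine ⟨by rw [hwv]; exact hv, by rw [hwv]; exact hne, ?_⟩
          rw [Br_unique hac (hadjw hy') hadj hk (mem_Br_self _ _), hwv]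
        · left
          have h3 : v ∈ Br G w u0 := adj_mem_Br hac hwu0 hy1u hv.1 (fun h => hwv h.symm)
          have h4 : lam v ∈ Br G w u0 := adj_mem_Br hac hwu0 h3 (hlam v hv hne).1
            (fun h => hwlam v hv hne h.symm)
          exact Br_unique hac (hadjw hy') hwu0 hk h4
    -- w is a tie
    have hwT : w ∈ Tie G c y1 μ ∧ w ≠ z1 := by
      rcases hval y1 hcy1 h1 with e1 | e1
      · rcases hval y2 hcy2 h2 with e2 | e2
        · exact absurd (e1.trans e2.symm) hθ12
        · exact ⟨e2.1, e2.2.1⟩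
      · exact ⟨e1.1, e1.2.1⟩
    have hu0 : u0 = y1 := by
      have h3 : c ∈ Br G w y1 :=
        adj_mem_Br hac hwT.1.1.symm (mem_Br_self _ _) hcy1.symm (fun h => hwc h.symm)
      exact Br_unique hac hwu0 hwT.1.1.symm hcu0 h3
    have hlamwK : lam w ∈ K := hlamK w hwT.1 hwT.2
    rcases hval y1 hcy1 h1 with e1 | e1 <;> rcases hval y2 hcy2 h2 with e2 | e2
    · exact hθ12 (e1.trans e2.symm)
    · -- θ y1 = y1, θ y2 = lam w
      rw [hu0] at e1
      have e2' := e2.2.2
      have hmap : ∀ v ∈ Tie G c y1 μ, (E.θ v = c ∧ ∃ q ∈ Br G y1 v, E.θ q = y2) ∨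
          (E.θ v ∈ Tie G c y1 μ ∧ E.θ v ≠ z1 ∧ E.θ v ≠ w ∧
            ∃ q ∈ Br G y1 v, E.θ q = lam (E.θ v)) := by
        intro v hv
        rcases G1 y1 v hv.1 e1 (by rw [hv.2.2]) with h | ⟨h3, h4, q, hq, hq2⟩
        · exact Or.inl h
        · refine Or.inr ⟨h3, h4, ?_, q, hq, hq2⟩
          intro h5
          rw [h5] at hq2
          have e : q = y2 := E.ker (hq2.trans e2'.symm) (by rw [hq2]; exact hlamwK)
          rw [e] at hq
          exact hv.2.1 (Br_unique hac hv.1 hcy1.symm hq hy2Br)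
      have hinj' : Set.InjOn E.θ (Tie G c y1 μ) := by
        intro v hv v' hv' heq
        rcases hmap v hv with ⟨h3, q, hq, hqe⟩ | ⟨h3, h4, _, q, hq, hqe⟩ <;>
          rcases hmap v' hv' with ⟨h3', q', hq', hqe'⟩ | ⟨h3', h4', _, q', hq', hqe'⟩
        · have e : q = q' := E.ker (hqe.trans hqe'.symm) (by rw [hqe]; exact hy2K)
          rw [← e] at hq'
          exact Br_unique hac hv.1 hv'.1 hq hq'
        · exfalso
          rw [← heq, h3] at h3'
          exact h3'.2.1 rfl
        · exfalso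
          rw [heq, h3'] at h3
          exact h3.2.1 rfl
        · have e : q = q' := E.ker (by rw [hqe, hqe', heq]) (by rw [hqe]; exact hlamK _ h3 h4)
          rw [← e] at hq'
          exact Br_unique hac hv.1 hv'.1 hq hq'
      have h3 := Set.ncard_le_ncard_of_injOn E.θ
        (t := insert c ((Tie G c y1 μ \ {z1}) \ {w})) (by
          intro v hv
          rcases hmap v hv with h | h
          · exact Or.inl h.1
          · exact Or.inr ⟨⟨h.1, h.2.1⟩, h.2.2.1⟩) hinj' (Set.toFinite _)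
      have h4 := Set.ncard_insert_le c ((Tie G c y1 μ \ {z1}) \ {w})
      have h5 := Set.ncard_sdiff_singleton_lt_of_mem
        (show w ∈ Tie G c y1 μ \ {z1} from ⟨hwT.1, hwT.2⟩) (Set.toFinite _)
      omega
    · -- θ y1 = lam w, θ y2 = y1
      rw [hu0] at e2
      have e1' := e1.2.2
      have hadj : G.Adj (lam w) (E.θ z1) := by
        have := E.adj hz1.1
        rwa [e1'] at this
      have hno1 : ∀ q ∈ Br G y1 z1, E.θ q ≠ y1 := by
        intro q hq h
        have e : q = y2 := E.ker (h.trans e2.symm) (by rw [h]; exact hy1K)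
        rw [e] at hq
        exact hz1.2.1 (Br_unique hac hz1.1 hcy1.symm hq hy2Br)
      have hnol : ∀ q ∈ Br G y1 z1, E.θ q ≠ lam w := by
        intro q hq h
        have e : q = y1 := E.ker (h.trans e1'.symm) (by rw [h]; exact hlamwK)
        rw [e] at hq
        exact not_mem_Br hac hz1.1 hq
      have hmem : E.θ z1 ∈ Br G y1 w :=
        adj_mem_Br hac hwT.1.1 (hlamBr w hwT.1 hwT.2) hadj (hno1 z1 (mem_Br_self _ _))
      have := regT y1 z1 w hz1.1 hwT.1.1 hwT.1.2.1 hwT.2 hmem (by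
        intro hK'
        rcases KB _ hwT.1.1 hwT.1.2.1 _ hmem hK' with h | h
        · exact hwT.2 h.1
        · exact hadj.ne h.2.2.symm) hno1 (fun _ => hnol)
      have := hz1.2.2
      omega
    · exact hθ12 (e1.2.2.trans e2.2.2.symm)

end Pool.Agent.H98.Woven
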