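import Mathlib
import Pool.Agent.H98.WovenW4
import Pool.Agent.H98.WovenCore

set_option autoImplicit false

/-!
Woven graphs, part 8: classification of woven trees.
-/

namespace Pool.Agent.H98.Woven

open SimpleGraph

variable {V : Type} {G : SimpleGraph V}

lemma exists_child [Finite V] (hac : G.IsAcyclic) (hconn : G.Preconnected) {c y : V}
    (hcy : G.Adj c y) (h : 2 ≤ (Br G c y).ncard) : ∃ v, G.Adj y v ∧ v ≠ c := by
  by_contra hcon
  push Not at hcon
  have : Br G c y ⊆ {y} := by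
    rw [Br_eq_Un hac hconn hcy]
    rintro p (h | ⟨w, hw, h1, _⟩)
    · exact h
    · exact absurd (hcon w h1) hw
  have h2 := Set.ncard_le_ncard this (Set.toFinite _)
  rw [Set.ncard_singleton] at h2
  omega

lemma Br_singleton [Finite V] {c y : V} (h : (Br G c y).ncard ≤ 1) : Br G c y = {y} := by
  have h1 : (Br G c y).ncard = 1 := le_antisymm h (ncard_Br_pos c y)
  obtain ⟨a, ha⟩ := Set.ncard_eq_one.1 h1
  have : y ∈ Br G c y := mem_Br_self _ _
  rw [ha] at this ⊢
  have h2 : y = a := this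
  rw [h2]

lemma kernel_ok (hac : G.IsAcyclic) {c y1 y p : V} (hcy1 : G.Adj c y1) (hcy : G.Adj c y)
    (hne : y ≠ y1) (hp : p ∈ Br G c y) (hpy : p ≠ y) : ¬ G.Adj c p ∧ ¬ G.Adj y1 p := by
  constructor
  · intro h
    exact not_adj_of_mem_Br hac hcy hp hpy (not_mem_Br hac hcy) h.symm
  · intro h
    refine not_adj_of_mem_Br hac hcy hp hpy ?_ h.symm
    intro h'
    exact hne (Br_unique hac hcy hcy1 h' (mem_Br_self _ _))

theorem tree_mu2 [Finite V] (hac : G.IsAcyclic) (hconn : G.Preconnected)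
    (hmin : ∀ v, ∃ w, G.Adj v w) {k : ℕ} (hw : KWoven k G) {c y1 y2 : V} {b μ : ℕ}
    (hcent : ∀ z, ∃ w, G.Adj z w ∧ b ≤ (Br G z w).ncard)
    (hle : ∀ y, G.Adj c y → (Br G c y).ncard ≤ b)
    (hcy1 : G.Adj c y1) (h1 : (Br G c y1).ncard = b)
    (hcy2 : G.Adj c y2) (h2 : (Br G c y2).ncard = b) (h12 : y1 ≠ y2)
    (hTT : ∀ y, G.Adj c y → (Br G c y).ncard = b → y = y1 ∨ y = y2)
    (hhalf1 : ∀ v, G.Adj y1 v → v ≠ c → 2 * (Br G y1 v).ncard ≤ b)
    (hhalf2 : ∀ v, G.Adj y2 v → v ≠ c → 2 * (Br G y2 v).ncard ≤ b)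
    (hμ1 : ∀ v, G.Adj y1 v → v ≠ c → (Br G y1 v).ncard ≤ μ)
    (hμ2 : ∀ v, G.Adj y2 v → v ≠ c → (Br G y2 v).ncard ≤ μ)
    (hT1 : (Tie G c y1 μ).Nonempty)
    (hT12 : (Tie G c y2 μ).Nonempty → (Tie G c y1 μ).ncard ≤ (Tie G c y2 μ).ncard)
    (hμ : 2 ≤ μ) : False := by
  classical
  obtain ⟨z1, hz1⟩ := hT1
  have hch : ∀ v, ∃ u, v ∈ Tie G c y1 μ → G.Adj v u ∧ u ≠ y1 := by
    intro v
    by_cases hv : v ∈ Tie G c y1 μ
    · obtain ⟨u, hu1, hu2⟩ := exists_child hac hconn hv.1 (by rw [hv.2.2]; exact hμ)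
      exact ⟨u, fun _ => ⟨hu1, hu2⟩⟩
    · exact ⟨v, fun h => absurd h hv⟩
  choose lam hlam using hch
  have hlamBr : ∀ v ∈ Tie G c y1 μ, lam v ∈ Br G y1 v := by
    intro v hv
    exact adj_mem_Br hac hv.1 (mem_Br_self _ _) (hlam v hv).1 (hlam v hv).2
  have hlamBc : ∀ v ∈ Tie G c y1 μ, lam v ∈ Br G c y1 :=
    fun v hv => Br_sub hac hcy1 hv.1 hv.2.1 (hlamBr v hv)
  -- W3
  have hC0 : (Un G c {y1, y2}ᶜ).ncard < μ := by
    obtain ⟨E⟩ := exists_escape hw hmin hcy2 (K := {c, y2, lam z1}) (by simp) (by simp) (by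
      intro z hz hzc hzy
      rcases hz with h | h | h
      · exact absurd h hzc
      · exact absurd h hzy
      · have h' : z = lam z1 := h
        rw [h']
        exact kernel_ok hac hcy2 hcy1 h12 (hlamBc z1 hz1) (hlam z1 hz1).2)
    have h3 := E.W3 hac hconn hcent hle hcy2 h2 hcy1 h1 h12.symm
      (fun y hy hb => (hTT y hy hb).symm) hz1.1 hz1.2.1 (hlam z1 hz1).1 (hlam z1 hz1).2
      hhalf2 hhalf1
    rw [Set.pair_comm, hz1.2.2] at h3
    exact h3
  have hy2Br : y2 ∈ Br G y1 c := mem_Br_via hac hcy2 hcy1 h12.symm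
  obtain ⟨E⟩ := exists_escape hw hmin hz1.1
    (K := {p | p = y1 ∨ p = z1 ∨ p = y2 ∨ ∃ v ∈ Tie G c y1 μ, v ≠ z1 ∧ p = lam v})
    (Or.inl rfl) (Or.inr (Or.inl rfl)) (by
      intro z hz hz1' hz2'
      rcases hz with h | h | h | ⟨v, hv, hne, h⟩
      · exact absurd h hz1'
      · exact absurd h hz2'
      · rw [h]
        constructor
        · intro hadj
          exact hcy2.ne (Br_unique hac hcy1.symm hadj hy2Br (mem_Br_self _ _))
        · intro hadj
          have : y2 ∉ Br G y1 z1 := by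
            intro h'
            exact hz1.2.1 (Br_unique hac hz1.1 hcy1.symm h' hy2Br)
          exact h12 (cross_Br hac hz1.1 (mem_Br_self _ _) hadj this).2.symm
      · rw [h]
        constructor
        · intro hadj
          exact (hlam v hv).1.ne (Br_unique hac hv.1 hadj (hlamBr v hv) (mem_Br_self _ _))
        · intro hadj
          refine not_adj_of_mem_Br hac hv.1 (hlamBr v hv) (hlam v hv).1.ne.symm ?_ hadj.symm
          intro h'
          exact hne (Br_unique hac hv.1 hz1.1 h' (mem_Br_self _ _)))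
  exact E.W4 hac hconn hcent hle hcy1 h1 hcy2 h2 h12 hTT hhalf1 hhalf2 hC0 hμ1 hμ2 hz1 hT12
    (fun v hv _ => hlam v hv) (fun p => Iff.rfl)

/-- The star case. -/
lemma star_of_Br [Finite V] {c : V} (hall : ∀ v, v ≠ c → G.Adj c v)
    (hno : ∀ v w, v ≠ c → w ≠ c → ¬ G.Adj v w) {y1 y2 : V} (h1 : y1 ≠ c) (h2 : y2 ≠ c)
    (h12 : y1 ≠ y2) :
    ∃ s, 2 ≤ s ∧ Nonempty (G ≃g completeBipartiteGraph (Fin 1) (Fin s)) := by
  classical
  obtain ⟨s, ⟨e⟩⟩ := Finite.exists_equiv_fin {v : V // v ≠ c}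
  refine ⟨s, ?_, ?_⟩
  · have h3 : e ⟨y1, h1⟩ ≠ e ⟨y2, h2⟩ := by
      intro h
      exact h12 (congrArg Subtype.val (e.injective h))
    by_contra hs
    have : s = 0 ∨ s = 1 := by omega
    rcases this with rfl | rfl
    · exact (e ⟨y1, h1⟩).elim0
    · exact h3 (Subsingleton.elim _ _)
  · let f : V → Fin 1 ⊕ Fin s := fun v => if h : v = c then Sum.inl 0 else Sum.inr (e ⟨v, h⟩)
    let g : Fin 1 ⊕ Fin s → V := fun t => t.elim (fun _ => c) (fun i => (e.symm i).1)
    have hfc : f c = Sum.inl 0 := by simp [f]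
    have hfv : ∀ v (h : v ≠ c), f v = Sum.inr (e ⟨v, h⟩) := by
      intro v h
      simp [f, h]
    refine ⟨⟨⟨f, g, ?_, ?_⟩, ?_⟩⟩
    · intro v
      by_cases h : v = c
      · rw [h, hfc]; rfl
      · rw [hfv v h]
        change (e.symm (e ⟨v, h⟩)).1 = v
        rw [e.symm_apply_apply]
    · rintro (i | i)
      · change f c = _
        rw [hfc]
        congr 1
        exact Subsingleton.elim _ _
      · change f (e.symm i).1 = _
        rw [hfv _ (e.symm i).2]
        congr 1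
        exact e.apply_symm_apply i
    · intro v w
      change (completeBipartiteGraph (Fin 1) (Fin s)).Adj (f v) (f w) ↔ G.Adj v w
      by_cases hv : v = c <;> by_cases hw : w = c
      · rw [hv, hw, hfc]
        simp
      · rw [hv, hfc, hfv w hw]
        simp only [completeBipartiteGraph_adj]
        simpa using hall w hw
      · rw [hw, hfc, hfv v hv]
        simp only [completeBipartiteGraph_adj]
        simpa using (hall v hv).symm
      · rw [hfv v hv, hfv w hw]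
        simp only [completeBipartiteGraph_adj]
        simpa using hno v w hv hw

/-- The caterpillar case. -/
lemma caterpillar_of [Finite V] (hac : G.IsAcyclic) (hconn : G.Connected) {c y1 y2 z : V}
    {b : ℕ} (hb : 2 ≤ b)
    (hcy1 : G.Adj c y1) (h1 : (Br G c y1).ncard = b)
    (hcy2 : G.Adj c y2) (h2 : (Br G c y2).ncard = b) (h12 : y1 ≠ y2)
    (hs1 : ∀ v, G.Adj y1 v → v ≠ c → (Br G y1 v).ncard ≤ 1)
    (hs2 : ∀ v, G.Adj y2 v → v ≠ c → (Br G y2 v).ncard ≤ 1)
    (hC0 : (Un G c {y1, y2}ᶜ).ncard + 1 ≤ b)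
    (E : Escape G c y1 {c, y1, z}) (hE : E.θ c = y2)
    (hE2 : ∀ p ∈ Un G c {y1, y2}ᶜ, E.θ p ∈ Un G y2 {c, z}ᶜ ∧ E.ι p = E.ι c) :
    SuitableCaterpillar (b - 1) G := by
  classical
  have hpre := hconn.preconnected
  -- neighbours of children
  have hnb : ∀ y, G.Adj c y → (∀ v, G.Adj y v → v ≠ c → (Br G y v).ncard ≤ 1) →
      ∀ v, G.Adj y v → v ≠ c → G.neighborSet v = {y} := by
    intro y hcy hs v hv hvc
    have hsing := Br_singleton (hs v hv hvc)
    ext u
    constructor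
    · intro hu
      by_contra hne
      have hu' : u ∈ Br G y v := adj_mem_Br hac hv (mem_Br_self _ _) hu hne
      rw [hsing] at hu'
      have hu'' : u = v := hu'
      rw [hu''] at hu
      exact G.loopless.irrefl _ hu
    · intro hu
      have : u = y := hu
      rw [this]; exact hv.symm
  -- members of big branches are children
  have hmem : ∀ y, G.Adj c y → (∀ v, G.Adj y v → v ≠ c → (Br G y v).ncard ≤ 1) →
      ∀ p ∈ Br G c y, p ≠ y → G.Adj y p ∧ p ≠ c := by
    intro y hcy hs p hp hpy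
    rw [Br_eq_Un hac hpre hcy] at hp
    rcases hp with h | ⟨w, hw, h3, h4⟩
    · exact absurd h hpy
    · have hwc : w ≠ c := hw
      rw [Br_singleton (hs w h3 hwc)] at h4
      have h5 : p = w := h4
      rw [h5]; exact ⟨h3, hwc⟩
  -- degrees of y1, y2
  have hdeg : ∀ y, G.Adj c y → (Br G c y).ncard = b →
      (∀ v, G.Adj y v → v ≠ c → (Br G y v).ncard ≤ 1) → (G.neighborSet y).ncard = b := by
    intro y hcy hbb hs
    have : G.neighborSet y = insert c (Br G c y \ {y}) := by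
      ext p
      constructor
      · intro hp
        by_cases hpc : p = c
        · exact Or.inl hpc
        · refine Or.inr ⟨adj_mem_Br hac hcy (mem_Br_self _ _) hp hpc, ?_⟩
          intro h
          have h' : p = y := h
          rw [h'] at hp
          exact G.loopless.irrefl _ hp
      · rintro (h | ⟨h, h'⟩)
        · rw [h]; exact hcy.symm
        · exact (hmem y hcy hs p h h').1
    rw [this, Set.ncard_insert_of_notMem (fun h => not_mem_Br hac hcy h.1) (Set.toFinite _),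
      Set.ncard_sdiff_singleton_of_mem (mem_Br_self _ _), hbb]
    omega
  -- the other branches are single vertices
  have hsmall : ∀ w, G.Adj c w → w ≠ y1 → w ≠ y2 → ∀ u, G.Adj w u → u = c := by
    intro w hcw hw1 hw2 u hwu
    by_contra huc
    have hwA : w ∈ ({y1, y2}ᶜ : Set V) := by
      rintro (h | h)
      · exact hw1 h
      · exact hw2 h
    have hwU : w ∈ Un G c {y1, y2}ᶜ := Or.inr ⟨w, hwA, hcw, mem_Br_self _ _⟩
    have huU : u ∈ Un G c {y1, y2}ᶜ :=
      Or.inr ⟨w, hwA, hcw, adj_mem_Br hac hcw (mem_Br_self _ _) hwu huc⟩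
    have hθw : G.Adj y2 (E.θ w) := by
      have := E.adj hcw
      rwa [hE] at this
    have hθwc : E.θ w ≠ c := by
      rcases (hE2 w hwU).1 with h | ⟨t, ht, h3, h4⟩
      · rw [h] at hθw
        exact absurd hθw (G.loopless.irrefl _)
      · intro h5
        rw [h5] at h4
        exact ht (Or.inl (Br_unique hac h3 hcy2.symm h4 (mem_Br_self _ _)))
    have hN := hnb y2 hcy2 hs2 (E.θ w) hθw hθwc
    have hθu : E.θ u ∈ G.neighborSet (E.θ w) := E.adj hwu
    rw [hN] at hθu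
    have h5 : E.θ u = E.θ c := by rw [hE]; exact hθu
    exact huc (E.inj h5 (hE2 u huU).2)
  have hother : ∀ v, v ≠ y1 → v ≠ c → v ≠ y2 → (G.neighborSet v).ncard = 1 ∧
      (v ∈ Br G c y1 \ {y1} ∨ v ∈ Br G c y2 \ {y2} ∨ v ∈ Un G c {y1, y2}ᶜ \ {c}) := by
    intro v hv1 hvc hv2
    obtain ⟨w, hcw, hvw⟩ := exists_Br hac hpre hvc
    by_cases hw1 : w = y1
    · rw [hw1] at hvw
      have h3 := hmem y1 hcy1 hs1 v hvw hv1
      rw [hnb y1 hcy1 hs1 v h3.1 h3.2, Set.ncard_singleton]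
      exact ⟨rfl, Or.inl ⟨hvw, hv1⟩⟩
    · by_cases hw2 : w = y2
      · rw [hw2] at hvw
        have h3 := hmem y2 hcy2 hs2 v hvw hv2
        rw [hnb y2 hcy2 hs2 v h3.1 h3.2, Set.ncard_singleton]
        exact ⟨rfl, Or.inr (Or.inl ⟨hvw, hv2⟩)⟩
      · have hvw' : v = w := by
          rw [Br_eq_Un hac hpre hcw] at hvw
          rcases hvw with h | ⟨u, hu, h3, _⟩
          · exact h
          · exact absurd (hsmall w hcw hw1 hw2 u h3) hu
        have hN : G.neighborSet v = {c} := by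
          ext u
          constructor
          · intro hu
            rw [hvw'] at hu
            exact hsmall w hcw hw1 hw2 u hu
          · intro hu
            have : u = c := hu
            rw [this, hvw']; exact hcw.symm
        rw [hN, Set.ncard_singleton]
        refine ⟨rfl, Or.inr (Or.inr ⟨Or.inr ⟨w, ?_, hcw, hvw⟩, hvc⟩)⟩
        rintro (h | h)
        · exact hw1 h
        · exact hw2 h
  have hB1 := Set.ncard_sdiff_singleton_of_mem (mem_Br_self (G := G) c y1)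
  have hB2 := Set.ncard_sdiff_singleton_of_mem (mem_Br_self (G := G) c y2)
  have hB0 := Set.ncard_sdiff_singleton_of_mem (mem_Un_self (G := G) c {y1, y2}ᶜ)
  have hU1 : 1 ≤ (Un G c {y1, y2}ᶜ).ncard :=
    (Set.ncard_pos (Set.toFinite _)).2 ⟨c, mem_Un_self _ _⟩
  refine ⟨by omega, ⟨hconn, hac⟩, y1, c, y2, h12, hcy1.symm, hcy2,
    fun v a b' c' => (hother v a b' c').1, ?_, ?_, ?_, ?_⟩
  · have hsub : {v | v ≠ y1 ∧ v ≠ c ∧ v ≠ y2} ⊆
        (Br G c y1 \ {y1}) ∪ ((Br G c y2 \ {y2}) ∪ (Un G c {y1, y2}ᶜ \ {c})) := by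
      rintro v ⟨h3, h4, h5⟩
      exact (hother v h3 h4 h5).2
    have h3 := Set.ncard_le_ncard hsub (Set.toFinite _)
    have h4 := Set.ncard_union_le (Br G c y1 \ {y1})
      ((Br G c y2 \ {y2}) ∪ (Un G c {y1, y2}ᶜ \ {c}))
    have h5 := Set.ncard_union_le (Br G c y2 \ {y2}) (Un G c {y1, y2}ᶜ \ {c})
    omega
  · rw [hdeg y1 hcy1 h1 hs1]; omega
  · rw [hdeg y2 hcy2 h2 hs2]; omega
  · have hsub : G.neighborSet c ⊆ insert y1 (insert y2 (Un G c {y1, y2}ᶜ \ {c})) := by
      intro w hw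
      have hcw : G.Adj c w := hw
      by_cases hw1 : w = y1
      · exact Or.inl hw1
      · by_cases hw2 : w = y2
        · exact Or.inr (Or.inl hw2)
        · refine Or.inr (Or.inr ⟨Or.inr ⟨w, ?_, hcw, mem_Br_self _ _⟩, hcw.ne.symm⟩)
          rintro (h | h)
          · exact hw1 h
          · exact hw2 h
    have h3 := Set.ncard_le_ncard hsub (Set.toFinite _)
    have h4 := Set.ncard_insert_le y1 (insert y2 (Un G c {y1, y2}ᶜ \ {c}))
    have h5 := Set.ncard_insert_le y2 (Un G c {y1, y2}ᶜ \ {c})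
    omega

theorem tree_classification [Finite V] (hac : G.IsAcyclic) (hconn : G.Connected)
    (hmin : ∀ v, ∃ w, G.Adj v w) {k : ℕ} (hw : KWoven k G) :
    (∃ s, 2 ≤ s ∧ Nonempty (G ≃g completeBipartiteGraph (Fin 1) (Fin s))) ∨
      ∃ s, SuitableCaterpillar s G := by
  classical
  have hpre := hconn.preconnected
  have : Nonempty V := hconn.nonempty
  obtain ⟨c, b, hle, ⟨y1, hcy1, h1⟩, hcent, hb1⟩ := exists_centroid hmin
  by_cases hex : ∃ y2, G.Adj c y2 ∧ y1 ≠ y2 ∧ (Br G c y2).ncard = b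
  swap
  · -- a single largest branch
    exfalso
    push Not at hex
    obtain ⟨E⟩ := exists_escape hw hmin hcy1 (K := {c, y1}) (by simp) (by simp) (by
      intro z hz h3 h4
      rcases hz with h | h
      · exact absurd h h3
      · exact absurd h h4)
    exact E.t1 hac hpre hcent hcy1 h1 (fun y hy hne =>
      lt_of_le_of_ne (hle y hy) (hex y hy hne.symm))
  obtain ⟨y2, hcy2, h12, h2⟩ := hex
  by_cases hb : b = 1
  · -- star
    left
    have hBr : ∀ y, G.Adj c y → Br G c y = {y} := fun y hy =>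
      Br_singleton ((hle y hy).trans hb.le)
    have hall : ∀ v, v ≠ c → G.Adj c v := by
      intro v hv
      obtain ⟨w, hw1, hw2⟩ := exists_Br hac hpre hv
      rw [hBr w hw1] at hw2
      have : v = w := hw2
      rw [this]; exact hw1
    refine star_of_Br hall ?_ hcy1.ne.symm hcy2.ne.symm h12
    intro v w hv hw' hadj
    have h3 : w ∈ Br G c v := adj_mem_Br hac (hall v hv) (mem_Br_self _ _) hadj hw'
    rw [hBr v (hall v hv)] at h3
    have h4 : w = v := h3
    exact hadj.ne h4.symm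
  right
  have hb2 : 2 ≤ b := by omega
  -- T0 = {y1, y2}
  have hch : ∀ y, ∃ v, G.Adj c y → (Br G c y).ncard = b → G.Adj y v ∧ v ≠ c := by
    intro y
    by_cases hy : G.Adj c y ∧ (Br G c y).ncard = b
    · obtain ⟨v, hv⟩ := exists_child hac hpre hy.1 (by rw [hy.2]; exact hb2)
      exact ⟨v, fun _ _ => hv⟩
    · exact ⟨y, fun h h' => absurd ⟨h, h'⟩ hy⟩
  choose κ hκ using hch
  have hκBr : ∀ y, G.Adj c y → (Br G c y).ncard = b → κ y ∈ Br G c y ∧ κ y ≠ y := by
    intro y hy hyb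
    have := hκ y hy hyb
    exact ⟨adj_mem_Br hac hy (mem_Br_self _ _) this.1 this.2, this.1.ne.symm⟩
  have hTT : ∀ y, G.Adj c y → (Br G c y).ncard = b → y = y1 ∨ y = y2 := by
    obtain ⟨E⟩ := exists_escape hw hmin hcy1
      (K := {p | p = c ∨ p = y1 ∨ ∃ y, G.Adj c y ∧ (Br G c y).ncard = b ∧ y ≠ y1 ∧ p = κ y})
      (Or.inl rfl) (Or.inr (Or.inl rfl)) (by
        intro z hz h3 h4
        rcases hz with h | h | ⟨y, hy, hyb, hne, h⟩
        · exact absurd h h3
        · exact absurd h h4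
        · rw [h]
          exact kernel_ok hac hcy1 hy hne (hκBr y hy hyb).1 (hκBr y hy hyb).2)
    exact (E.F2 hac hpre hcent hle hcy1 h1 hcy2 h2 h12 (fun y hy hyb _ => hκBr y hy hyb)
      (fun p => Iff.rfl)).1
  have hTT' : ∀ y, G.Adj c y → (Br G c y).ncard = b → y = y2 ∨ y = y1 :=
    fun y hy hyb => (hTT y hy hyb).symm
  -- W2 on both sides
  have hW2 : ∀ z, G.Adj y2 z → z ≠ c →
      (Un G c {y1, y2}ᶜ).ncard + (Br G y2 z).ncard ≤ b ∧ 2 * (Br G y2 z).ncard ≤ b := by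
    intro z hz hzc
    obtain ⟨E⟩ := exists_escape hw hmin hcy1 (K := {c, y1, z}) (by simp) (by simp) (by
      intro p hp h3 h4
      rcases hp with h | h | h
      · exact absurd h h3
      · exact absurd h h4
      · have h' : p = z := h
        rw [h']
        exact kernel_ok hac hcy1 hcy2 h12.symm
          (adj_mem_Br hac hcy2 (mem_Br_self _ _) hz hzc) hz.ne.symm)
    exact (E.W2 hac hpre hcent hle hcy1 h1 hcy2 h2 h12 hTT hz hzc).2.2.2
  have hW1 : ∀ z, G.Adj y1 z → z ≠ c →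
      (Un G c {y1, y2}ᶜ).ncard + (Br G y1 z).ncard ≤ b ∧ 2 * (Br G y1 z).ncard ≤ b := by
    intro z hz hzc
    obtain ⟨E⟩ := exists_escape hw hmin hcy2 (K := {c, y2, z}) (by simp) (by simp) (by
      intro p hp h3 h4
      rcases hp with h | h | h
      · exact absurd h h3
      · exact absurd h h4
      · have h' : p = z := h
        rw [h']
        exact kernel_ok hac hcy2 hcy1 h12
          (adj_mem_Br hac hcy1 (mem_Br_self _ _) hz hzc) hz.ne.symm)
    have := (E.W2 hac hpre hcent hle hcy2 h2 hcy1 h1 h12.symm hTT' hz hzc).2.2.2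
    rwa [Set.pair_comm] at this
  -- the maximal size of a child branch
  set S : Set ℕ := {n | ∃ v, (G.Adj y1 v ∧ v ≠ c ∧ (Br G y1 v).ncard = n) ∨
    (G.Adj y2 v ∧ v ≠ c ∧ (Br G y2 v).ncard = n)} with hS
  obtain ⟨z, hz, hzc⟩ := exists_child hac hpre hcy2 (by rw [h2]; exact hb2)
  have hSne : S.Nonempty := ⟨_, z, Or.inr ⟨hz, hzc, rfl⟩⟩
  have hSbdd : BddAbove S := by
    refine ⟨b, ?_⟩
    rintro n ⟨v, ⟨h3, h4, h5⟩ | ⟨h3, h4, h5⟩⟩
    · have := (hW1 v h3 h4).2
      omega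
    · have := (hW2 v h3 h4).2
      omega
  obtain ⟨μ, hμmem, hμmax⟩ : ∃ μ, μ ∈ S ∧ ∀ n ∈ S, n ≤ μ :=
    ⟨sSup S, Nat.sSup_mem hSne hSbdd, fun n hn => le_csSup hSbdd hn⟩
  have hμ1 : ∀ v, G.Adj y1 v → v ≠ c → (Br G y1 v).ncard ≤ μ :=
    fun v h3 h4 => hμmax _ ⟨v, Or.inl ⟨h3, h4, rfl⟩⟩
  have hμ2 : ∀ v, G.Adj y2 v → v ≠ c → (Br G y2 v).ncard ≤ μ :=
    fun v h3 h4 => hμmax _ ⟨v, Or.inr ⟨h3, h4, rfl⟩⟩
  have hTie : (Tie G c y1 μ).Nonempty ∨ (Tie G c y2 μ).Nonempty := by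
    obtain ⟨v, h | h⟩ := hμmem
    · exact Or.inl ⟨v, h⟩
    · exact Or.inr ⟨v, h⟩
  by_cases hμ : 2 ≤ μ
  · exfalso
    by_cases hA : (Tie G c y1 μ).Nonempty ∧
        ((Tie G c y2 μ).Nonempty → (Tie G c y1 μ).ncard ≤ (Tie G c y2 μ).ncard)
    · exact tree_mu2 hac hpre hmin hw hcent hle hcy1 h1 hcy2 h2 h12 hTT
        (fun v h3 h4 => (hW1 v h3 h4).2) (fun v h3 h4 => (hW2 v h3 h4).2) hμ1 hμ2 hA.1 hA.2 hμ
    · have hB : (Tie G c y2 μ).Nonempty ∧
          ((Tie G c y1 μ).Nonempty → (Tie G c y2 μ).ncard ≤ (Tie G c y1 μ).ncard) := by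
        by_cases hn1 : (Tie G c y1 μ).Nonempty
        · have hn3 : ¬ ((Tie G c y2 μ).Nonempty →
              (Tie G c y1 μ).ncard ≤ (Tie G c y2 μ).ncard) := fun h => hA ⟨hn1, h⟩
          push Not at hn3
          exact ⟨hn3.1, fun _ => hn3.2.le⟩
        · rcases hTie with h | h
          · exact absurd h hn1
          · exact ⟨h, fun h' => absurd h' hn1⟩
      exact tree_mu2 hac hpre hmin hw hcent hle hcy2 h2 hcy1 h1 h12.symm hTT'
        (fun v h3 h4 => (hW2 v h3 h4).2) (fun v h3 h4 => (hW1 v h3 h4).2) hμ2 hμ1 hB.1 hB.2 hμ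
  · -- suitable caterpillar
    have hμ' : μ ≤ 1 := by omega
    obtain ⟨E⟩ := exists_escape hw hmin hcy1 (K := {c, y1, z}) (by simp) (by simp) (by
      intro p hp h3 h4
      rcases hp with h | h | h
      · exact absurd h h3
      · exact absurd h h4
      · have h' : p = z := h
        rw [h']
        exact kernel_ok hac hcy1 hcy2 h12.symm
          (adj_mem_Br hac hcy2 (mem_Br_self _ _) hz hzc) hz.ne.symm)
    obtain ⟨e1, -, e3, e4, -⟩ := E.W2 hac hpre hcent hle hcy1 h1 hcy2 h2 h12 hTT hz hzc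
    have h3 := ncard_Br_pos (G := G) y2 z
    exact ⟨b - 1, caterpillar_of hac hconn hb2 hcy1 h1 hcy2 h2 h12
      (fun v a b' => (hμ1 v a b').trans hμ') (fun v a b' => (hμ2 v a b').trans hμ')
      (by omega) E e1 e3⟩

/-- The classification of connected woven graphs. -/
theorem classification [Finite V] (hconn : G.Connected) (hedge : ∃ a b, G.Adj a b)
    (hw : ∃ k, KWoven k G) :
    (∃ s, 2 ≤ s ∧ Nonempty (G ≃g completeBipartiteGraph (Fin 1) (Fin s))) ∨
      ∃ s, SuitableCaterpillar s G := by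
  obtain ⟨k, hw⟩ := hw
  have hmin : ∀ v, ∃ w, G.Adj v w := by
    intro v
    obtain ⟨a, b, hab⟩ := hedge
    have : Nontrivial V := ⟨a, b, hab.ne⟩
    exact hconn.preconnected.exists_adj_of_nontrivial v
  exact tree_classification (acyclic_of_woven hconn.preconnected hmin hw) hconn hmin hw

end Pool.Agent.H98.Woven
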