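import Mathlib

set_option autoImplicit false

/-!
Definitions for the statement on woven graphs: copies, `k`-woven graphs and suitable
caterpillars.
-/

namespace Pool.Agent.H98.Woven

open SimpleGraph

/-- A copy of `G` in `F` is a subgraph of `F` isomorphic to `G`. -/
def IsCopy {V W : Type} (G : SimpleGraph V) {F : SimpleGraph W} (H : F.Subgraph) : Prop :=
  Nonempty (G ≃g H.coe)

/-- `G` is `k`-woven: whenever an edge `uv` of a finite graph `F` lies in all copies of `G`
in `F`, there is a set `Y` of edges of `F` other than `uv`, made of at most `k` edges incident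
to `u` and at most `k` edges incident to `v`, such that every copy of `G` in `F` contains an
edge of `Y`. -/
def KWoven {V : Type} (k : ℕ) (G : SimpleGraph V) : Prop :=
  ∀ (W : Type) [Finite W] (F : SimpleGraph W) (u v : W), F.Adj u v →
    (∀ H : F.Subgraph, IsCopy G H → s(u, v) ∈ H.edgeSet) →
    ∃ Y : Set (Sym2 W), Y ⊆ F.edgeSet \ {s(u, v)} ∧ (∀ e ∈ Y, u ∈ e ∨ v ∈ e) ∧
      {e ∈ Y | u ∈ e}.ncard ≤ k ∧ {e ∈ Y | v ∈ e}.ncard ≤ k ∧
      ∀ H : F.Subgraph, IsCopy G H → ∃ e ∈ Y, e ∈ H.edgeSet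

/-- An `s`-suitable caterpillar (`1 ≤ s`): a tree consisting of a path `x c y` and at most
`3s - 1` further vertices of degree `1`, where `x` and `y` have degree exactly `s + 1` and `c`
has degree at most `s + 1`. -/
def SuitableCaterpillar {V : Type} (s : ℕ) (G : SimpleGraph V) : Prop :=
  1 ≤ s ∧ G.IsTree ∧ ∃ x c y : V, x ≠ y ∧ G.Adj x c ∧ G.Adj c y ∧
    (∀ v, v ≠ x → v ≠ c → v ≠ y → (G.neighborSet v).ncard = 1) ∧
    {v | v ≠ x ∧ v ≠ c ∧ v ≠ y}.ncard ≤ 3 * s - 1 ∧
    (G.neighborSet x).ncard = s + 1 ∧ (G.neighborSet y).ncard = s + 1 ∧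
    (G.neighborSet c).ncard ≤ s + 1

end Pool.Agent.H98.Woven
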